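import Pool.Agent.TH152.BB.ModV
import Pool.Agent.TH365.J4881.Main
import Pool.Agent.TH740.BB.Avo
import Pool.Agent.TH558.BB.PLC

/-!
Curves through a point of a variety.
-/

set_option autoImplicit false

namespace Pool.Agent.TH152.BB

theorem cur_all : S_CUR := cur plc_all (cut_all avo_all)

end Pool.Agent.TH152.BB
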