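import Pool.Agent.TH152.BB.Stm

/-!
Bend and break: the rational curve.
-/

set_option autoImplicit false

open FF

namespace Pool.Agent.TH152.BB

open Pool.Agent.W603.LV Pool.Agent.W603.PV

section hm

variable {k : Type} [Field k] {R S : Type} [CommRing R] [Algebra k R] [CommRing S] [Algebra k S]
  {N : ℕ}

theorem hm_map (φ : R →ₐ[k] S) (F : MvPolynomial (Fin N) k) (D : ℕ) (f0 : R) (f : Fin N → R) :
    φ (hm F D f0 f) = hm F D (φ f0) (fun j => φ (f j)) := by
  unfold hm
  rw [map_sum]
  refine Finset.sum_congr rfl fun α _ => ?_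
  rw [map_mul, map_mul, map_pow, map_prod, AlgHom.commutes]
  simp only [map_pow]

theorem hm_smul (F : MvPolynomial (Fin N) k) (D : ℕ) (hD : ∀ α ∈ F.support, ∑ j, α j ≤ D) (c f0 : R)
    (f : Fin N → R) : hm F D (c * f0) (fun j => c * f j) = c ^ D * hm F D f0 f := by
  unfold hm
  rw [Finset.mul_sum]
  refine Finset.sum_congr rfl fun α hα => ?_
  have h1 : c ^ D = (∏ j, c ^ α j) * c ^ (D - ∑ j, α j) := by
    rw [Finset.prod_pow_eq_pow_sum, ← pow_add]
    congr 1
    have := hD α hα
    omega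
  simp only [mul_pow]
  rw [Finset.prod_mul_distrib, h1]
  ring

theorem hm_eq (F : MvPolynomial (Fin N) k) (D : ℕ) (hD : ∀ α ∈ F.support, ∑ j, α j ≤ D) (f0 : R)
    (f h : Fin N → R) (hf : ∀ j, f j = f0 * h j) :
    hm F D f0 f = f0 ^ D * MvPolynomial.aeval h F := by
  have h1 : hm F D f0 f = hm F D (f0 * 1) (fun j => f0 * h j) := by
    rw [mul_one]
    congr 1
    funext j
    exact hf j
  rw [h1, hm_smul F D hD]
  congr 1
  unfold hm
  rw [MvPolynomial.aeval_def, MvPolynomial.eval₂_eq']
  refine Finset.sum_congr rfl fun α _ => ?_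
  rw [one_pow, mul_one]

end hm

section val

open Polynomial

variable {k : Type} [Field k] {N : ℕ}

theorem hm_zero {R : Type} [CommRing R] [Algebra k R] (F : MvPolynomial (Fin N) k) (D : ℕ)
    (f0 : R) (f : Fin N → R) (hf : ∀ j, f j = 0) :
    hm F D f0 f = algebraMap k R (F.coeff 0) * f0 ^ D := by
  classical
  unfold hm
  have h1 : ∀ α ∈ F.support, α ≠ 0 → algebraMap k R (F.coeff α) * (∏ j, f j ^ α j) *
      f0 ^ (D - ∑ j, α j) = 0 := by
    intro α _ hα
    obtain ⟨j, hj⟩ := Finsupp.ne_iff.1 hα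
    have h2 : ∏ j, f j ^ α j = 0 := Finset.prod_eq_zero (Finset.mem_univ j) (by
      rw [hf, zero_pow hj])
    rw [h2, mul_zero, zero_mul]
  by_cases h0 : (0 : Fin N →₀ ℕ) ∈ F.support
  · rw [Finset.sum_eq_single_of_mem _ h0 h1]
    simp
  · rw [Finset.sum_eq_zero fun α hα => h1 α hα fun h => h0 (h ▸ hα),
      MvPolynomial.notMem_support_iff.1 h0, map_zero, zero_mul]

theorem val_zero {P0 : k[X]} {P : Fin N → k[X]} (h0 : P0 ≠ 0)
    (h : (∀ j, P j ≠ 0 → (P j).natDegree < P0.natDegree) ∨
      ∀ j, P j ≠ 0 → P0.natTrailingDegree < (P j).natTrailingDegree)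
    {F : MvPolynomial (Fin N) k} {D : ℕ} (hD : ∀ α ∈ F.support, ∑ j, α j ≤ D)
    (hF : hm F D P0 P = 0) : F.coeff 0 = 0 := by
  classical
  rcases h with h | h
  · by_contra hne
    have hmem : (0 : Fin N →₀ ℕ) ∈ F.support := MvPolynomial.mem_support_iff.2 hne
    have h1 := congrArg (fun p => Polynomial.coeff p (D * P0.natDegree)) hF
    simp only [hm, Polynomial.finsetSum_coeff, Polynomial.coeff_zero] at h1
    rw [Finset.sum_eq_single_of_mem _ hmem] at h1
    · have h2 : (algebraMap k k[X] (F.coeff 0) * (∏ j, P j ^ (0 : Fin N →₀ ℕ) j) *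
          P0 ^ (D - ∑ j, (0 : Fin N →₀ ℕ) j)).coeff (D * P0.natDegree) =
          F.coeff 0 * P0.leadingCoeff ^ D := by
        simp only [Finsupp.coe_zero, Pi.zero_apply, pow_zero, Finset.prod_const_one, mul_one,
          Finset.sum_const_zero, tsub_zero]
        change (Polynomial.C (F.coeff 0) * P0 ^ D).coeff (D * P0.natDegree) = _
        rw [Polynomial.coeff_C_mul, Polynomial.coeff_pow_mul_natDegree]
      rw [h2] at h1
      rcases mul_eq_zero.1 h1 with h3 | h3
      · exact hne h3
      · exact pow_ne_zero _ (Polynomial.leadingCoeff_ne_zero.2 h0) h3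
    · intro α hα hα0
      by_cases hz : ∃ j, α j ≠ 0 ∧ P j = 0
      · obtain ⟨j, hj, hj0⟩ := hz
        have h2 : ∏ j, P j ^ α j = 0 := Finset.prod_eq_zero (Finset.mem_univ j) (by
          rw [hj0, zero_pow hj])
        rw [h2, mul_zero, zero_mul, Polynomial.coeff_zero]
      · push Not at hz
        obtain ⟨j0, hj0⟩ := Finsupp.ne_iff.1 hα0
        apply Polynomial.coeff_eq_zero_of_natDegree_lt
        have hd : ∀ j, (P j ^ α j).natDegree ≤ α j * P0.natDegree := by
          intro j
          refine Polynomial.natDegree_pow_le.trans ?_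
          rcases Nat.eq_zero_or_pos (α j) with h2 | h2
          · rw [h2]; simp
          · exact Nat.mul_le_mul_left _ (h j (hz j h2.ne')).le
        have hlt : (P j0 ^ α j0).natDegree < α j0 * P0.natDegree :=
          lt_of_le_of_lt Polynomial.natDegree_pow_le
            (Nat.mul_lt_mul_of_pos_left (h j0 (hz j0 hj0)) (Nat.pos_of_ne_zero hj0))
        have h3 : (∏ j, P j ^ α j).natDegree < (∑ j, α j) * P0.natDegree := by
          refine lt_of_le_of_lt (Polynomial.natDegree_prod_le _ _) ?_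
          rw [Finset.sum_mul]
          exact Finset.sum_lt_sum (fun j _ => hd j) ⟨j0, Finset.mem_univ _, hlt⟩
        have h4 : (algebraMap k k[X] (F.coeff α) * (∏ j, P j ^ α j) *
            P0 ^ (D - ∑ j, α j)).natDegree ≤ (∏ j, P j ^ α j).natDegree +
              (D - ∑ j, α j) * P0.natDegree := by
          refine Polynomial.natDegree_mul_le.trans (add_le_add ?_ Polynomial.natDegree_pow_le)
          exact Polynomial.natDegree_C_mul_le _ _
        have h5 : (∑ j, α j) * P0.natDegree + (D - ∑ j, α j) * P0.natDegree =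
            D * P0.natDegree := by
          rw [← Nat.add_mul, Nat.add_sub_cancel' (hD α hα)]
        omega
  · obtain ⟨t, ht⟩ : ∃ t, t = P0.natTrailingDegree := ⟨_, rfl⟩
    obtain ⟨Q0, hQ0⟩ : (X : k[X]) ^ t ∣ P0 := by
      rw [Polynomial.X_pow_dvd_iff]
      intro d hd
      exact Polynomial.coeff_eq_zero_of_lt_natTrailingDegree (by omega)
    have hQ : ∀ j, ∃ Q : k[X], P j = X ^ t * (X * Q) := by
      intro j
      by_cases hj : P j = 0
      · exact ⟨0, by rw [hj]; ring⟩
      · obtain ⟨Q, hQ⟩ : (X : k[X]) ^ (t + 1) ∣ P j := by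
          rw [Polynomial.X_pow_dvd_iff]
          intro d hd
          have := h j hj
          exact Polynomial.coeff_eq_zero_of_lt_natTrailingDegree (by omega)
        exact ⟨Q, by rw [hQ]; ring⟩
    choose Q hQ using hQ
    have h1 : hm F D P0 P = X ^ t ^ 1 * 0 + (X ^ t) ^ D * hm F D Q0 (fun j => X * Q j) := by
      rw [mul_zero, zero_add, ← hm_smul F D hD, ← hQ0]
      congr 1
      funext j
      exact hQ j
    rw [mul_zero, zero_add] at h1
    rw [hF] at h1
    have h2 : hm F D Q0 (fun j => X * Q j) = 0 :=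
      (mul_eq_zero.1 h1.symm).resolve_left (pow_ne_zero _ (pow_ne_zero _ Polynomial.X_ne_zero))
    have h3 := hm_map (Polynomial.aeval (0 : k)) F D Q0 (fun j => X * Q j)
    rw [h2, map_zero, hm_zero F D _ _ (fun j => by simp)] at h3
    have hQ00 : Polynomial.aeval (0 : k) Q0 ≠ 0 := by
      intro h4
      have h5 : P0.coeff t = 0 := by
        have h6 := Polynomial.coeff_X_pow_mul Q0 t 0
        rw [zero_add] at h6
        rw [hQ0, h6]
        rw [← Polynomial.coeff_zero_eq_aeval_zero] at h4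
        exact h4
      rw [ht] at h5
      exact h0 (Polynomial.trailingCoeff_eq_zero.1 h5)
    rcases mul_eq_zero.1 h3.symm with h4 | h4
    · simpa using h4
    · exact absurd h4 (pow_ne_zero _ hQ00)

end val

section rat

variable {k L : Type} [Field k] [IsAlgClosed k] [CharZero k] [Field L] [Algebra k L] [IsFF k L]

theorem exists_bound {N : ℕ} (F : MvPolynomial (Fin N) k) :
    ∃ D : ℕ, ∀ α ∈ F.support, ∑ j, α j ≤ D :=
  ⟨F.support.sup fun α => ∑ j, α j, fun _ hα => Finset.le_sup (f := fun α => ∑ j, α j) hα⟩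

/-- bend and break, with a point over the rational function field -/
theorem bb_rat (hBB : S_BB) (c : Place k L) (N : ℕ) (h : ℕ → Fin N → L) (B : ℤ)
    (hinj : Function.Injective h) (hreg : ∀ m j, h m j = 0 ∨ 0 < c.ord (h m j))
    (hB : ∀ m j, hgt k (h m j) ≤ B) : ∃ g : Fin N → RatFunc k, (∃ j, g j ≠ 0) ∧
      (∀ F : MvPolynomial (Fin N) k, (∀ m, MvPolynomial.aeval (h m) F = 0) →
        MvPolynomial.aeval g F = 0) ∧
      ∀ F : MvPolynomial (Fin N) k, MvPolynomial.aeval g F = 0 → F.coeff 0 = 0 := by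
  obtain ⟨P0, P, h0, ⟨j1, h1⟩, h2, h3⟩ := hBB k L c N h B hinj hreg hB
  have hinj' := RatFunc.algebraMap_injective k
  have h0' : algebraMap (Polynomial k) (RatFunc k) P0 ≠ 0 := fun h => h0 (hinj' (by
    rw [h, map_zero]))
  let φ : Polynomial k →ₐ[k] RatFunc k := IsScalarTower.toAlgHom k (Polynomial k) (RatFunc k)
  have hφ : ∀ p, φ p = algebraMap (Polynomial k) (RatFunc k) p := fun p => rfl
  let g : Fin N → RatFunc k := fun j => φ (P j) / φ P0
  have hg : ∀ (F : MvPolynomial (Fin N) k) (D : ℕ), (∀ α ∈ F.support, ∑ j, α j ≤ D) →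
      φ (hm F D P0 P) = φ P0 ^ D * MvPolynomial.aeval g F := by
    intro F D hD
    rw [hm_map]
    refine hm_eq F D hD _ _ _ fun j => ?_
    simp only [g]
    rw [mul_comm, div_mul_cancel₀ _ (show φ P0 ≠ 0 from h0')]
  refine ⟨g, ⟨j1, ?_⟩, ?_, ?_⟩
  · simp only [g]
    refine div_ne_zero ?_ h0'
    intro h
    exact h1 (hinj' (by rw [← hφ, h, map_zero]))
  · intro F hF
    obtain ⟨D, hD⟩ := exists_bound F
    have h4 := hg F D hD
    rw [h3 F hF D hD, map_zero] at h4
    exact (mul_eq_zero.1 h4.symm).resolve_left (pow_ne_zero _ h0')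
  · intro F hF
    obtain ⟨D, hD⟩ := exists_bound F
    have h4 := hg F D hD
    rw [hF, mul_zero] at h4
    exact val_zero h0 h2 hD (hinj' (by rw [← hφ, h4, map_zero]))

omit [IsAlgClosed k] in
theorem hgt_sub_const (u : L) (a : k) : hgt k (u - algebraMap k L a) ≤ hgt k u := by
  obtain ⟨T, hT⟩ := exists_supp (k := k) (Finset.univ : Finset (Fin 2))
    ![u, u - algebraMap k L a]
  have h1 : ∀ P : Place k L, P.ord u ≠ 0 → P ∈ T := fun P => hT 0 (Finset.mem_univ _) P
  have h2 : ∀ P : Place k L, P.ord (u - algebraMap k L a) ≠ 0 → P ∈ T := fun P =>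
    hT 1 (Finset.mem_univ _) P
  rw [hgt_finset _ T h1, hgt_finset _ T h2]
  refine Finset.sum_le_sum fun P _ => ?_
  by_cases ha : a = 0
  · rw [ha, map_zero, sub_zero]
  have ha' : algebraMap k L a ≠ 0 := (map_ne_zero _).2 ha
  by_cases h0 : u - algebraMap k L a = 0
  · rw [h0, P.ord_zero]
    simp
  by_cases hu : u = 0
  · rw [hu, zero_sub, P.ord_neg, P.ord_const ha]
    simp
  have h3 := P.ord_add hu (neg_ne_zero.2 ha') (by rwa [← sub_eq_add_neg])
  rw [P.ord_neg, P.ord_const ha, ← sub_eq_add_neg] at h3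
  omega

/-- the same for families indexed by any finite type, with any value -/
theorem bb_val (hBB : S_BB) (c : Place k L) {σ : Type} [Fintype σ] (z : ℕ → σ → L) (v : σ → k)
    (B : ℤ) (hinj : Function.Injective z)
    (hreg : ∀ m j, z m j = algebraMap k L (v j) ∨ 0 < c.ord (z m j - algebraMap k L (v j)))
    (hB : ∀ m j, hgt k (z m j) ≤ B) : ∃ G : σ → RatFunc k,
      (∃ j, G j ∉ Set.range (algebraMap k (RatFunc k))) ∧
      (∀ F : MvPolynomial σ k, (∀ m, MvPolynomial.aeval (z m) F = 0) →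
        MvPolynomial.aeval G F = 0) ∧
      ∀ F : MvPolynomial σ k, MvPolynomial.aeval G F = 0 → MvPolynomial.eval v F = 0 := by
  classical
  obtain ⟨N, hN⟩ : ∃ N, N = Fintype.card σ := ⟨_, rfl⟩
  let e : σ ≃ Fin N := hN ▸ Fintype.equivFin σ
  let h : ℕ → Fin N → L := fun m j => z m (e.symm j) - algebraMap k L (v (e.symm j))
  obtain ⟨g, ⟨j1, h1⟩, h2, h3⟩ := bb_rat hBB c N h B (by
    intro m m' hmm
    apply hinj
    funext i
    have h4 := congrFun hmm (e i)
    simp only [h, Equiv.symm_apply_apply] at h4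
    exact sub_left_injective h4) (by
    intro m j
    rcases hreg m (e.symm j) with h4 | h4
    · left
      simp only [h]
      rw [h4, sub_self]
    · exact Or.inr h4) (fun m j => (hgt_sub_const _ _).trans (hB _ _))
  -- the translation of polynomials
  let τ : MvPolynomial σ k →ₐ[k] MvPolynomial (Fin N) k :=
    MvPolynomial.aeval fun i => MvPolynomial.X (e i) + MvPolynomial.C (v i)
  have hτ : ∀ {A : Type} [CommRing A] [Algebra k A] (w : Fin N → A) (F : MvPolynomial σ k),
      MvPolynomial.aeval w (τ F) = MvPolynomial.aeval (fun i => w (e i) + algebraMap k A (v i)) F := by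
    intro A _ _ w F
    have h4 : (MvPolynomial.aeval w).comp τ =
        (MvPolynomial.aeval fun i => w (e i) + algebraMap k A (v i)) := by
      ext i
      simp [τ, MvPolynomial.algebraMap_eq]
    rw [← h4]
    rfl
  refine ⟨fun i => g (e i) + algebraMap k (RatFunc k) (v i), ⟨e.symm j1, ?_⟩, ?_, ?_⟩
  · rintro ⟨a, ha⟩
    simp only [Equiv.apply_symm_apply] at ha
    have h4 := h3 (MvPolynomial.X j1 - MvPolynomial.C (a - v (e.symm j1))) (by
      rw [map_sub, MvPolynomial.aeval_X, MvPolynomial.aeval_C, map_sub, ha]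
      ring)
    apply h1
    have h6 : a = v (e.symm j1) := by
      simp at h4
      exact (sub_eq_zero.1 h4).symm
    rw [h6] at ha
    exact (add_eq_right.1 ha.symm)
  · intro F hF
    rw [← hτ]
    apply h2
    intro m
    rw [hτ]
    rw [← hF m]
    congr 1
    congr 1
    funext i
    simp only [h, Equiv.symm_apply_apply, sub_add_cancel]
  · intro F hF
    rw [← hτ] at hF
    have h4 := h3 _ hF
    have h5 : (τ F).coeff 0 = MvPolynomial.aeval (fun _ : Fin N => (0 : k)) (τ F) := by
      rw [MvPolynomial.aeval_eq_eval]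
      change _ = MvPolynomial.eval (0 : Fin N → k) (τ F)
      rw [MvPolynomial.eval_zero]
      rfl
    rw [h5, hτ] at h4
    rw [← h4, MvPolynomial.aeval_eq_eval]
    congr 1
    congr 1
    funext i
    simp

end rat

end Pool.Agent.TH152.BB
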