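import Pool.Agent.TH152.BB.Stm

/-! A critical radius, ascending. -/

set_option autoImplicit false

namespace Pool.Agent.TH152.BB

namespace Asc

lemma claimA {S : Set ℕ} {a : ℕ → ℚ} (ha : ∀ l ∈ S, 0 ≤ a l) {q0 q : ℚ} (h0 : 0 < q0)
    (hq : q0 < q) {b : ℚ} {i : ℕ} (h1 : ∃ l ∈ S, a l + l * q0 < b + i * q0)
    (h2 : ∀ l ∈ S, b + i * q ≤ a l + l * q) :
    ∃ q' : ℚ, q0 < q' ∧ q' ≤ q ∧ (∀ l ∈ S, b + i * q' ≤ a l + l * q') ∧
      ∃ l ∈ S, a l + l * q' = b + i * q' ∧ i < l := by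
  classical
  set V : Finset ℕ := (Finset.range (⌈(b + i * q0) / q0⌉₊ + 1)).filter
    (fun l => l ∈ S ∧ a l + l * q0 < b + i * q0) with hV
  have hmemV : ∀ l, l ∈ V ↔ l ∈ S ∧ a l + l * q0 < b + i * q0 := by
    intro l
    rw [hV, Finset.mem_filter, Finset.mem_range]
    refine ⟨fun h => h.2, fun h => ⟨?_, h⟩⟩
    have h3 := ha l h.1
    have h4 : (l : ℚ) < (b + i * q0) / q0 := by
      rw [lt_div_iff₀ h0]; linarith [h.2]
    have h5 : (l : ℚ) < ⌈(b + i * q0) / q0⌉₊ := h4.trans_le (Nat.le_ceil _)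
    have h6 : l < ⌈(b + i * q0) / q0⌉₊ := by exact_mod_cast h5
    omega
  have hne : V.Nonempty := by
    obtain ⟨l, hl, hl2⟩ := h1
    exact ⟨l, (hmemV l).2 ⟨hl, hl2⟩⟩
  have hgt : ∀ l ∈ V, (i : ℚ) < l := by
    intro l hl
    obtain ⟨hlS, hl2⟩ := (hmemV l).1 hl
    have h3 := h2 l hlS
    by_contra hc
    push Not at hc
    have h4 : (l : ℚ) * (q - q0) ≤ i * (q - q0) := mul_le_mul_of_nonneg_right hc (by linarith)
    linarith
  set f : ℕ → ℚ := fun l => (b - a l) / (l - i) with hf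
  obtain ⟨m, hm, hmax⟩ := Finset.exists_max_image V f hne
  have hmS := ((hmemV m).1 hm).1
  have hm2 := ((hmemV m).1 hm).2
  have hmi := hgt m hm
  have hpos : (0 : ℚ) < m - i := by linarith
  have e1 : a m + m * f m = b + i * f m := by
    have : f m * (m - i) = b - a m := by
      rw [hf]
      simp only
      rw [div_mul_cancel₀ _ hpos.ne']
    linarith
  have hq0 : q0 < f m := by
    rw [hf]
    simp only
    rw [lt_div_iff₀ hpos]
    linarith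
  have hq1 : f m ≤ q := by
    rw [hf]
    simp only
    rw [div_le_iff₀ hpos]
    linarith [h2 m hmS]
  refine ⟨f m, hq0, hq1, fun l hl => ?_, m, hmS, e1, by exact_mod_cast hmi⟩
  by_cases hlV : l ∈ V
  · have h3 := hmax l hlV
    have h4 := hgt l hlV
    have h5 : (0 : ℚ) < l - i := by linarith
    have h6 : f l * (l - i) = b - a l := by
      rw [hf]
      simp only
      rw [div_mul_cancel₀ _ h5.ne']
    have h7 : f l * (l - i) ≤ f m * (l - i) := mul_le_mul_of_nonneg_right h3 h5.le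
    linarith
  · have h3 : b + i * q0 ≤ a l + l * q0 := by
      by_contra hc
      push Not at hc
      exact hlV ((hmemV l).2 ⟨hl, hc⟩)
    have h4 := h2 l hl
    rcases le_total (i : ℚ) l with h5 | h5
    · have h6 : (0 : ℚ) ≤ (l - i) * (f m - q0) := mul_nonneg (by linarith) (by linarith)
      linarith
    · have h6 : (0 : ℚ) ≤ (i - l) * (q - f m) := mul_nonneg (by linarith) (by linarith)
      linarith

lemma main {N : ℕ} {S : Set ℕ} {a : ℕ → ℚ} (ha : ∀ l ∈ S, 0 ≤ a l) {T : Set (Fin N × ℕ)}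
    {b : Fin N × ℕ → ℚ} (hb : ∀ t ∈ T, 0 ≤ b t) {q0 q1 : ℚ} (h0 : 0 < q0) (h01 : q0 < q1)
    (h1 : ∀ t ∈ T, ∃ l ∈ S, a l + l * q0 < b t + t.2 * q0)
    (h2 : ∃ t ∈ T, ∀ l ∈ S, b t + t.2 * q1 ≤ a l + l * q1) :
    ∃ q μ : ℚ, q0 < q ∧ q ≤ q1 ∧ (∀ l ∈ S, μ ≤ a l + l * q) ∧
      (∀ t ∈ T, μ ≤ b t + t.2 * q) ∧ (∃ t ∈ T, b t + t.2 * q = μ) ∧
      ∀ t ∈ T, b t + t.2 * q = μ → ∃ l ∈ S, a l + l * q = μ ∧ t.2 < l := by
  classical
  set Q : Set ℚ := {q | q0 < q ∧ q ≤ q1 ∧ ∃ t ∈ T, ∃ l ∈ S,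
    (∀ l' ∈ S, b t + t.2 * q ≤ a l' + l' * q) ∧ a l + l * q = b t + t.2 * q ∧ t.2 < l} with hQ
  have key : ∀ q, q0 < q → q ≤ q1 → ∀ t ∈ T, (∀ l ∈ S, b t + t.2 * q ≤ a l + l * q) →
      ∃ q' ∈ Q, q' ≤ q ∧ ∃ l ∈ S, a l + l * q' = b t + t.2 * q' ∧ t.2 < l := by
    intro q hq hq' t ht hf
    obtain ⟨q', g1, g2, g3, l, g4, g5, g6⟩ := claimA ha h0 hq (h1 t ht) hf
    exact ⟨q', ⟨g1, g2.trans hq', t, ht, l, g4, g3, g5, g6⟩, g2, l, g4, g5, g6⟩
  obtain ⟨t0, ht0, hf0⟩ := h2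
  obtain ⟨l0, hl0, -⟩ := h1 t0 ht0
  set B : ℚ := a l0 + l0 * q1 with hB
  set M : ℕ := ⌈B / q0⌉₊ + 1 with hM
  have hfin : Q.Finite := by
    refine Set.Finite.subset (((Set.toFinite ((Set.univ : Set (Fin N)) ×ˢ
      ((Set.Iio M) ×ˢ (Set.Iio M)))).image
      (fun p : Fin N × (ℕ × ℕ) => (b (p.1, p.2.1) - a p.2.2) / ((p.2.2 : ℚ) - p.2.1)))) ?_
    rintro q ⟨hq, hq', ⟨j, i⟩, ht, l, hl, g1, g2, g3⟩
    simp only at g1 g2 g3
    have hi : (i : ℚ) < l := by exact_mod_cast g3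
    have hpos : (0 : ℚ) < l - i := by linarith
    have hv : b (j, i) + i * q ≤ B := by
      refine (g1 l0 hl0).trans ?_
      rw [hB]
      have : (l0 : ℚ) * q ≤ l0 * q1 := mul_le_mul_of_nonneg_left hq' (Nat.cast_nonneg _)
      linarith
    have hbound : ∀ m : ℕ, (m : ℚ) * q ≤ B → m < M := by
      intro m hm
      have h5 : (m : ℚ) * q0 ≤ m * q := mul_le_mul_of_nonneg_left hq.le (Nat.cast_nonneg _)
      have h6 : (m : ℚ) ≤ B / q0 := by rw [le_div_iff₀ h0]; linarith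
      have h7 : (m : ℚ) ≤ ⌈B / q0⌉₊ := h6.trans (Nat.le_ceil _)
      have h8 : m ≤ ⌈B / q0⌉₊ := by exact_mod_cast h7
      omega
    have hbl := ha l hl
    have hbt := hb _ ht
    refine ⟨(j, (i, l)), ⟨Set.mem_univ _, ?_, ?_⟩, ?_⟩
    · exact hbound i (by linarith)
    · exact hbound l (by linarith)
    · simp only
      rw [div_eq_iff hpos.ne']
      linarith
  have hne : Q.Nonempty := by
    obtain ⟨q', h3, -⟩ := key q1 h01 le_rfl t0 ht0 hf0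
    exact ⟨q', h3⟩
  obtain ⟨q, hqQ, hmin⟩ := Set.exists_min_image Q id hfin hne
  obtain ⟨hq, hq', t, ht, l, hl, g1, g2, g3⟩ := hqQ
  refine ⟨q, b t + t.2 * q, hq, hq', g1, ?_, ⟨t, ht, rfl⟩, ?_⟩
  · intro t' ht'
    by_contra hc
    push Not at hc
    obtain ⟨q', k1, k2, l', k3, k4, k5⟩ := key q hq hq' t' ht' fun l'' hl'' =>
      (hc.trans_le (g1 l'' hl'')).le
    have k6 : q' = q := le_antisymm k2 (hmin q' k1)
    subst k6
    have := g1 l' k3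
    linarith
  · intro t' ht' he
    obtain ⟨q', k1, k2, l', k3, k4, k5⟩ := key q hq hq' t' ht' fun l'' hl'' => by
      rw [he]; exact g1 l'' hl''
    have k6 : q' = q := le_antisymm k2 (hmin q' k1)
    subst k6
    exact ⟨l', k3, k4.trans he, k5⟩

lemma order_nonneg {k : Type} [Field k] {x : Pool.Agent.TH952.Hah k} (hx : x ≠ 0)
    (h : ∀ γ < 0, x.coeff γ = 0) : 0 ≤ x.order := by
  by_contra hc
  push Not at hc
  exact hx (HahnSeries.coeff_order_eq_zero.1 (h _ hc))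

end Asc

theorem asc_all : S_ASC := by
  intro k _ N c0 c q0 q1 h0 h01 hc0 hc h1 h2
  have := Asc.main (N := N) (S := {l | c0 l ≠ 0}) (a := fun l => (c0 l).order)
    (fun l hl => Asc.order_nonneg hl (hc0 l)) (T := {t | c t.1 t.2 ≠ 0})
    (b := fun t => (c t.1 t.2).order) (fun t ht => Asc.order_nonneg ht (hc t.1 t.2)) h0 h01
    (fun t ht => h1 t.1 t.2 ht) (by
      obtain ⟨j, i, g1, g2⟩ := h2
      exact ⟨(j, i), g1, g2⟩)
  obtain ⟨q, μ, g1, g2, g3, g4, ⟨⟨j, i⟩, g5, g6⟩, g7⟩ := this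
  refine ⟨q, μ, g1, g2, g3, fun j i h => g4 (j, i) h, ⟨j, i, g5, g6⟩, fun j i h h' => ?_⟩
  obtain ⟨l, k1, k2, k3⟩ := g7 (j, i) h h'
  exact ⟨l, k1, k2, k3⟩

end Pool.Agent.TH152.BB
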