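import Pool.Agent.TH152.BB.Stm

/-!
# Bend and break: a critical radius, descending
-/

set_option autoImplicit false

namespace Pool.Agent.TH152.BB

open Pool.Agent.TH952 (Hah)

namespace DescAux

/-- the last point at which a line is below a family of lines -/
lemma maxpt (L : Set ℕ) (b : ℕ → ℚ) (a : ℚ) (i : ℕ) (p q1 : ℚ) (hpq : p < q1)
    (hf : ∀ l ∈ L, a + i * p ≤ b l + l * p) (hn : ∃ l ∈ L, b l + l * q1 < a + i * q1) :
    ∃ m, p ≤ m ∧ m < q1 ∧ (∀ l ∈ L, a + i * m ≤ b l + l * m) ∧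
      ∃ l ∈ L, l < i ∧ b l + l * m = a + i * m := by
  classical
  set S : Finset ℕ := (Finset.range i).filter (fun l => l ∈ L ∧ b l + l * q1 < a + i * q1)
    with hS
  have hlt : ∀ l ∈ L, b l + l * q1 < a + i * q1 → l < i := by
    intro l hl h1
    by_contra hcon
    push Not at hcon
    have h2 : (i : ℚ) ≤ l := by exact_mod_cast hcon
    have h3 := hf l hl
    nlinarith
  obtain ⟨l0, hl0, hl0'⟩ := hn
  have hne : S.Nonempty :=
    ⟨l0, Finset.mem_filter.2 ⟨Finset.mem_range.2 (hlt l0 hl0 hl0'), hl0, hl0'⟩⟩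
  obtain ⟨l1, hl1, hmin⟩ := S.exists_min_image (fun l => (b l - a) / ((i : ℚ) - l)) hne
  have hpos : ∀ l ∈ S, (0 : ℚ) < (i : ℚ) - l := by
    intro l hl
    have h1 : l < i := Finset.mem_range.1 (Finset.mem_filter.1 hl).1
    have h2 : (l : ℚ) < i := by exact_mod_cast h1
    linarith
  have h1 := hpos l1 hl1
  obtain ⟨hr1, hL1, hq1⟩ := Finset.mem_filter.1 hl1
  set m : ℚ := (b l1 - a) / ((i : ℚ) - l1) with hm
  have hmx : m * ((i : ℚ) - l1) = b l1 - a := by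
    rw [hm]
    field_simp
  have hpm : p ≤ m := by
    rw [hm, le_div_iff₀ h1]
    have := hf l1 hL1
    linarith
  have hmq : m < q1 := by
    rw [hm, div_lt_iff₀ h1]
    linarith
  refine ⟨m, hpm, hmq, ?_, l1, hL1, Finset.mem_range.1 hr1, by linarith⟩
  intro l hl
  by_cases hlS : l ∈ S
  · have h2 := hmin l hlS
    have h3 : m ≤ (b l - a) / ((i : ℚ) - l) := h2
    rw [le_div_iff₀ (hpos l hlS)] at h3
    linarith
  · rcases Nat.lt_or_ge l i with h2 | h2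
    · have h3 : ¬ b l + l * q1 < a + i * q1 := fun h =>
        hlS (Finset.mem_filter.2 ⟨Finset.mem_range.2 h2, hl, h⟩)
      push Not at h3
      have h4 : (l : ℚ) < i := by exact_mod_cast h2
      nlinarith
    · have h3 : (i : ℚ) ≤ l := by exact_mod_cast h2
      have h4 := hf l hl
      nlinarith

lemma order_nonneg {k : Type} [Field k] {x : Hah k} (h : ∀ γ < 0, x.coeff γ = 0) (hx : x ≠ 0) :
    0 ≤ x.order := by
  by_contra hcon
  push Not at hcon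
  exact HahnSeries.coeff_order_eq_zero.not.2 hx (h _ hcon)

end DescAux

/-- a critical radius, descending -/
theorem desc_all : S_DESC := by
  intro k _ N c0 c q0 q1 hq0 hq hc0 hc h1 h0
  classical
  -- the lines below
  set L : Set ℕ := {l | c0 l ≠ 0} with hL
  -- feasibility
  set Fs : Fin N × ℕ → ℚ → Prop := fun x q => c x.1 x.2 ≠ 0 ∧ q0 ≤ q ∧ q < q1 ∧
    ∀ l ∈ L, (c x.1 x.2).order + x.2 * q ≤ (c0 l).order + l * q with hFs
  have hM : ∀ x : Fin N × ℕ, ∃ m : ℚ, (∃ q, Fs x q) → Fs x m ∧ (∀ q, Fs x q → q ≤ m) ∧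
      ∃ l ∈ L, l < x.2 ∧ (c0 l).order + l * m = (c x.1 x.2).order + x.2 * m := by
    intro x
    by_cases hx : ∃ q, Fs x q
    · obtain ⟨p, hx0, hp0, hp1, hp⟩ := hx
      obtain ⟨l, hl, hl'⟩ := h1 x.1 x.2 hx0
      obtain ⟨m, hpm, hmq, hm, l1, hl1, hli, hleq⟩ := DescAux.maxpt L (fun l => (c0 l).order)
        (c x.1 x.2).order x.2 p q1 hp1 hp ⟨l, hl, hl'⟩
      refine ⟨m, fun _ => ⟨⟨hx0, hp0.trans hpm, hmq, hm⟩, ?_, l1, hl1, hli, hleq⟩⟩
      intro q hqF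
      by_contra hcon
      push Not at hcon
      have h2 := hqF.2.2.2 l1 hl1
      have h3 : (l1 : ℚ) < x.2 := by exact_mod_cast hli
      have h4 : (c0 l1).order + l1 * m = (c x.1 x.2).order + x.2 * m := hleq
      nlinarith
    · exact ⟨0, fun h => absurd h hx⟩
  choose M hM using hM
  -- the finite set
  obtain ⟨j0, i0, hj0, hfe⟩ := h0
  obtain ⟨l0, hl0, _⟩ := h1 j0 i0 hj0
  obtain ⟨K, hK⟩ := exists_nat_gt (((c0 l0).order + l0 * q1) / q0)
  set S : Finset (Fin N × ℕ) := (Finset.univ ×ˢ Finset.range K).filter (fun x => ∃ q, Fs x q)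
    with hS
  have hmemS : ∀ x : Fin N × ℕ, (∃ q, Fs x q) → x ∈ S := by
    intro x hx
    refine Finset.mem_filter.2 ⟨Finset.mem_product.2 ⟨Finset.mem_univ _, ?_⟩, hx⟩
    obtain ⟨q, hx0, hqq0, hqq1, hF⟩ := hx
    have h2 := hF l0 hl0
    have h3 := DescAux.order_nonneg (hc x.1 x.2) hx0
    have h4 : (x.2 : ℚ) * q0 ≤ x.2 * q := mul_le_mul_of_nonneg_left hqq0 (Nat.cast_nonneg _)
    have h5 : (l0 : ℚ) * q ≤ l0 * q1 := mul_le_mul_of_nonneg_left hqq1.le (Nat.cast_nonneg _)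
    have h6 : (x.2 : ℚ) ≤ ((c0 l0).order + l0 * q1) / q0 := by
      rw [le_div_iff₀ hq0]
      linarith
    have h7 : (x.2 : ℚ) < K := h6.trans_lt hK
    exact Finset.mem_range.2 (by exact_mod_cast h7)
  have hF0 : ∃ q, Fs (j0, i0) q := ⟨q0, hj0, le_rfl, hq, fun l hl => hfe l hl⟩
  obtain ⟨y, hy, hmax⟩ := S.exists_max_image M ⟨_, hmemS _ hF0⟩
  obtain ⟨hyF, hyM, hyl⟩ := hM y (Finset.mem_filter.1 hy).2
  refine ⟨M y, (c y.1 y.2).order + y.2 * M y, hyF.2.1, hyF.2.2.1, fun l hl => hyF.2.2.2 l hl,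
    ?_, ⟨y.1, y.2, hyF.1, rfl⟩, ?_⟩
  · intro j i hji
    by_contra hcon
    push Not at hcon
    -- the line is feasible and strictly below
    have hFx : Fs (j, i) (M y) :=
      ⟨hji, hyF.2.1, hyF.2.2.1, fun l hl => hcon.le.trans (hyF.2.2.2 l hl)⟩
    obtain ⟨hxF, hxM, l, hl, hli, hleq⟩ := hM (j, i) ⟨_, hFx⟩
    have h2 : M (j, i) = M y := le_antisymm (hmax _ (hmemS _ ⟨_, hFx⟩)) (hxM _ hFx)
    rw [h2] at hleq
    have h3 := hyF.2.2.2 l hl
    have h4 : (c0 l).order + l * M y = (c j i).order + i * M y := hleq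
    linarith
  · intro j i hji heq
    have hFx : Fs (j, i) (M y) :=
      ⟨hji, hyF.2.1, hyF.2.2.1, fun l hl => heq.le.trans (hyF.2.2.2 l hl)⟩
    obtain ⟨hxF, hxM, l, hl, hli, hleq⟩ := hM (j, i) ⟨_, hFx⟩
    have h2 : M (j, i) = M y := le_antisymm (hmax _ (hmemS _ ⟨_, hFx⟩)) (hxM _ hFx)
    rw [h2] at hleq
    exact ⟨l, hl, hleq.trans heq, hli⟩

end Pool.Agent.TH152.BB
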