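import Pool.Agent.TH152.BB.Stm

/-!
Bend and break: the Taylor expansion under the evaluation (helper999).
-/

set_option autoImplicit false

open FF

namespace Pool.Agent.TH152.BB

open Pool.Agent.TH952 (Hah)

namespace Tay

open Polynomial

variable {k K : Type} [Field k] [Field K]

/-- the evaluation of polynomials -/
theorem ev_poly {j : k →+* K} {τ : Hah K} {E : O2 k →+* Hah K} (h : IsEv j τ E)
    (p : Polynomial (PowerSeries k)) : E (p : O2 k) = p.eval₂ (io j) τ := by
  have h1 : E.comp (Polynomial.coeToPowerSeries.ringHom (R := PowerSeries k)) =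
      Polynomial.eval₂RingHom (io j) τ := by
    refine Polynomial.ringHom_ext (fun a => ?_) ?_
    · rw [RingHom.comp_apply, Polynomial.coeToPowerSeries.ringHom_apply, Polynomial.coe_C, h.C,
        Polynomial.coe_eval₂RingHom, Polynomial.eval₂_C]
    · rw [RingHom.comp_apply, Polynomial.coeToPowerSeries.ringHom_apply, Polynomial.coe_X, h.X,
        Polynomial.coe_eval₂RingHom, Polynomial.eval₂_X]
  have h2 := RingHom.congr_fun h1 p
  rwa [RingHom.comp_apply, Polynomial.coeToPowerSeries.ringHom_apply] at h2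

theorem neg_coeff {j : k →+* K} {τ : Hah K} {E : O2 k →+* Hah K} (h : IsEv j τ E)
    (f : O2 k) {γ : ℚ} (hγ : γ < 0) : (E f).coeff γ = 0 := by
  rw [h.cont f γ 0 (by simpa using hγ)]
  simp

theorem hasse_map {R S : Type} [CommRing R] [CommRing S] (φ : R →+* S) (i : ℕ)
    (p : Polynomial R) : Polynomial.hasseDeriv i (p.map φ) = (Polynomial.hasseDeriv i p).map φ := by
  ext n
  rw [Polynomial.hasseDeriv_coeff, Polynomial.coeff_map, Polynomial.coeff_map,
    Polynomial.hasseDeriv_coeff, map_mul, map_natCast]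

/-- the Taylor expansion of a polynomial -/
theorem expand {R S : Type} [CommRing R] [CommRing S] (φ : R →+* S) (p : Polynomial R) (b h : S)
    {M : ℕ} (hM : p.natDegree < M) : p.eval₂ φ (b + h) =
      ∑ i ∈ Finset.range M, (Polynomial.hasseDeriv i p).eval₂ φ b * h ^ i := by
  have h1 : p.eval₂ φ (b + h) = (Polynomial.taylor b (p.map φ)).eval h := by
    rw [Polynomial.taylor_eval, Polynomial.eval_map, add_comm]
  have h2 : (Polynomial.taylor b (p.map φ)).natDegree < M := by
    rw [Polynomial.natDegree_taylor]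
    exact lt_of_le_of_lt (Polynomial.natDegree_map_le) hM
  rw [h1, Polynomial.eval_eq_sum_range' h2]
  refine Finset.sum_congr rfl fun i _ => ?_
  rw [Polynomial.taylor_coeff, hasse_map, Polynomial.eval_map]

theorem mp_io (g : PowerSeries k) (j : k →+* K) : mp j (io (RingHom.id k) g) = io j g := by
  ext γ
  rfl

theorem mp_eval₂ (j : k →+* K) (β : Hah k) (p : Polynomial (PowerSeries k)) :
    mp j (p.eval₂ (io (RingHom.id k)) β) = p.eval₂ (io j) (mp j β) := by
  rw [Polynomial.hom_eval₂]
  congr 1

theorem trunc_hs (f : O2 k) (i M : ℕ) (hi : i ≤ M) :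
    (PowerSeries.trunc (M - i) (hs i f) : Polynomial (PowerSeries k)) =
      Polynomial.hasseDeriv i (PowerSeries.trunc M f) := by
  ext1 m
  rw [Polynomial.hasseDeriv_coeff, PowerSeries.coeff_trunc, PowerSeries.coeff_trunc]
  by_cases h : m < M - i
  · rw [if_pos h, if_pos (by omega)]
    unfold hs
    rw [PowerSeries.coeff_mk]
  · rw [if_neg h, if_neg (by omega), mul_zero]

end Tay

open Tay in
theorem tay_all : S_TAY := by
  intro k _ _ β q hβ hβ0 hq E E' hE hE' f γ N hγ
  -- the orders are positive
  have hd0 : ∀ δ ≤ 0, (dsc β q).coeff δ = 0 := by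
    intro δ hδ
    unfold dsc
    rw [HahnSeries.coeff_add, mp_coeff, hβ δ hδ, map_zero, zero_add,
      HahnSeries.coeff_single_of_ne (by
        intro h
        rw [h] at hδ
        linarith)]
  have hdne : dsc β q ≠ 0 := by
    intro h
    have h1 : (dsc β q).coeff q = 0 := by rw [h]; rfl
    unfold dsc at h1
    rw [HahnSeries.coeff_add, mp_coeff, HahnSeries.coeff_single_same] at h1
    have h2 : (RatFunc.X : RatFunc k) = RatFunc.C (-(β.coeff q)) := by
      rw [map_neg]
      exact eq_neg_of_add_eq_zero_right h1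
    have h3 : algebraMap (Polynomial k) (RatFunc k) Polynomial.X =
        algebraMap (Polynomial k) (RatFunc k) (Polynomial.C (-(β.coeff q))) := by
      rw [RatFunc.algebraMap_X, RatFunc.algebraMap_C]
      exact h2
    have h4 := RatFunc.algebraMap_injective k h3
    exact Polynomial.X_ne_C _ h4
  have hdo : 0 < (dsc β q).order := by
    by_contra hc
    push Not at hc
    exact hdne (HahnSeries.coeff_order_eq_zero.1 (hd0 _ hc))
  have hβo : 0 < β.order := by
    by_contra hc
    push Not at hc
    exact hβ0 (HahnSeries.coeff_order_eq_zero.1 (hβ _ hc))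
  -- a large bound
  obtain ⟨M1, hM1⟩ := exists_nat_gt (γ / β.order)
  obtain ⟨M2, hM2⟩ := exists_nat_gt (γ / (dsc β q).order)
  rw [div_lt_iff₀ hβo] at hM1
  rw [div_lt_iff₀ hdo] at hM2
  set M : ℕ := N + M1 + M2 + 1 with hM
  have hMN : N ≤ M := by omega
  have e1 : γ < M * (dsc β q).order := by
    refine lt_of_lt_of_le hM2 (mul_le_mul_of_nonneg_right ?_ hdo.le)
    exact_mod_cast (show M2 ≤ M by omega)
  set p : Polynomial (PowerSeries k) := PowerSeries.trunc M f with hp
  have hdeg : p.natDegree < M := by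
    rw [hp]
    rw [hM]
    exact PowerSeries.natDegree_trunc_lt f _
  have e2 : E' (p : O2 k) = ∑ i ∈ Finset.range M,
      mp (RatFunc.C : k →+* RatFunc k) (E (Polynomial.hasseDeriv i p : Polynomial (PowerSeries k))) *
        HahnSeries.single (i * q) (RatFunc.X ^ i) := by
    rw [ev_poly hE']
    unfold dsc
    rw [expand (io RatFunc.C) p _ _ hdeg]
    refine Finset.sum_congr rfl fun i _ => ?_
    rw [ev_poly hE, mp_eval₂, HahnSeries.single_pow, nsmul_eq_mul]
  rw [hE'.cont f γ M e1, e2, HahnSeries.coeff_sum]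
  have e3 : ∀ i ∈ Finset.range M, (mp (RatFunc.C : k →+* RatFunc k)
      (E (Polynomial.hasseDeriv i p : Polynomial (PowerSeries k))) *
        HahnSeries.single (i * q) (RatFunc.X ^ i)).coeff γ =
      RatFunc.C ((E (Polynomial.hasseDeriv i p : Polynomial (PowerSeries k))).coeff (γ - i * q)) *
        RatFunc.X ^ i := by
    intro i _
    have h1 : γ = (γ - i * q) + i * q := by ring
    conv_lhs => rw [h1]
    rw [HahnSeries.coeff_mul_single_add, mp_coeff]
  rw [Finset.sum_congr rfl e3]
  rw [← Finset.sum_subset (Finset.range_mono hMN)]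
  · refine Finset.sum_congr rfl fun i hi => ?_
    rw [Finset.mem_range] at hi
    congr 2
    rw [hE.cont (hs i f) (γ - i * q) (M - i) ?_, trunc_hs f i M (by omega)]
    have h1 : (M1 : ℚ) ≤ ((M - i : ℕ) : ℚ) := by
      exact_mod_cast (show M1 ≤ M - i by omega)
    have h2 : 0 ≤ (i : ℚ) * q := by positivity
    have h3 := mul_le_mul_of_nonneg_right h1 hβo.le
    linarith
  · intro i _ hi
    rw [Finset.mem_range, not_lt] at hi
    have h1 : γ - i * q < 0 := by
      have h2 : (N : ℚ) ≤ i := by exact_mod_cast hi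
      have h3 := mul_le_mul_of_nonneg_right h2 hq.le
      linarith
    rw [neg_coeff hE _ h1, map_zero, zero_mul]

end Pool.Agent.TH152.BB
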