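import Pool.Agent.TH902.BB.EV
import Pool.Agent.TH152.BB.Tay
import Pool.Agent.TH570.BBLead
import Pool.Agent.TH152.BB.Asc
import Pool.Agent.TH152.BB.Desc
import Pool.Agent.TH241.BB.Clm
import Pool.Agent.TH889.J4278
import Pool.Agent.TH267.BB.Two
import Pool.Agent.TH443.J4280
import Pool.Agent.TH443.J4281
import Pool.Agent.TH503.BB.Bdd
import Pool.Agent.TH541.BB.One
import Pool.Agent.TH152.BB.App

/-!
Bend and break: assembly of the parts.
-/

set_option autoImplicit false

namespace Pool.Agent.TH152.BB

/-- **Bend and break.** -/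
theorem bb_all : S_BB :=
  bb (one_all Pool.Agent.TH443.J4280.comp_all Pool.Agent.TH443.J4281.spec_all bdd_all)
    (two_all ev_all tay_all lead_all asc_all desc_all clm_all rel_all)

end Pool.Agent.TH152.BB
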