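import Pool.Agent.TH152.CV.Sub

/-!
Pointed maps from curves to abelian covers of projective space: definitions.
-/

set_option autoImplicit false

namespace Pool.Agent.TH152.BB

open FF Pool.Agent.W602.Cov Pool.Agent.W602.Cov.Cover Pool.Agent.TH152.CV

variable {n q r : ℕ} {L : Type} [Field L] [Algebra ℂ L]

/-- The rational function `f` on the curve with function field `L` is regular at the point `c` and
has the value `a` there. -/
def HasVal (c : Place ℂ L) (f : L) (a : ℂ) : Prop :=
  f = algebraMap ℂ L a ∨ 0 < c.ord (f - algebraMap ℂ L a)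

/-- The weighted homogeneous coordinates `p` and `p'` in the field `L` describe the same point. -/
def SameK (X : Cover n q r) (p p' : (Fin (n + 1) → L) × (Fin r → L)) : Prop :=
  ∃ t : L, t ≠ 0 ∧ (∀ j, p'.1 j = t ^ X.d * p.1 j) ∧ ∀ k, p'.2 k = t ^ X.w k * p.2 k

/-- The morphism with the weighted homogeneous coordinates `x`, `y` from the smooth projective curve
with function field `L` to `X` maps the point `c` to the point `v`. -/
def ValAt (X : Cover n q r) (c : Place ℂ L) (p : (Fin (n + 1) → L) × (Fin r → L))
    (v : (Fin (n + 1) → ℂ) × (Fin r → ℂ)) : Prop :=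
  ∃ t : L, t ≠ 0 ∧ (∀ j, HasVal c (t ^ X.d * p.1 j) (v.1 j)) ∧
    ∀ k, HasVal c (t ^ X.w k * p.2 k) (v.2 k)

/-- There are only finitely many morphisms from the smooth projective curve with function field `L`
to `X` which map the point `c` to the point `v`. -/
def FinPointed (X : Cover n q r) (c : Place ℂ L) (v : (Fin (n + 1) → ℂ) × (Fin r → ℂ)) : Prop :=
  ∃ T : Finset ((Fin (n + 1) → L) × (Fin r → L)), ∀ p : (Fin (n + 1) → L) × (Fin r → L),
    PtK X p.1 p.2 → ValAt X c p v → ∃ p' ∈ T, SameK X p' p

end Pool.Agent.TH152.BB
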