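import Pool.Agent.TH152.BB.Mult

/-!
Pointed maps from curves to abelian covers of projective space: bounded degrees imply finiteness.
-/

set_option autoImplicit false

namespace Pool.Agent.TH152.BB

open FF Pool.Agent.W603.LV Pool.Agent.W603.PV Pool.Agent.W602.Cov Pool.Agent.W602.Cov.Cover
open Pool.Agent.TH152.CV Pool.Agent.TH152.HY Pool.Agent.W602.Cov.G

variable {n q r : ℕ} {X : Cover n q r}

/-- the equation of the normalized coordinates -/
noncomputable def mpoly {n r : ℕ} (j0 : Fin (n + 1)) (a : ℤ) (b : Fin r → ℤ) : Poly n r :=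
  MvPolynomial.X (Sum.inl j0) ^ (-a).toNat * ∏ k, MvPolynomial.X (Sum.inr k) ^ (-b k).toNat -
    MvPolynomial.X (Sum.inl j0) ^ a.toNat * ∏ k, MvPolynomial.X (Sum.inr k) ^ (b k).toNat

theorem mono_iff {j0 : Fin (n + 1)} {a : ℤ} {b : Fin r → ℤ} {K : Type} [Field K] [Algebra ℂ K]
    {p : (Fin (n + 1) → K) × (Fin r → K)} (hj : p.1 j0 ≠ 0) (hb : ∀ k, p.2 k = 0 → b k = 0) :
    mono j0 a b p = 1 ↔ evK p.1 p.2 (mpoly j0 a b) = 0 := by
  have h3 : ∀ (f : K) (N : ℤ), (f = 0 → N = 0) → f ^ N * f ^ (-N).toNat = f ^ N.toNat := by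
    intro f N hf
    by_cases hf0 : f = 0
    · rw [hf hf0]
      simp
    · rw [← zpow_natCast, ← zpow_natCast, ← zpow_add₀ hf0]
      congr 1
      omega
  have hsplit : mono j0 a b p * (p.1 j0 ^ (-a).toNat * ∏ k, p.2 k ^ (-b k).toNat) =
      p.1 j0 ^ a.toNat * ∏ k, p.2 k ^ (b k).toNat := by
    unfold mono
    rw [mul_mul_mul_comm, h3 _ _ (fun h => absurd h hj), ← Finset.prod_mul_distrib]
    congr 1
    exact Finset.prod_congr rfl fun k _ => h3 _ _ (hb k)
  have hev : evK p.1 p.2 (mpoly j0 a b) = p.1 j0 ^ (-a).toNat * ∏ k, p.2 k ^ (-b k).toNat -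
      p.1 j0 ^ a.toNat * ∏ k, p.2 k ^ (b k).toNat := by
    unfold evK mpoly
    simp only [map_sub, map_mul, map_pow, map_prod, MvPolynomial.aeval_X, Sum.elim_inl,
      Sum.elim_inr]
  have hne : p.1 j0 ^ (-a).toNat * ∏ k, p.2 k ^ (-b k).toNat ≠ 0 := by
    refine mul_ne_zero (pow_ne_zero _ hj) (Finset.prod_ne_zero_iff.2 fun k _ => ?_)
    by_cases hk : p.2 k = 0
    · rw [hb k hk]
      simp
    · exact pow_ne_zero _ hk
  rw [hev, sub_eq_zero]
  constructor
  · intro h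
    rw [← hsplit, h, one_mul]
  · intro h
    rw [h] at hsplit
    rw [h] at hne
    exact mul_right_cancel₀ hne (by rw [hsplit, one_mul])

/-- **The main step**: there is no infinite sequence of normalized pointed maps. -/
theorem no_seq {R : ℕ} {Δ : Set ((Fin (n + 1) → ℂ) × (Fin r → ℂ))} (hL : LinMod X R Δ)
    {j0 : Fin (n + 1)} {a : ℤ} {b : Fin r → ℤ} (hab : a * X.d + ∑ k, b k * X.w k = 1)
    {v : (Fin (n + 1) → ℂ) × (Fin r → ℂ)}
    (hvΔ : ∃ G, X.Hom G ∧ (∀ u ∈ Δ, ev u G = 0) ∧ ev v G ≠ 0)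
    (hvj : v.1 j0 ≠ 0) (hvb : ∀ k, v.2 k = 0 → b k = 0) {L : Type} [Field L] [Algebra ℂ L]
    [IsFF ℂ L] (c : Place ℂ L) (p : ℕ → (Fin (n + 1) → L) × (Fin r → L))
    (hinj : Function.Injective p) (hpt : ∀ m, PtK X (p m).1 (p m).2)
    (hmn : ∀ m, mono j0 a b (p m) = 1) (hval : ∀ m, HasVals c (p m) v) : False := by
  classical
  have hj : ∀ m, (p m).1 j0 ≠ 0 := fun m => ((hval m).1 j0).ne hvj
  have hzv : ∀ m i, HasVal c ((Sum.elim (p m).1 (p m).2 : Fin (n + 1) ⊕ Fin r → L) i)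
      ((Sum.elim v.1 v.2 : Fin (n + 1) ⊕ Fin r → ℂ) i) := by
    intro m i
    rcases i with j | k
    · exact (hval m).1 j
    · exact (hval m).2 k
  -- not contained in the exceptional set
  have hns : ∀ {K : Type} [Field K] [Algebra ℂ K] {x : Fin (n + 1) → K} {y : Fin r → K},
      (∀ G : Poly n r, evK x y G = 0 → ev v G = 0) → ¬ MapsIn X Δ x y := by
    intro K _ _ x y h2 h3
    obtain ⟨G, h4, h5, h6⟩ := hvΔ
    exact h6 (h2 G (h3 G h4 h5))
  obtain ⟨M, hM0, hM⟩ := hgt_coord X j0 hab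
  obtain ⟨B, hBd⟩ : ∃ B : ℤ, B = M * (R * max (canDeg ℂ L) 0) := ⟨_, rfl⟩
  have hht : ∀ m, pht ℂ (p m).1 ≤ R * max (canDeg ℂ L) 0 := by
    intro m
    refine hL L _ _ (hpt m) (hns fun G hG => ?_)
    have h2 := HasVal.aeval (hzv m) G
    have h3 : MvPolynomial.aeval (Sum.elim (p m).1 (p m).2) G = 0 := hG
    rw [h3] at h2
    exact h2.zero_of
  obtain ⟨G, hG1, hG2, hG3⟩ := bb_val bb_all c
    (fun m => (Sum.elim (p m).1 (p m).2 : Fin (n + 1) ⊕ Fin r → L)) (Sum.elim v.1 v.2) B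
    (by
      intro m m' hmm
      apply hinj
      refine Prod.ext ?_ ?_
      · funext j
        exact congrFun hmm (Sum.inl j)
      · funext k
        exact congrFun hmm (Sum.inr k))
    hzv (by
      intro m i
      rw [hBd]
      have h1 := hM (hpt m) (hj m) (hmn m)
      have h2 := mul_le_mul_of_nonneg_left (hht m) hM0
      rcases i with j | k
      · exact (h1.1 j).trans h2
      · exact (h1.2 k).trans h2)
  obtain ⟨g, hg⟩ : ∃ g : (Fin (n + 1) → RatFunc ℂ) × (Fin r → RatFunc ℂ),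
      g = (fun j => G (Sum.inl j), fun k => G (Sum.inr k)) := ⟨_, rfl⟩
  have hgG : (Sum.elim g.1 g.2 : Fin (n + 1) ⊕ Fin r → RatFunc ℂ) = G := by
    rw [hg]
    funext i
    rcases i with j | k <;> rfl
  have hg1 : ∀ j, g.1 j = G (Sum.inl j) := fun j => by rw [hg]
  have hg2 : ∀ k, g.2 k = G (Sum.inr k) := fun k => by rw [hg]
  have hev : ∀ F : Poly n r, evK g.1 g.2 F = MvPolynomial.aeval G F := fun F => by
    unfold evK
    rw [hgG]
  have hgv : ∀ F : Poly n r, evK g.1 g.2 F = 0 → ev v F = 0 := fun F hF => by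
    rw [hev] at hF
    exact hG3 F hF
  have hgj : g.1 j0 ≠ 0 := by
    intro h0
    have h1 := hgv (MvPolynomial.X (Sum.inl j0)) (by
      unfold evK
      rw [MvPolynomial.aeval_X]
      exact h0)
    unfold ev at h1
    rw [MvPolynomial.eval_X] at h1
    exact hvj h1
  have hgk : ∀ k, g.2 k = 0 → b k = 0 := by
    intro k h0
    have h1 := hgv (MvPolynomial.X (Sum.inr k)) (by
      unfold evK
      rw [MvPolynomial.aeval_X]
      exact h0)
    unfold ev at h1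
    rw [MvPolynomial.eval_X] at h1
    exact hvb k h1
  have hgP : PtK X g.1 g.2 := by
    refine ⟨fun h0 => hgj (by rw [h0]; rfl), fun k => ?_⟩
    have h1 := hG2 (epoly X k) (fun m => by
      have h2 := evK_epoly (X := X) k (p m).1 (p m).2
      rw [(hpt m).mem k, sub_self] at h2
      exact h2)
    rw [← hev, evK_epoly] at h1
    exact sub_eq_zero.1 h1
  have hgm : mono j0 a b g = 1 := by
    rw [mono_iff hgj hgk, hev]
    refine hG2 _ fun m => ?_
    exact (mono_iff (hj m) fun k hk => hvb k (by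
      have h3 := (hval m).2 k
      rw [hk] at h3
      exact h3.zero_of)).1 (hmn m)
  have hg0 : pht ℂ g.1 ≤ 0 := by
    have h1 := hL (RatFunc ℂ) g.1 g.2 hgP (hns hgv)
    have h2 := canDeg_ratFunc
    rw [max_eq_right h2, mul_zero] at h1
    exact h1
  have h1 := hM hgP hgj hgm
  have h2 : M * pht ℂ g.1 ≤ 0 := mul_nonpos_of_nonneg_of_nonpos hM0 hg0
  obtain ⟨i, hi⟩ := hG1
  apply hi
  have h3 : hgt ℂ (G i) ≤ 0 := by
    rcases i with j | k
    · rw [← hg1]
      exact (h1.1 j).trans h2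
    · rw [← hg2]
      exact (h1.2 k).trans h2
  obtain ⟨e, he⟩ := const_of_hgt (k := ℂ) h3
  exact ⟨e, he.symm⟩

/-- a polynomial which separates a point from a closed set -/
theorem ClosedIn.sep {Δ : Set ((Fin (n + 1) → ℂ) × (Fin r → ℂ))} (hΔ : ClosedIn X Δ)
    {v : (Fin (n + 1) → ℂ) × (Fin r → ℂ)} (hv : v ∈ X.Pts) (hvΔ : v ∉ Δ) {s : ℂ} (hs : s ≠ 0) :
    ∃ G, X.Hom G ∧ (∀ u ∈ Δ, ev u G = 0) ∧ ev (scl X s v) G ≠ 0 := by
  by_contra hcon
  push Not at hcon
  apply hvΔ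
  refine hΔ.sub hv fun G hG hE => ?_
  have h1 := hcon G hG hE
  obtain ⟨D, hD⟩ := hG
  rw [ev_scl hD] at h1
  exact (mul_eq_zero.1 h1).resolve_left (pow_ne_zero _ hs)

/-- **Bounded degrees imply finiteness of pointed maps**, for all covers. -/
theorem pointed_of_lin (hF : X.Free) {R : ℕ} {Δ : Set ((Fin (n + 1) → ℂ) × (Fin r → ℂ))}
    (hΔ : ClosedIn X Δ) (hL : LinMod X R Δ) : PointedMod X Δ := by
  classical
  intro L _ _ _ c v hv hvΔ
  by_contra hcon
  unfold FinPointed at hcon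
  push Not at hcon
  obtain ⟨p, hp, hinj⟩ := exists_seq_of_forall_finset_exists
    (fun p : (Fin (n + 1) → L) × (Fin r → L) => PtK X p.1 p.2 ∧ ValAt X c p v)
    (fun p' p => ¬ SameK X p' p) (fun T _ => by
      obtain ⟨p, h1, h2, h3⟩ := hcon T
      exact ⟨p, ⟨h1, h2⟩, h3⟩)
  obtain ⟨a, b, hb, hab⟩ := exists_bezout hF hv
  obtain ⟨j0, hj0⟩ := Function.ne_iff.1 hv.1
  change v.1 j0 ≠ 0 at hj0
  have hμ : mono j0 a b v ≠ 0 := mono_ne hj0 hb
  have hmono : ∀ m, mono j0 a b (p m) ≠ 0 ∧ HasVals c (nz X j0 a b (p m)) (nz X j0 a b v) := by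
    intro m
    obtain ⟨-, t, ht, h1, h2⟩ := hp m
    have h3 : HasVals c (scl X t (p m)) v := ⟨h1, h2⟩
    have h4 := (h3.mono (a := a) hj0 hb).ne hμ
    rw [mono_scl hab ht] at h4
    refine ⟨right_ne_zero_of_mul h4, ?_⟩
    have h5 := h3.nz (X := X) (a := a) hj0 hb
    rw [nz_scl hab ht] at h5
    exact h5
  refine no_seq hL hab (v := nz X j0 a b v) (hΔ.sep hv hvΔ (inv_ne_zero hμ))
    (mul_ne_zero (pow_ne_zero _ (inv_ne_zero hμ)) hj0)
    (fun k hk => hb k ((mul_eq_zero.1 hk).resolve_left (pow_ne_zero _ (inv_ne_zero hμ)))) c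
    (fun m => nz X j0 a b (p m)) ?_ (fun m => ptK_scl (inv_ne_zero (hmono m).1) (hp m).1)
    (fun m => mono_nz hab (hmono m).1) (fun m => (hmono m).2)
  intro m m' h1
  by_contra hne
  rcases lt_or_gt_of_ne hne with h | h
  · exact hinj m m' h (sameK_of_nz (hmono m).1 (hmono m').1 h1)
  · exact hinj m' m h (sameK_of_nz (hmono m').1 (hmono m).1 h1.symm)

end Pool.Agent.TH152.BB
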