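import Pool.Agent.TH152.BB.Val

/-!
Curves through a point of a variety: statements of the parts.
-/

set_option autoImplicit false

open FF

namespace Pool.Agent.TH152.BB

/-- AVO: a point at which countably many nonzero polynomials do not vanish. -/
def S_AVO : Prop := ∀ (s : ℕ) (b : ℕ → MvPolynomial (Fin s) ℂ), (∀ i, b i ≠ 0) →
  ∃ ν : Fin s → ℂ, ∀ i, MvPolynomial.eval ν (b i) ≠ 0

/-- PLC: a place over a point of a curve. -/
def S_PLC : Prop := ∀ (L : Type) [Field L] [Algebra ℂ L] [IsFF ℂ L] (A : Subalgebra ℂ L) (t : L),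
  t ∈ A → Transcendental ℂ t → (∀ x ∈ A, IsIntegral (Algebra.adjoin ℂ {t}) x) →
  ∀ η : A →ₐ[ℂ] ℂ, ∃ c : Place ℂ L, ∀ x : A, HasVal c (x : L) (η x)

/-- CUT: a curve through a point of an affine variety, which is not contained in any of countably
many hypersurfaces. -/
def S_CUT : Prop := ∀ (A : Type) [CommRing A] [IsDomain A] [Algebra ℂ A] [Algebra.FiniteType ℂ A]
  (η : A →ₐ[ℂ] ℂ) (a : ℕ → A), (∀ i, a i ≠ 0) → (∃ x : A, ∀ z : ℂ, x ≠ algebraMap ℂ A z) →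
  ∃ (L : Type) (_ : Field L) (_ : Algebra ℂ L) (_ : IsFF ℂ L) (ρ : A →ₐ[ℂ] L) (t : A),
    Transcendental ℂ (ρ t) ∧ (∀ x, IsIntegral (Algebra.adjoin ℂ {ρ t}) (ρ x)) ∧
    (∀ i, ρ (a i) ≠ 0) ∧ ∀ x, ρ x = 0 → η x = 0

/-- CUR: a curve through a point of an affine variety, with a place over the point. -/
def S_CUR : Prop := ∀ (A : Type) [CommRing A] [IsDomain A] [Algebra ℂ A] [Algebra.FiniteType ℂ A]
  (η : A →ₐ[ℂ] ℂ) (a : ℕ → A), (∀ i, a i ≠ 0) → (∃ x : A, ∀ z : ℂ, x ≠ algebraMap ℂ A z) →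
  ∃ (L : Type) (_ : Field L) (_ : Algebra ℂ L) (_ : IsFF ℂ L) (c : Place ℂ L) (ρ : A →ₐ[ℂ] L),
    (∀ i, ρ (a i) ≠ 0) ∧ ∀ x, HasVal c (ρ x) (η x)

theorem cur (h1 : S_PLC) (h2 : S_CUT) : S_CUR := by
  intro A _ _ _ _ η a ha hx
  obtain ⟨L, _, _, _, ρ, t, h3, h4, h5, h6⟩ := h2 A η a ha hx
  have hker : ∀ x y : A, ρ x = ρ y → η x = η y := by
    intro x y hxy
    have h7 := h6 (x - y) (by rw [map_sub, hxy, sub_self])
    rwa [map_sub, sub_eq_zero] at h7
  choose g hg using fun z : ρ.range => AlgHom.mem_range ρ |>.1 z.2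
  let η' : ρ.range →ₐ[ℂ] ℂ :=
    { toFun := fun z => η (g z)
      map_one' := by
        rw [← map_one η]
        exact hker _ _ (by rw [hg, map_one]; rfl)
      map_mul' := fun z z' => by
        rw [← map_mul]
        exact hker _ _ (by rw [hg, map_mul, hg, hg]; rfl)
      map_zero' := by
        rw [← map_zero η]
        exact hker _ _ (by rw [hg, map_zero]; rfl)
      map_add' := fun z z' => by
        rw [← map_add]
        exact hker _ _ (by rw [hg, map_add, hg, hg]; rfl)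
      commutes' := fun z => by
        have h7 : η (g (algebraMap ℂ ρ.range z)) = η (algebraMap ℂ A z) :=
          hker _ _ (by rw [hg, AlgHom.commutes]; rfl)
        rw [h7, AlgHom.commutes] }
  obtain ⟨c, hc⟩ := h1 L ρ.range (ρ t) ⟨t, rfl⟩ h3 (by
    rintro _ ⟨x, rfl⟩
    exact h4 x) η'
  refine ⟨L, _, _, inferInstance, c, ρ, h5, fun x => ?_⟩
  have h7 := hc ⟨ρ x, ⟨x, rfl⟩⟩
  have h8 : η' ⟨ρ x, ⟨x, rfl⟩⟩ = η x := hker _ _ (hg _)
  rw [h8] at h7
  exact h7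

end Pool.Agent.TH152.BB
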