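import Pool.Agent.TH152.BB.Ht
import Pool.Agent.TH152.BB.All
import Pool.Agent.TH152.CV.Special

/-!
Pointed maps from curves to abelian covers of projective space: finiteness.
-/

set_option autoImplicit false

namespace Pool.Agent.TH152.BB

open FF Pool.Agent.W603.LV Pool.Agent.W603.PV Pool.Agent.W602.Cov Pool.Agent.W602.Cov.Cover
open Pool.Agent.TH152.CV Pool.Agent.TH152.HY Pool.Agent.W602.Cov.G

variable {n q r : ℕ} {X : Cover n q r} {j0 : Fin (n + 1)} {a : ℤ} {b : Fin r → ℤ}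

section val

variable {L : Type} [Field L] [Algebra ℂ L] {c : Place ℂ L}

/-- the coordinates of `q` are regular at `c`, with the values `v` -/
def HasVals (c : Place ℂ L) (q : (Fin (n + 1) → L) × (Fin r → L))
    (v : (Fin (n + 1) → ℂ) × (Fin r → ℂ)) : Prop :=
  (∀ j, HasVal c (q.1 j) (v.1 j)) ∧ ∀ k, HasVal c (q.2 k) (v.2 k)

theorem HasVals.mono {p : (Fin (n + 1) → L) × (Fin r → L)}
    {v : (Fin (n + 1) → ℂ) × (Fin r → ℂ)} (h : HasVals c p v) (hj : v.1 j0 ≠ 0)
    (hb : ∀ k, v.2 k = 0 → b k = 0) : HasVal c (BB.mono j0 a b p) (BB.mono j0 a b v) := by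
  refine ((h.1 j0).zpow hj a).mul (HasVal.prod _ fun k _ => ?_)
  by_cases hk : v.2 k = 0
  · rw [hb k hk, zpow_zero, zpow_zero]
    exact HasVal.one
  · exact (h.2 k).zpow hk (b k)

theorem mono_ne {v : (Fin (n + 1) → ℂ) × (Fin r → ℂ)} (hj : v.1 j0 ≠ 0)
    (hb : ∀ k, v.2 k = 0 → b k = 0) : BB.mono j0 a b v ≠ 0 := by
  refine mul_ne_zero (zpow_ne_zero _ hj) (Finset.prod_ne_zero_iff.2 fun k _ => ?_)
  by_cases hk : v.2 k = 0
  · rw [hb k hk, zpow_zero]
    exact one_ne_zero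
  · exact zpow_ne_zero _ hk

theorem HasVals.scl {p : (Fin (n + 1) → L) × (Fin r → L)}
    {v : (Fin (n + 1) → ℂ) × (Fin r → ℂ)} (h : HasVals c p v) {t : L} {s : ℂ}
    (ht : HasVal c t s) : HasVals c (BB.scl X t p) (BB.scl X s v) :=
  ⟨fun j => (ht.pow _).mul (h.1 j), fun k => (ht.pow _).mul (h.2 k)⟩

theorem HasVals.nz {p : (Fin (n + 1) → L) × (Fin r → L)}
    {v : (Fin (n + 1) → ℂ) × (Fin r → ℂ)} (h : HasVals c p v) (hj : v.1 j0 ≠ 0)
    (hb : ∀ k, v.2 k = 0 → b k = 0) :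
    HasVals c (BB.nz X j0 a b p) (BB.nz X j0 a b v) :=
  h.scl ((h.mono hj hb).inv (mono_ne hj hb))

end val

theorem ev_scl {s : ℂ} {D : ℕ} {G : Poly n r}
    (hG : MvPolynomial.IsWeightedHomogeneous (Sum.elim (fun _ => X.d) X.w) G D)
    (v : (Fin (n + 1) → ℂ) × (Fin r → ℂ)) : ev (scl X s v) G = s ^ D * ev v G := by
  have h1 := aeval_weight hG s (Sum.elim v.1 v.2)
  rw [MvPolynomial.aeval_eq_eval, MvPolynomial.aeval_eq_eval] at h1
  have h2 : (fun i => s ^ (Sum.elim (fun _ => X.d) X.w : Fin (n + 1) ⊕ Fin r → ℕ) i *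
      Sum.elim v.1 v.2 i) = Sum.elim (scl X s v).1 (scl X s v).2 := by
    funext i
    rcases i with j | k <;> rfl
  rw [h2] at h1
  exact h1

theorem pts_scl {s : ℂ} (hs : s ≠ 0) {v : (Fin (n + 1) → ℂ) × (Fin r → ℂ)} (hv : v ∈ X.Pts) :
    scl X s v ∈ X.Pts := by
  refine ⟨fun h0 => hv.1 ?_, fun k => ?_⟩
  · funext j
    exact (mul_eq_zero.1 (congrFun h0 j)).resolve_left (pow_ne_zero _ hs)
  · have h1 : (scl X s v).1 = s ^ X.d • v.1 := rfl
    change (s ^ X.w k * v.2 k) ^ X.m k = _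
    rw [h1]
    simp only [map_smul, smul_eq_mul, mul_pow]
    rw [Finset.prod_mul_distrib, hv.2 k, Finset.prod_pow_eq_pow_sum, ← pow_mul, ← pow_mul,
      mul_comm (X.w k), X.hom k]

theorem scl_inv {s : ℂ} (hs : s ≠ 0) (v : (Fin (n + 1) → ℂ) × (Fin r → ℂ)) :
    scl X s⁻¹ (scl X s v) = v := by
  rw [scl_scl, inv_mul_cancel₀ hs]
  unfold scl
  simp

theorem spSplit_of_scl {s : ℂ} (hs : s ≠ 0) {v : (Fin (n + 1) → ℂ) × (Fin r → ℂ)}
    (hv : scl X s v ∈ X.SpSplit) : v ∈ X.SpSplit := by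
  obtain ⟨h1, h2⟩ := hv
  refine ⟨?_, fun G hG hE => ?_⟩
  · have := pts_scl (X := X) (inv_ne_zero hs) h1
    rwa [scl_inv hs] at this
  · obtain ⟨D, hD⟩ := hG
    have h3 := h2 G ⟨D, hD⟩ hE
    rw [ev_scl hD] at h3
    exact (mul_eq_zero.1 h3).resolve_left (pow_ne_zero _ hs)

/-- **Finiteness of pointed maps.** -/
theorem fin_pointed (hB : Big X) (hF : X.Free) {v : (Fin (n + 1) → ℂ) × (Fin r → ℂ)}
    (hv : v ∈ X.Pts) (hvS : v ∉ X.SpSplit) {L : Type} [Field L] [Algebra ℂ L] [IsFF ℂ L]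
    (c : Place ℂ L) : FinPointed X c v := by
  classical
  by_contra hcon
  unfold FinPointed at hcon
  push Not at hcon
  obtain ⟨p, hp, hinj⟩ := exists_seq_of_forall_finset_exists
    (fun p : (Fin (n + 1) → L) × (Fin r → L) => PtK X p.1 p.2 ∧ ValAt X c p v)
    (fun p' p => ¬ SameK X p' p) (fun T _ => by
      obtain ⟨p, h1, h2, h3⟩ := hcon T
      exact ⟨p, ⟨h1, h2⟩, h3⟩)
  obtain ⟨a, b, hb, hab⟩ := exists_bezout hF hv
  obtain ⟨j0, hj0⟩ := Function.ne_iff.1 hv.1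
  change v.1 j0 ≠ 0 at hj0
  -- the normalized points
  obtain ⟨p', hp'd⟩ : ∃ p' : ℕ → (Fin (n + 1) → L) × (Fin r → L),
      p' = fun m => nz X j0 a b (p m) := ⟨_, rfl⟩
  obtain ⟨v', hv'd⟩ : ∃ v' : (Fin (n + 1) → ℂ) × (Fin r → ℂ), v' = nz X j0 a b v := ⟨_, rfl⟩
  have hμ : mono j0 a b v ≠ 0 := mono_ne hj0 hb
  have hv'P : v' ∈ X.Pts := by
    rw [hv'd]
    exact pts_scl (inv_ne_zero hμ) hv
  have hv'S : v' ∉ X.SpSplit := by
    intro h
    rw [hv'd] at h
    exact hvS (spSplit_of_scl (inv_ne_zero hμ) h)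
  have hv'j : v'.1 j0 ≠ 0 := by
    rw [hv'd]
    exact mul_ne_zero (pow_ne_zero _ (inv_ne_zero hμ)) hj0
  have hv'b : ∀ k, v'.2 k = 0 → b k = 0 := by
    intro k hk
    apply hb
    rw [hv'd] at hk
    exact (mul_eq_zero.1 hk).resolve_left (pow_ne_zero _ (inv_ne_zero hμ))
  have hmono : ∀ m, mono j0 a b (p m) ≠ 0 ∧ HasVals c (p' m) v' := by
    intro m
    obtain ⟨-, t, ht, h1, h2⟩ := hp m
    have h3 : HasVals c (scl X t (p m)) v := ⟨h1, h2⟩
    have h4 := (h3.mono (a := a) hj0 hb).ne hμ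
    rw [mono_scl hab ht] at h4
    refine ⟨right_ne_zero_of_mul h4, ?_⟩
    have h5 := h3.nz (X := X) (a := a) hj0 hb
    rw [nz_scl hab ht] at h5
    rw [hp'd, hv'd]
    exact h5
  have hpt : ∀ m, PtK X (p' m).1 (p' m).2 := fun m => by
    rw [hp'd]
    exact ptK_scl (inv_ne_zero (hmono m).1) (hp m).1
  have hmn : ∀ m, mono j0 a b (p' m) = 1 := fun m => by
    rw [hp'd]
    exact mono_nz hab (hmono m).1
  have hj : ∀ m, (p' m).1 j0 ≠ 0 := fun m => ((hmono m).2.1 j0).ne hv'j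
  have hzv : ∀ m i, HasVal c ((Sum.elim (p' m).1 (p' m).2 : Fin (n + 1) ⊕ Fin r → L) i)
      ((Sum.elim v'.1 v'.2 : Fin (n + 1) ⊕ Fin r → ℂ) i) := by
    intro m i
    rcases i with j | k
    · exact (hmono m).2.1 j
    · exact (hmono m).2.2 k
  -- not split
  have hns : ∀ {K : Type} [Field K] [Algebra ℂ K] {x : Fin (n + 1) → K} {y : Fin r → K},
      PtK X x y → (∀ G : Poly n r, evK x y G = 0 → ev v' G = 0) → ¬ SplitK X x := by
    intro K _ _ x y h1 h2 h3
    exact hv'S ⟨hv'P, fun G _ hE => h2 G (spec_split h1 h3 hE)⟩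
  obtain ⟨R, -, hR⟩ := deg_split n q
  obtain ⟨M, hM0, hM⟩ := hgt_coord X j0 hab
  obtain ⟨B, hBd⟩ : ∃ B : ℤ, B = M * max 0 (R * canDeg ℂ L) := ⟨_, rfl⟩
  have hht : ∀ m, pht ℂ (p' m).1 ≤ max 0 (R * canDeg ℂ L) := by
    intro m
    rcases hR hB hF (hpt m) with h1 | h1 | h1
    · exact h1.trans (le_max_left _ _)
    · exfalso
      refine hns (hpt m) (fun G hG => ?_) h1
      have h2 := HasVal.aeval (hzv m) G
      have h3 : MvPolynomial.aeval (Sum.elim (p' m).1 (p' m).2) G = 0 := hG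
      rw [h3] at h2
      exact h2.zero_of
    · exact h1.trans (le_max_right _ _)
  obtain ⟨G, hG1, hG2, hG3⟩ := bb_val bb_all c
    (fun m => (Sum.elim (p' m).1 (p' m).2 : Fin (n + 1) ⊕ Fin r → L)) (Sum.elim v'.1 v'.2) B
    (by
      intro m m' hmm
      by_contra hne
      have h1 : p' m = p' m' := by
        refine Prod.ext ?_ ?_
        · funext j
          exact congrFun hmm (Sum.inl j)
        · funext k
          exact congrFun hmm (Sum.inr k)
      rw [hp'd] at h1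
      rcases lt_or_gt_of_ne hne with h | h
      · exact hinj m m' h (sameK_of_nz (hmono m).1 (hmono m').1 h1)
      · exact hinj m' m h (sameK_of_nz (hmono m').1 (hmono m).1 h1.symm))
    hzv (by
      intro m i
      rw [hBd]
      have h1 := hM (hpt m) (hj m) (hmn m)
      have h2 := mul_le_mul_of_nonneg_left (hht m) hM0
      rcases i with j | k
      · exact (h1.1 j).trans h2
      · exact (h1.2 k).trans h2)
  obtain ⟨g, hg⟩ : ∃ g : (Fin (n + 1) → RatFunc ℂ) × (Fin r → RatFunc ℂ),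
      g = (fun j => G (Sum.inl j), fun k => G (Sum.inr k)) := ⟨_, rfl⟩
  have hgG : (Sum.elim g.1 g.2 : Fin (n + 1) ⊕ Fin r → RatFunc ℂ) = G := by
    rw [hg]
    funext i
    rcases i with j | k <;> rfl
  have hg1 : ∀ j, g.1 j = G (Sum.inl j) := fun j => by rw [hg]
  have hg2 : ∀ k, g.2 k = G (Sum.inr k) := fun k => by rw [hg]
  have hev : ∀ F : Poly n r, evK g.1 g.2 F = MvPolynomial.aeval G F := fun F => by
    unfold evK
    rw [hgG]
  have hgv : ∀ F : Poly n r, evK g.1 g.2 F = 0 → ev v' F = 0 := fun F hF => by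
    rw [hev] at hF
    exact hG3 F hF
  have hgj : g.1 j0 ≠ 0 := by
    intro h0
    have h1 := hgv (MvPolynomial.X (Sum.inl j0)) (by
      unfold evK
      rw [MvPolynomial.aeval_X]
      exact h0)
    unfold ev at h1
    rw [MvPolynomial.eval_X] at h1
    exact hv'j h1
  have hgk : ∀ k, g.2 k = 0 → b k = 0 := by
    intro k h0
    have h1 := hgv (MvPolynomial.X (Sum.inr k)) (by
      unfold evK
      rw [MvPolynomial.aeval_X]
      exact h0)
    unfold ev at h1
    rw [MvPolynomial.eval_X] at h1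
    exact hv'b k h1
  have hgP : PtK X g.1 g.2 := by
    refine ⟨fun h0 => hgj (by rw [h0]; rfl), fun k => ?_⟩
    have h1 := hG2 (epoly X k) (fun m => by
      have h2 := evK_epoly (X := X) k (p' m).1 (p' m).2
      rw [(hpt m).mem k, sub_self] at h2
      exact h2)
    rw [← hev, evK_epoly] at h1
    exact sub_eq_zero.1 h1
  have hgm : mono j0 a b g = 1 := by
    -- the monomials with the positive and the negative exponents
    have hsplit : ∀ {K : Type} [Field K] (p : (Fin (n + 1) → K) × (Fin r → K)), p.1 j0 ≠ 0 →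
        (∀ k, p.2 k = 0 → b k = 0) →
        mono j0 a b p * (p.1 j0 ^ (-a).toNat * ∏ k, p.2 k ^ (-b k).toNat) =
          p.1 j0 ^ a.toNat * ∏ k, p.2 k ^ (b k).toNat := by
      intro K _ p h1 h2
      have h3 : ∀ (f : K) (N : ℤ), (f = 0 → N = 0) → f ^ N * f ^ (-N).toNat = f ^ N.toNat := by
        intro f N hf
        by_cases hf0 : f = 0
        · rw [hf hf0]
          simp
        · rw [← zpow_natCast, ← zpow_natCast, ← zpow_add₀ hf0]
          congr 1
          omega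
      unfold mono
      rw [mul_mul_mul_comm, h3 _ _ (fun h => absurd h h1), ← Finset.prod_mul_distrib]
      congr 1
      exact Finset.prod_congr rfl fun k _ => h3 _ _ (h2 k)
    obtain ⟨F, hFd⟩ : ∃ F : Poly n r, F =
        MvPolynomial.X (Sum.inl j0) ^ (-a).toNat *
          ∏ k, MvPolynomial.X (Sum.inr k) ^ (-b k).toNat -
        MvPolynomial.X (Sum.inl j0) ^ a.toNat *
          ∏ k, MvPolynomial.X (Sum.inr k) ^ (b k).toNat := ⟨_, rfl⟩
    have hFev : ∀ {K : Type} [Field K] [Algebra ℂ K] (z : Fin (n + 1) ⊕ Fin r → K),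
        MvPolynomial.aeval z F =
          z (Sum.inl j0) ^ (-a).toNat * ∏ k, z (Sum.inr k) ^ (-b k).toNat -
          z (Sum.inl j0) ^ a.toNat * ∏ k, z (Sum.inr k) ^ (b k).toNat := by
      intro K _ _ z
      rw [hFd]
      simp only [map_sub, map_mul, map_pow, map_prod, MvPolynomial.aeval_X]
    have h1 := hG2 F (fun m => by
      rw [hFev]
      have h2 := hsplit (p' m) (hj m) (fun k hk => hv'b k (by
        have h3 := (hmono m).2.2 k
        rw [hk] at h3
        exact h3.zero_of))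
      rw [hmn m, one_mul] at h2
      exact sub_eq_zero.2 h2)
    rw [hFev] at h1
    have h2 := hsplit g hgj hgk
    rw [hg1] at h2
    simp only [hg2] at h2
    rw [← sub_eq_zero.1 h1] at h2
    have h3 : G (Sum.inl j0) ^ (-a).toNat * ∏ k, G (Sum.inr k) ^ (-b k).toNat ≠ 0 := by
      refine mul_ne_zero (pow_ne_zero _ (by rw [← hg1]; exact hgj))
        (Finset.prod_ne_zero_iff.2 fun k _ => ?_)
      by_cases hk : g.2 k = 0
      · rw [hgk k hk]
        simp
      · rw [← hg2]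
        exact pow_ne_zero _ hk
    exact mul_right_cancel₀ h3 (by rw [h2, one_mul])
  have hg0 : pht ℂ g.1 ≤ 0 := by
    rcases hR hB hF hgP with h1 | h1 | h1
    · exact h1
    · exact absurd h1 (hns hgP hgv)
    · refine h1.trans ?_
      have h2 := canDeg_ratFunc
      exact mul_nonpos_of_nonneg_of_nonpos (by positivity) h2
  have h1 := hM hgP hgj hgm
  have h2 : M * pht ℂ g.1 ≤ 0 := mul_nonpos_of_nonneg_of_nonpos hM0 hg0
  obtain ⟨i, hi⟩ := hG1
  apply hi
  have h3 : hgt ℂ (G i) ≤ 0 := by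
    rcases i with j | k
    · rw [← hg1]
      exact (h1.1 j).trans h2
    · rw [← hg2]
      exact (h1.2 k).trans h2
  obtain ⟨e, he⟩ := const_of_hgt (k := ℂ) h3
  exact ⟨e, he.symm⟩

end Pool.Agent.TH152.BB
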