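import Pool.Agent.TH152.BB.Nrm

/-!
Pointed maps from curves to abelian covers of projective space: heights.
-/

set_option autoImplicit false

namespace Pool.Agent.TH152.BB

open FF Pool.Agent.W603.LV Pool.Agent.W603.PV Pool.Agent.W602.Cov Pool.Agent.W602.Cov.Cover
open Pool.Agent.TH152.CV Pool.Agent.TH152.HY Pool.Agent.W602.Cov.G

section hgts

variable {K : Type} [Field K] [Algebra ℂ K] [IsFF ℂ K]

theorem hgt_mul' (f g : K) : hgt ℂ (f * g) ≤ hgt ℂ f + hgt ℂ g := by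
  by_cases hf : f = 0
  · rw [hf, zero_mul, hgt_zero, zero_add]; exact hgt_nonneg g
  by_cases hg : g = 0
  · rw [hg, mul_zero, hgt_zero, add_zero]; exact hgt_nonneg f
  exact hgt_mul hf hg

theorem hgt_prod' {ι : Type*} (s : Finset ι) (f : ι → K) :
    hgt ℂ (∏ i ∈ s, f i) ≤ ∑ i ∈ s, hgt ℂ (f i) := by
  classical
  induction s using Finset.induction_on with
  | empty => rw [Finset.prod_empty, Finset.sum_empty, hgt_one]
  | insert i s hi ih =>
    rw [Finset.prod_insert hi, Finset.sum_insert hi]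
    exact (hgt_mul' _ _).trans (by linarith)

theorem hgt_pow' (f : K) (N : ℕ) : hgt ℂ (f ^ N) ≤ N * hgt ℂ f := by
  by_cases hf : f = 0
  · rw [hf, hgt_zero, mul_zero]
    cases N with
    | zero => rw [pow_zero, hgt_one]
    | succ N => rw [zero_pow (Nat.succ_ne_zero N), hgt_zero]
  · exact (hgt_pow hf N).le

theorem hgt_zpow' (f : K) (N : ℤ) : hgt ℂ (f ^ N) ≤ |N| * hgt ℂ f := by
  by_cases hf : f = 0
  · rw [hf, hgt_zero, mul_zero]
    by_cases hN : N = 0
    · rw [hN, zpow_zero, hgt_one]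
    · rw [zero_zpow N hN, hgt_zero]
  · exact (hgt_zpow hf N).le

end hgts

variable {n q r : ℕ} {X : Cover n q r} {j0 : Fin (n + 1)} {a : ℤ} {b : Fin r → ℤ}

/-- the heights of the normalized coordinates are bounded by the degree -/
theorem hgt_coord (X : Cover n q r) (j0 : Fin (n + 1)) {a : ℤ} {b : Fin r → ℤ}
    (hab : a * X.d + ∑ k, b k * X.w k = 1) : ∃ M : ℤ, 0 ≤ M ∧
    ∀ {K : Type} [Field K] [Algebra ℂ K] [IsFF ℂ K] {p : (Fin (n + 1) → K) × (Fin r → K)},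
    PtK X p.1 p.2 → p.1 j0 ≠ 0 → mono j0 a b p = 1 →
    (∀ j, hgt ℂ (p.1 j) ≤ M * pht ℂ p.1) ∧ ∀ k, hgt ℂ (p.2 k) ≤ M * pht ℂ p.1 := by
  classical
  obtain ⟨C, hC⟩ : ∃ C : Fin r → ℤ, C = fun k => b k * ((∏ k', X.m k') / X.m k : ℕ) := ⟨_, rfl⟩
  obtain ⟨E, hE⟩ : ∃ E : Fin r → ℤ, E = fun k => ((∑ i, X.e k i : ℕ) : ℤ) := ⟨_, rfl⟩
  have hE0 : ∀ k, 0 ≤ E k := fun k => by rw [hE]; positivity
  obtain ⟨M1, hM1⟩ : ∃ M1 : ℤ, M1 = ∑ k, |C k| * E k := ⟨_, rfl⟩
  have hM10 : 0 ≤ M1 := by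
    rw [hM1]
    exact Finset.sum_nonneg fun k _ => mul_nonneg (abs_nonneg _) (hE0 k)
  obtain ⟨M2, hM2⟩ : ∃ M2 : ℤ, M2 = ∑ k, E k := ⟨_, rfl⟩
  have hM20 : 0 ≤ M2 := by
    rw [hM2]
    exact Finset.sum_nonneg fun k _ => hE0 k
  refine ⟨(1 + M2) * (1 + M1), by positivity, ?_⟩
  intro K _ _ _ p hp hj hm
  obtain ⟨H, hH⟩ : ∃ H, H = pht ℂ p.1 := ⟨_, rfl⟩
  have hcoord : ∀ j, lf (LinearMap.proj j : Form n) p.1 = p.1 j := by
    intro j
    unfold lf
    rw [Finset.sum_eq_single j]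
    · simp
    · intro i _ hi
      simp [Ne.symm hi, Pi.single_apply]
    · intro h
      exact absurd (Finset.mem_univ j) h
  have hratio : ∀ φ : Form n, hgt ℂ (lf φ p.1 / p.1 j0) ≤ H := by
    intro φ
    have h0 : 0 ≤ H := by
      rw [hH]
      have h1 := hgt_lf_le (x := p.1) (φ := (LinearMap.proj j0 : Form n))
        (ψ := (LinearMap.proj j0 : Form n)) (by rw [hcoord]; exact hj) (by rw [hcoord]; exact hj)
      exact (hgt_nonneg _).trans h1
    by_cases h : lf φ p.1 = 0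
    · rw [h, zero_div, hgt_zero]
      exact h0
    · have h1 := hgt_lf_le (x := p.1) (φ := φ) (ψ := (LinearMap.proj j0 : Form n)) h
        (by rw [hcoord]; exact hj)
      rw [hcoord] at h1
      rw [hH]
      exact h1
  have hH0 : 0 ≤ H := (hgt_nonneg _).trans (hratio (LinearMap.proj j0 : Form n))
  have hprod : ∀ k, hgt ℂ (∏ i, (lf (X.ℓ i) p.1 / p.1 j0) ^ X.e k i) ≤ E k * H := by
    intro k
    refine (hgt_prod' _ _).trans ?_
    rw [hE]
    simp only
    rw [Nat.cast_sum, Finset.sum_mul]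
    refine Finset.sum_le_sum fun i _ => (hgt_pow' _ _).trans ?_
    exact mul_le_mul_of_nonneg_left (hratio _) (by positivity)
  -- the coordinate
  have hx0 : hgt ℂ (p.1 j0) ≤ M1 * H := by
    have h1 := nrm_rel hp hj hm
    have h2 : p.1 j0 ^ dlt X a b = (∏ k, (∏ i, (lf (X.ℓ i) p.1 / p.1 j0) ^ X.e k i) ^ C k)⁻¹ := by
      rw [hC]
      exact eq_inv_of_mul_eq_one_left h1
    have h3 : hgt ℂ (p.1 j0 ^ dlt X a b) ≤ M1 * H := by
      rw [h2, hgt_inv]
      refine (hgt_prod' _ _).trans ?_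
      rw [hM1, Finset.sum_mul]
      refine Finset.sum_le_sum fun k _ => (hgt_zpow' _ _).trans ?_
      rw [mul_assoc]
      exact mul_le_mul_of_nonneg_left (hprod k) (abs_nonneg _)
    rw [hgt_zpow hj] at h3
    have h4 : 1 ≤ |dlt X a b| := Int.one_le_abs (dlt_ne hab)
    have h5 := hgt_nonneg (k := ℂ) (p.1 j0)
    nlinarith
  have hlf : ∀ φ : Form n, hgt ℂ (lf φ p.1) ≤ (1 + M1) * H := by
    intro φ
    have h1 : lf φ p.1 = lf φ p.1 / p.1 j0 * p.1 j0 := by rw [div_mul_cancel₀ _ hj]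
    rw [h1]
    refine (hgt_mul' _ _).trans ?_
    have h2 := hratio φ
    linarith
  have hbase : (1 + M1) * H ≤ (1 + M2) * (1 + M1) * H := by
    have h1 : 0 ≤ (1 + M1) * H := by positivity
    nlinarith
  refine ⟨fun j => ?_, fun k => ?_⟩
  · rw [← hH]
    have h1 := hlf (LinearMap.proj j : Form n)
    rw [hcoord] at h1
    exact h1.trans hbase
  · rw [← hH]
    have h1 : hgt ℂ (p.2 k ^ X.m k) ≤ E k * ((1 + M1) * H) := by
      rw [hp.mem k]
      refine (hgt_prod' _ _).trans ?_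
      rw [hE]
      simp only
      rw [Nat.cast_sum, Finset.sum_mul]
      refine Finset.sum_le_sum fun i _ => (hgt_pow' _ _).trans ?_
      exact mul_le_mul_of_nonneg_left (hlf _) (by positivity)
    have h2 : hgt ℂ (p.2 k) ≤ hgt ℂ (p.2 k ^ X.m k) := by
      by_cases h0 : p.2 k = 0
      · rw [h0, hgt_zero]
        exact hgt_nonneg _
      · rw [hgt_pow h0]
        have h3 : (1 : ℤ) ≤ X.m k := by exact_mod_cast X.hm k
        have h4 := hgt_nonneg (k := ℂ) (p.2 k)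
        nlinarith
    have h3 : E k ≤ M2 := by
      rw [hM2]
      exact Finset.single_le_sum (f := E) (fun k _ => hE0 k) (Finset.mem_univ k)
    have h4 : 0 ≤ (1 + M1) * H := by positivity
    nlinarith

end Pool.Agent.TH152.BB
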