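import Pool.Agent.TH152.BB.Fin
import Pool.Agent.TH152.CV.Rat
import Pool.Agent.W603.PV.Main

/-!
Pointed maps from curves to abelian covers of projective space: split points, closed sets.
-/

set_option autoImplicit false

namespace Pool.Agent.TH152.BB

open FF Pool.Agent.W603.LV Pool.Agent.W603.PV Pool.Agent.W602.Cov Pool.Agent.W602.Cov.Cover
open Pool.Agent.TH152.CV Pool.Agent.TH152.HY Pool.Agent.W602.Cov.G

variable {n q r : ℕ} {X : Cover n q r}

/-- a point of the projective line with the coordinate one -/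
theorem exists_at_one : ∃ c : Place ℂ (RatFunc ℂ), HasVal c (RatFunc.X : RatFunc ℂ) 1 := by
  obtain ⟨T, hT⟩ : ∃ T : RatFunc ℂ, T = RatFunc.X := ⟨_, rfl⟩
  have hTt : Transcendental ℂ T := hT ▸ RatFunc.transcendental_X
  have h1 : Transcendental ℂ (T - 1)⁻¹ := by
    intro h
    have h2 : IsAlgebraic ℂ (T - 1) := by
      have := h.inv
      rwa [inv_inv] at this
    apply hTt
    have h3 := h2.add (isAlgebraic_algebraMap (A := RatFunc ℂ) (1 : ℂ))
    rwa [map_one, sub_add_cancel] at h3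
  have h2 := IsFF.finite h1
  have h3 : 0 < Module.finrank (IntermediateField.adjoin ℂ {(T - 1)⁻¹}) (RatFunc ℂ) :=
    Module.finrank_pos
  obtain ⟨S, hS, hS2⟩ := poles (k := ℂ) h1
  rw [← hS2] at h3
  obtain ⟨w, hw, -⟩ := Finset.exists_ne_zero_of_sum_ne_zero h3.ne'
  have h4 := (hS w).1 hw
  rw [w.ord_inv] at h4
  refine ⟨w, Or.inr ?_⟩
  rw [← hT, map_one]
  omega

/-- the curves through a split point -/
theorem split_curves {u : (Fin (n + 1) → ℂ) × (Fin r → ℂ)} (hu : X.Split u) :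
    ∃ (c : Place ℂ (RatFunc ℂ)) (p : ℕ → (Fin (n + 1) → RatFunc ℂ) × (Fin r → RatFunc ℂ)),
      (∀ e, PtK X (p e).1 (p e).2) ∧ (∀ e, HasVals c (p e) u) ∧
        ∀ e : ℕ, (e : ℤ) ≤ pht ℂ (p e).1 := by
  classical
  obtain ⟨c, hc⟩ := exists_at_one
  obtain ⟨x1, x2, D, N, a, b, hli, hsum, hN, hBN, hab, hF⟩ := split_family hu 0
  obtain ⟨φ, ψ, h1, h2, h3, h4⟩ := exists_dual hli
  obtain ⟨T, hT⟩ : ∃ T : RatFunc ℂ, T = RatFunc.X := ⟨_, rfl⟩
  rw [← hT] at hc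
  have hTt : Transcendental ℂ T := hT ▸ RatFunc.transcendental_X
  have hT0 : T ≠ 0 := by rw [hT]; exact RatFunc.X_ne_zero
  have hT1 : 1 ≤ hgt ℂ T := by
    by_contra hcon
    obtain ⟨c, hc⟩ := const_of_hgt (k := ℂ) (f := T) (by omega)
    exact hTt (hc ▸ isAlgebraic_algebraMap c)
  let x : ℕ → Fin (n + 1) → RatFunc ℂ := fun e j =>
    (T ^ e) ^ N * algebraMap ℂ (RatFunc ℂ) (x1 j) + 1 ^ N * algebraMap ℂ (RatFunc ℂ) (x2 j)
  have hφ : ∀ e, lf φ (x e) = (T ^ e) ^ N := by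
    intro e
    change lf φ (fun j => (T ^ e) ^ N * algebraMap ℂ (RatFunc ℂ) (x1 j) +
      1 ^ N * algebraMap ℂ (RatFunc ℂ) (x2 j)) = _
    rw [lf_comb, h1, h2, map_one, map_zero, mul_one, mul_zero, add_zero]
  have hψ : ∀ e, lf ψ (x e) = 1 := by
    intro e
    change lf ψ (fun j => (T ^ e) ^ N * algebraMap ℂ (RatFunc ℂ) (x1 j) +
      1 ^ N * algebraMap ℂ (RatFunc ℂ) (x2 j)) = _
    rw [lf_comb, h3, h4, map_one, map_zero, mul_one, mul_zero, zero_add, one_pow]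
  have hne : ∀ e, x e ≠ 0 := by
    intro e h0
    have h6 := hψ e
    rw [h0] at h6
    have h5 : lf ψ (0 : Fin (n + 1) → RatFunc ℂ) = 0 := by
      unfold lf
      exact Finset.sum_eq_zero fun j _ => by rw [Pi.zero_apply, mul_zero]
    rw [h5] at h6
    exact zero_ne_one h6
  refine ⟨c, fun e => (x e, fun k =>
    algebraMap ℂ (RatFunc ℂ) (u.2 k) * (T ^ e) ^ a k * 1 ^ b k),
    fun e => ⟨hne e, fun k => hF (RatFunc ℂ) (T ^ e) 1 k⟩, fun e => ⟨fun j => ?_, fun k => ?_⟩,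
    fun e => ?_⟩
  · have h5 := (((hc.pow e).pow N).mul (HasVal.const (x1 j))).add
      (HasVal.one.pow N |>.mul (HasVal.const (c := c) (x2 j)))
    have h6 : u.1 j = ((1 : ℂ) ^ e) ^ N * x1 j + 1 ^ N * x2 j := by
      rw [hsum, one_pow, one_pow, one_mul, one_mul]
      rfl
    rw [h6]
    exact h5
  · have h5 := ((HasVal.const (c := c) (u.2 k)).mul ((hc.pow e).pow (a k))).mul
      (HasVal.one.pow (b k))
    have h6 : u.2 k = u.2 k * ((1 : ℂ) ^ e) ^ a k * 1 ^ b k := by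
      rw [one_pow, one_pow, one_pow, mul_one, mul_one]
    rw [← h6] at h5
    exact h5
  · have h5 := hgt_lf_le (x := x e) (φ := φ) (ψ := ψ)
      (by rw [hφ]; exact pow_ne_zero _ (pow_ne_zero _ hT0))
      (by rw [hψ]; exact one_ne_zero)
    rw [hφ, hψ, div_one, ← pow_mul, hgt_pow hT0] at h5
    refine le_trans ?_ h5
    have h6 : (1 : ℤ) ≤ N := by exact_mod_cast hBN
    push_cast
    have h7 : (e : ℤ) * 1 ≤ e * N := mul_le_mul_of_nonneg_left h6 (by positivity)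
    have h8 : (e * N : ℤ) * 1 ≤ e * N * hgt ℂ T := mul_le_mul_of_nonneg_left hT1 (by positivity)
    linarith

/-- the coordinates of the same point of the cover have the same height -/
theorem pht_same {L : Type} [Field L] [Algebra ℂ L] [IsFF ℂ L]
    {p p' : (Fin (n + 1) → L) × (Fin r → L)} (h : SameK X p' p) (hp : p.1 ≠ 0) :
    pht ℂ p.1 = pht ℂ p'.1 := by
  obtain ⟨t, ht, h4, -⟩ := h
  have h5 : p.1 = fun j => t ^ X.d * p'.1 j := funext h4
  have h6 : ∃ j, p'.1 j ≠ 0 := by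
    obtain ⟨j, hj⟩ := Function.ne_iff.1 hp
    refine ⟨j, fun h0 => hj ?_⟩
    rw [h4 j, h0, mul_zero]
    rfl
  rw [h5]
  exact pht_scale h6 (pow_ne_zero _ ht)

theorem valAt_of {L : Type} [Field L] [Algebra ℂ L] {c : Place ℂ L}
    {p : (Fin (n + 1) → L) × (Fin r → L)} {v : (Fin (n + 1) → ℂ) × (Fin r → ℂ)}
    (h : HasVals c p v) : ValAt X c p v :=
  ⟨1, one_ne_zero, fun j => by rw [one_pow, one_mul]; exact h.1 j,
    fun k => by rw [one_pow, one_mul]; exact h.2 k⟩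

/-- **Infinitely many pointed maps.** -/
theorem inf_pointed {u : (Fin (n + 1) → ℂ) × (Fin r → ℂ)} (hu : X.Split u) :
    ∃ c : Place ℂ (RatFunc ℂ), ¬ FinPointed X c u := by
  classical
  obtain ⟨c, p, h1, h2, h3⟩ := split_curves hu
  refine ⟨c, fun hfin => ?_⟩
  obtain ⟨T, hT⟩ := hfin
  obtain ⟨B, hB⟩ : ∃ B : ℕ, ∀ p' ∈ T, (pht ℂ p'.1).natAbs < B := by
    refine ⟨(∑ p' ∈ T, (pht ℂ p'.1).natAbs) + 1, fun p' hp' => ?_⟩
    have h4 := Finset.single_le_sum (f := fun p' : (Fin (n + 1) → RatFunc ℂ) ×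
      (Fin r → RatFunc ℂ) => (pht ℂ p'.1).natAbs) (fun _ _ => Nat.zero_le _) hp'
    exact Nat.lt_succ_of_le h4
  obtain ⟨p', hp', h4⟩ := hT (p B) (h1 B) (valAt_of (h2 B))
  have h7 := pht_same h4 (h1 B).ne
  have h8 := h3 B
  have h9 := hB p' hp'
  omega

end Pool.Agent.TH152.BB
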