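import Pool.Agent.TH152.BB.VarP

/-!
Pointed maps from varieties to abelian covers of projective space: split points.
-/

set_option autoImplicit false

namespace Pool.Agent.TH152.BB

open FF Pool.Agent.W603.LV Pool.Agent.W603.PV Pool.Agent.W602.Cov Pool.Agent.W602.Cov.Cover
open Pool.Agent.TH152.CV Pool.Agent.TH152.HY Pool.Agent.W602.Cov.G

variable {n q r : ℕ} {X : Cover n q r}

theorem hasValA_poly (P : Polynomial ℂ) : HasValA (K := RatFunc ℂ)
    (Polynomial.aeval (1 : ℂ)) (algebraMap (Polynomial ℂ) (RatFunc ℂ) P) (P.eval 1) :=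
  ⟨P, 1, by simp, by simp, by simp [Polynomial.coe_aeval_eq_eval]⟩

/-- the curves through a split point -/
theorem split_curvesA {u : (Fin (n + 1) → ℂ) × (Fin r → ℂ)} (hu : X.Split u) :
    ∃ p : ℕ → (Fin (n + 1) → RatFunc ℂ) × (Fin r → RatFunc ℂ),
      (∀ e, PtK X (p e).1 (p e).2) ∧ (∀ e, HasValsA (Polynomial.aeval (1 : ℂ)) (p e) u) ∧
        ∀ e : ℕ, (e : ℤ) ≤ pht ℂ (p e).1 := by
  classical
  obtain ⟨x1, x2, D, N, a, b, hli, hsum, hN, hBN, hab, hF⟩ := split_family hu 0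
  obtain ⟨φ, ψ, h1, h2, h3, h4⟩ := exists_dual hli
  obtain ⟨T, hT⟩ : ∃ T : RatFunc ℂ, T = RatFunc.X := ⟨_, rfl⟩
  have hTt : Transcendental ℂ T := hT ▸ RatFunc.transcendental_X
  have hT0 : T ≠ 0 := by rw [hT]; exact RatFunc.X_ne_zero
  have hT1 : 1 ≤ hgt ℂ T := by
    by_contra hcon
    obtain ⟨c, hc⟩ := const_of_hgt (k := ℂ) (f := T) (by omega)
    exact hTt (hc ▸ isAlgebraic_algebraMap c)
  have hTX : T = algebraMap (Polynomial ℂ) (RatFunc ℂ) Polynomial.X := by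
    rw [hT, RatFunc.algebraMap_X]
  have hC : ∀ z : ℂ, algebraMap ℂ (RatFunc ℂ) z =
      algebraMap (Polynomial ℂ) (RatFunc ℂ) (Polynomial.C z) := fun z => by
    rw [RatFunc.algebraMap_C, RatFunc.algebraMap_eq_C]
  let x : ℕ → Fin (n + 1) → RatFunc ℂ := fun e j =>
    (T ^ e) ^ N * algebraMap ℂ (RatFunc ℂ) (x1 j) + 1 ^ N * algebraMap ℂ (RatFunc ℂ) (x2 j)
  have hφ : ∀ e, lf φ (x e) = (T ^ e) ^ N := by
    intro e
    change lf φ (fun j => (T ^ e) ^ N * algebraMap ℂ (RatFunc ℂ) (x1 j) +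
      1 ^ N * algebraMap ℂ (RatFunc ℂ) (x2 j)) = _
    rw [lf_comb, h1, h2, map_one, map_zero, mul_one, mul_zero, add_zero]
  have hψ : ∀ e, lf ψ (x e) = 1 := by
    intro e
    change lf ψ (fun j => (T ^ e) ^ N * algebraMap ℂ (RatFunc ℂ) (x1 j) +
      1 ^ N * algebraMap ℂ (RatFunc ℂ) (x2 j)) = _
    rw [lf_comb, h3, h4, map_one, map_zero, mul_one, mul_zero, zero_add, one_pow]
  have hne : ∀ e, x e ≠ 0 := by
    intro e h0
    have h6 := hψ e
    rw [h0] at h6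
    have h5 : lf ψ (0 : Fin (n + 1) → RatFunc ℂ) = 0 := by
      unfold lf
      exact Finset.sum_eq_zero fun j _ => by rw [Pi.zero_apply, mul_zero]
    rw [h5] at h6
    exact zero_ne_one h6
  refine ⟨fun e => (x e, fun k =>
    algebraMap ℂ (RatFunc ℂ) (u.2 k) * (T ^ e) ^ a k * 1 ^ b k),
    fun e => ⟨hne e, fun k => hF (RatFunc ℂ) (T ^ e) 1 k⟩, fun e => ⟨fun j => ?_, fun k => ?_⟩,
    fun e => ?_⟩
  · have h5 := hasValA_poly ((Polynomial.X ^ e) ^ N * Polynomial.C (x1 j) +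
      1 ^ N * Polynomial.C (x2 j))
    have h6 : u.1 j = ((1 : ℂ) ^ e) ^ N * x1 j + 1 ^ N * x2 j := by
      rw [hsum, one_pow, one_pow, one_mul, one_mul]
      rfl
    have h7 : ((Polynomial.X ^ e) ^ N * Polynomial.C (x1 j) +
      1 ^ N * Polynomial.C (x2 j) : Polynomial ℂ).eval 1 = u.1 j := by
      rw [h6]
      simp
    have h8 : algebraMap (Polynomial ℂ) (RatFunc ℂ) ((Polynomial.X ^ e) ^ N * Polynomial.C (x1 j) +
      1 ^ N * Polynomial.C (x2 j)) = x e j := by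
      simp only [x, hTX, hC, map_add, map_mul, map_pow, map_one]
    rw [h7, h8] at h5
    exact h5
  · have h5 := hasValA_poly (Polynomial.C (u.2 k) * (Polynomial.X ^ e) ^ a k * 1 ^ b k)
    have h7 : (Polynomial.C (u.2 k) * (Polynomial.X ^ e) ^ a k * 1 ^ b k : Polynomial ℂ).eval 1 =
      u.2 k := by simp
    have h8 : algebraMap (Polynomial ℂ) (RatFunc ℂ)
        (Polynomial.C (u.2 k) * (Polynomial.X ^ e) ^ a k * 1 ^ b k) =
        algebraMap ℂ (RatFunc ℂ) (u.2 k) * (T ^ e) ^ a k * 1 ^ b k := by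
      simp only [hTX, hC, map_mul, map_pow, map_one]
    rw [h7, h8] at h5
    exact h5
  · have h5 := hgt_lf_le (x := x e) (φ := φ) (ψ := ψ)
      (by rw [hφ]; exact pow_ne_zero _ (pow_ne_zero _ hT0))
      (by rw [hψ]; exact one_ne_zero)
    rw [hφ, hψ, div_one, ← pow_mul, hgt_pow hT0] at h5
    refine le_trans ?_ h5
    have h6 : (1 : ℤ) ≤ N := by exact_mod_cast hBN
    push_cast
    have h7 : (e : ℤ) * 1 ≤ e * N := mul_le_mul_of_nonneg_left h6 (by positivity)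
    have h8 : (e * N : ℤ) * 1 ≤ e * N * hgt ℂ T := mul_le_mul_of_nonneg_left hT1 (by positivity)
    linarith

/-- **Infinitely many pointed maps.** -/
theorem split_of_var {Δ : Set ((Fin (n + 1) → ℂ) × (Fin r → ℂ))} (h : VarMod X Δ)
    {u : (Fin (n + 1) → ℂ) × (Fin r → ℂ)} (hu : X.Split u) : u ∈ Δ := by
  classical
  by_contra hcon
  obtain ⟨p, h1, h2, h3⟩ := split_curvesA hu
  obtain ⟨T, hT⟩ := h (Polynomial ℂ) (RatFunc ℂ) (Polynomial.aeval (1 : ℂ)) u hu.1 hcon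
  obtain ⟨B, hB⟩ : ∃ B : ℕ, ∀ p' ∈ T, (pht ℂ p'.1).natAbs < B := by
    refine ⟨(∑ p' ∈ T, (pht ℂ p'.1).natAbs) + 1, fun p' hp' => ?_⟩
    have h4 := Finset.single_le_sum (f := fun p' : (Fin (n + 1) → RatFunc ℂ) ×
      (Fin r → RatFunc ℂ) => (pht ℂ p'.1).natAbs) (fun _ _ => Nat.zero_le _) hp'
    exact Nat.lt_succ_of_le h4
  obtain ⟨p', hp', h4⟩ := hT (p B) (h1 B) ⟨1, one_ne_zero, fun j => by
    rw [one_pow, one_mul]
    exact (h2 B).1 j, fun k => by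
    rw [one_pow, one_mul]
    exact (h2 B).2 k⟩
  have h7 := pht_same h4 (h1 B).ne
  have h8 := h3 B
  have h9 := hB p' hp'
  omega

end Pool.Agent.TH152.BB
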