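import Pool.Agent.TH152.BB.Inf
import Pool.Agent.TH152.CV.Gen

/-!
Abelian covers of projective space with large exponents: notions of hyperbolicity modulo a closed
subset.
-/

set_option autoImplicit false

namespace Pool.Agent.TH152.BB

open FF Pool.Agent.W603.LV Pool.Agent.W603.PV Pool.Agent.W602.Cov Pool.Agent.W602.Cov.Cover
open Pool.Agent.TH152.CV Pool.Agent.TH152.HY Pool.Agent.W602.Cov.G Pool.Agent.W602.GT

variable {n q r : ℕ} (X : Cover n q r)

/-- `Δ` is a (Zariski) closed subset of `X`: the set of the points of `X` at which some weighted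
homogeneous polynomials vanish. -/
def ClosedIn (Δ : Set ((Fin (n + 1) → ℂ) × (Fin r → ℂ))) : Prop :=
  ∃ A : Set (Poly n r), (∀ G ∈ A, X.Hom G) ∧ Δ = {v | v ∈ X.Pts ∧ ∀ G ∈ A, ev v G = 0}

/-- The image of the morphism to `X` with the coordinates `x`, `y` in the function field `K` is
contained in the closed subset `Δ`. -/
def MapsIn (Δ : Set ((Fin (n + 1) → ℂ) × (Fin r → ℂ))) {K : Type} [Field K] [Algebra ℂ K]
    (x : Fin (n + 1) → K) (y : Fin r → K) : Prop :=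
  ∀ G : Poly n r, X.Hom G → (∀ v ∈ Δ, ev v G = 0) → evK x y G = 0

/-- Every entire curve in `X` is contained in `Δ`. -/
def BrodyMod (Δ : Set ((Fin (n + 1) → ℂ) × (Fin r → ℂ))) : Prop :=
  ∀ x y, X.EntireCurve x y → ∀ z, (x z, y z) ∈ Δ

/-- For every smooth projective curve `C`, every point `c` of `C` and every point `v` of `X` which
is not in `Δ`, there are only finitely many morphisms from `C` to `X` which map `c` to `v`. -/
def PointedMod (Δ : Set ((Fin (n + 1) → ℂ) × (Fin r → ℂ))) : Prop :=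
  ∀ (L : Type) [Field L] [Algebra ℂ L] [IsFF ℂ L] (c : Place ℂ L), ∀ v ∈ X.Pts, v ∉ Δ →
    FinPointed X c v

/-- For every point `c` of the projective line and every point `v` of `X` which is not in `Δ`,
there are only finitely many morphisms from the projective line to `X` which map `c` to `v`. -/
def PointedLine (Δ : Set ((Fin (n + 1) → ℂ) × (Fin r → ℂ))) : Prop :=
  ∀ c : Place ℂ (RatFunc ℂ), ∀ v ∈ X.Pts, v ∉ Δ → FinPointed X c v

/-- For every smooth projective curve `C`, the degrees of the morphisms from `C` to `X` with an image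
which is not contained in `Δ` are bounded. -/
def BddMod (Δ : Set ((Fin (n + 1) → ℂ) × (Fin r → ℂ))) : Prop :=
  ∀ (L : Type) [Field L] [Algebra ℂ L] [IsFF ℂ L], ∃ B : ℤ, ∀ (x : Fin (n + 1) → L)
    (y : Fin r → L), PtK X x y → ¬ MapsIn X Δ x y → pht ℂ x ≤ B

/-- For every smooth projective curve `C` of genus `g`, the degrees of the morphisms from `C` to `X`
with an image which is not contained in `Δ` are at most `R * max (2 * g - 2) 0`. -/
def LinMod (R : ℕ) (Δ : Set ((Fin (n + 1) → ℂ) × (Fin r → ℂ))) : Prop :=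
  ∀ (L : Type) [Field L] [Algebra ℂ L] [IsFF ℂ L], ∀ (x : Fin (n + 1) → L)
    (y : Fin r → L), PtK X x y → ¬ MapsIn X Δ x y → pht ℂ x ≤ R * max (canDeg ℂ L) 0

/-- The image of every nonconstant morphism from the multiplicative group to `X` is contained in
`Δ`. -/
def GmMod (Δ : Set ((Fin (n + 1) → ℂ) × (Fin r → ℂ))) : Prop :=
  ∀ P Q, X.GmCurve P Q → ∀ t, t ≠ 0 → at' P Q t ∈ Δ

/-- The image of every nonconstant morphism from the affine line to `X` is contained in `Δ`. -/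
def RatMod (Δ : Set ((Fin (n + 1) → ℂ) × (Fin r → ℂ))) : Prop :=
  ∀ P Q, RatCurve X P Q → ∀ t, at' P Q t ∈ Δ

/-- Every closed subvariety of `X` of positive dimension which is not contained in `Δ` is of general
type. -/
def SubMod (Δ : Set ((Fin (n + 1) → ℂ) × (Fin r → ℂ))) : Prop :=
  ∀ (K : Type) [Field K] [Algebra ℂ K] (w : ℕ) (x : Fin (n + 1) → K) (y : Fin r → K), 1 ≤ w →
    SubVar X K w x y → ¬ MapsIn X Δ x y → GeneralType ℂ K w

variable {X}

theorem ClosedIn.sub {Δ : Set ((Fin (n + 1) → ℂ) × (Fin r → ℂ))} (h : ClosedIn X Δ) {v}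
    (hv : v ∈ X.Pts) (h1 : ∀ G, X.Hom G → (∀ u ∈ Δ, ev u G = 0) → ev v G = 0) : v ∈ Δ := by
  obtain ⟨A, hA, rfl⟩ := h
  exact ⟨hv, fun G hG => h1 G (hA G hG) fun u hu => hu.2 G hG⟩

/-- **Hyperbolicity modulo a closed subset.** -/
theorem mod_tfae (n q : ℕ) : ∃ R : ℕ, 0 < R ∧ ∀ {r : ℕ} {X : Cover n q r}, Big X → X.Free →
    ∀ Δ, ClosedIn X Δ → [∀ v, X.Split v → v ∈ Δ, BrodyMod X Δ, PointedMod X Δ, PointedLine X Δ,
      BddMod X Δ, LinMod X R Δ, SubMod X Δ, GmMod X Δ, RatMod X Δ].TFAE := by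
  obtain ⟨R, hR, hdeg⟩ := deg_split n q
  obtain ⟨R', -, hdich⟩ := dichotomy n q
  refine ⟨R, hR, fun {r X} hB hF Δ hΔ => ?_⟩
  obtain ⟨hs1, hs2, hs3⟩ := special hB hF
  -- the closure of the split points
  have hcl : (∀ v, X.Split v → v ∈ Δ) → X.SpSplit ⊆ Δ := fun h v hv =>
    hΔ.sub hv.1 fun G hG hE => hv.2 G hG fun u hu => hE u (h u hu)
  have hsp : ∀ v, X.Split v → v ∈ X.SpSplit := fun v hv => ⟨hv.1, fun G _ hE => hE v hv⟩
  tfae_have 1 → 2 := by
    intro h x y hxy z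
    refine hcl h (hs2.subset ⟨hxy.mem z, fun G _ hE => hE x y hxy z⟩)
  tfae_have 2 → 8 := by
    intro h P Q hPQ t ht
    have h1 : at' P Q t ∈ X.SpH := X.spGm_sub ⟨hPQ.mem t ht, fun G _ hE => hE P Q hPQ t ht⟩
    exact hΔ.sub h1.1 fun G hG hE => h1.2 G hG fun x y hxy z => hE _ (h x y hxy z)
  tfae_have 8 → 1 := by
    intro h v hv
    have h1 : v ∈ X.SpGm := X.spSplit_sub (hsp v hv)
    exact hΔ.sub h1.1 fun G hG hE => h1.2 G hG fun P Q hPQ t ht => hE _ (h P Q hPQ t ht)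
  tfae_have 2 → 9 := by
    intro h P Q hPQ t
    have hx : X.EntireCurve (fun z j => (P j).eval z) (fun z k => (Q k).eval z) :=
      ⟨fun j => (P j).differentiable, fun k => (Q k).differentiable, hPQ.mem, hPQ.nonconst⟩
    exact h _ _ hx t
  tfae_have 9 → 1 := by
    intro h v hv
    obtain ⟨P, Q, hPQ, h1⟩ := rat_through hv
    rw [← h1]
    exact h P Q hPQ 1
  tfae_have 1 → 3 := fun h L _ _ _ c v hv hvΔ =>
    fin_pointed hB hF hv (fun h1 => hvΔ (hcl h h1)) c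
  tfae_have 3 → 4 := fun h c v hv hvΔ => h (RatFunc ℂ) c v hv hvΔ
  tfae_have 4 → 1 := by
    intro h v hv
    by_contra hcon
    obtain ⟨c, hc⟩ := inf_pointed hv
    exact hc (h c v hv.1 hcon)
  tfae_have 1 → 6 := by
    intro h L _ _ _ x y hP hM
    have h0 : (0 : ℤ) ≤ R * max (canDeg ℂ L) 0 := by positivity
    rcases hdeg hB hF hP with h1 | h1 | h1
    · exact h1.trans h0
    · exact absurd (fun G _ hE => spec_split hP h1 fun u hu => hE u (h u hu)) hM
    · exact h1.trans (mul_le_mul_of_nonneg_left (le_max_left _ _) (by positivity))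
  tfae_have 6 → 5 := fun h L _ _ _ => ⟨_, fun x y hP hM => h L x y hP hM⟩
  tfae_have 5 → 1 := by
    intro h v hv
    refine hΔ.sub hv.1 fun G hG hE => ?_
    by_contra hne
    obtain ⟨B, hB⟩ := h (RatFunc ℂ)
    obtain ⟨c, p, h1, h2, h3⟩ := split_curves hv
    have h4 := hB (p (B.toNat + 1)).1 (p (B.toNat + 1)).2 (h1 _) (fun hM => hne (by
      have h5 := HasVal.aeval (z := Sum.elim (p (B.toNat + 1)).1 (p (B.toNat + 1)).2)
        (v := Sum.elim v.1 v.2) (fun i => by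
          rcases i with j | k
          · exact (h2 _).1 j
          · exact (h2 _).2 k) G
      have h6 : MvPolynomial.aeval (Sum.elim (p (B.toNat + 1)).1 (p (B.toNat + 1)).2) G = 0 :=
        hM G hG hE
      rw [h6] at h5
      exact h5.zero_of))
    have h7 := h3 (B.toNat + 1)
    have h8 := Int.self_le_toNat B
    push_cast at h7
    linarith
  tfae_have 1 → 7 := by
    intro h K _ _ w x y hw hV hM
    rcases hdich hB hF hw hV.pt (alg_of_gen hV.pt hV.gen) hV.dim with h1 | ⟨-, h1⟩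
    · exact absurd (fun G _ hE => spec_split hV.pt h1 fun u hu => hE u (h u hu)) hM
    · exact h1
  tfae_have 7 → 1 := by
    intro h v hv
    have h1 : v ∈ SpAlg X := hs1.symm.subset (hsp v hv)
    refine hΔ.sub h1.1 fun G hG hE => h1.2 G hG fun K _ _ w x y hw hV hgt => ?_
    by_contra hne
    exact hgt (h K w x y hw hV fun hM => hne (hM G hG hE))
  tfae_finish

/-- the closure of the split points is closed -/
theorem closed_spSplit : ClosedIn X X.SpSplit :=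
  ⟨{G | X.Hom G ∧ ∀ u, X.Split u → ev u G = 0}, fun G hG => hG.1, by
    ext v
    constructor
    · rintro ⟨h1, h2⟩
      exact ⟨h1, fun G hG => h2 G hG.1 hG.2⟩
    · rintro ⟨h1, h2⟩
      exact ⟨h1, fun G hG hE => h2 G ⟨hG, hE⟩⟩⟩

variable (X) in
/-- A property of closed subsets of `X` holds for some proper closed subset. -/
def Pseudo (Q : Set ((Fin (n + 1) → ℂ) × (Fin r → ℂ)) → Prop) : Prop :=
  ∃ Δ, ClosedIn X Δ ∧ Δ ≠ X.Pts ∧ Q Δ

/-- **General type and hyperbolicity modulo a closed subset.** -/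
theorem pseudo_tfae (n q : ℕ) : ∃ R : ℕ, 0 < R ∧ ∀ {r : ℕ} {X : Cover n q r}, Big X → X.Free →
    (∀ Δ, ClosedIn X Δ → [∀ v, X.Split v → v ∈ Δ, BrodyMod X Δ, PointedMod X Δ, PointedLine X Δ,
      BddMod X Δ, LinMod X R Δ, SubMod X Δ, GmMod X Δ, RatMod X Δ].TFAE) ∧
    [X.SpSplit ≠ X.Pts, Pseudo X (BrodyMod X), Pseudo X (PointedMod X), Pseudo X (PointedLine X),
      Pseudo X (BddMod X), Pseudo X (LinMod X R), Pseudo X (SubMod X), Pseudo X (GmMod X),
      Pseudo X (RatMod X)].TFAE := by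
  obtain ⟨R, hR, h⟩ := mod_tfae n q
  refine ⟨R, hR, fun {r X} hB hF => ⟨h hB hF, ?_⟩⟩
  have hcl : ∀ Δ, ClosedIn X Δ → (∀ v, X.Split v → v ∈ Δ) → X.SpSplit ⊆ Δ := fun Δ hΔ h v hv =>
    hΔ.sub hv.1 fun G hG hE => hv.2 G hG fun u hu => hE u (h u hu)
  have hsp : ∀ v, X.Split v → v ∈ X.SpSplit := fun v hv => ⟨hv.1, fun G _ hE => hE v hv⟩
  have key : ∀ Q : Set ((Fin (n + 1) → ℂ) × (Fin r → ℂ)) → Prop,
      (∀ Δ, ClosedIn X Δ → ((∀ v, X.Split v → v ∈ Δ) ↔ Q Δ)) →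
      (X.SpSplit ≠ X.Pts ↔ Pseudo X Q) := by
    intro Q hQ
    constructor
    · intro h1
      exact ⟨X.SpSplit, closed_spSplit, h1, (hQ _ closed_spSplit).1 hsp⟩
    · rintro ⟨Δ, hΔ, h1, h2⟩ h3
      apply h1
      refine Set.Subset.antisymm ?_ ?_
      · obtain ⟨A, -, rfl⟩ := hΔ
        exact fun v hv => hv.1
      · rw [← h3]
        exact hcl Δ hΔ ((hQ Δ hΔ).2 h2)
  tfae_have 1 ↔ 2 := key _ fun Δ hΔ => (h hB hF Δ hΔ).out 0 1
  tfae_have 1 ↔ 3 := key _ fun Δ hΔ => (h hB hF Δ hΔ).out 0 2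
  tfae_have 1 ↔ 4 := key _ fun Δ hΔ => (h hB hF Δ hΔ).out 0 3
  tfae_have 1 ↔ 5 := key _ fun Δ hΔ => (h hB hF Δ hΔ).out 0 4
  tfae_have 1 ↔ 6 := key _ fun Δ hΔ => (h hB hF Δ hΔ).out 0 5
  tfae_have 1 ↔ 7 := key _ fun Δ hΔ => (h hB hF Δ hΔ).out 0 6
  tfae_have 1 ↔ 8 := key _ fun Δ hΔ => (h hB hF Δ hΔ).out 0 7
  tfae_have 1 ↔ 9 := key _ fun Δ hΔ => (h hB hF Δ hΔ).out 0 8
  tfae_finish

/-- general type -/
theorem gen_iff (hn : 1 ≤ n) (hB : Big X) (hF : X.Free) (hU : ∀ i, ∃ k, 0 < X.e k i)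
    {K : Type} [Field K] [Algebra ℂ K] {x : Fin (n + 1) → K} {y : Fin r → K}
    (hK : X.FunctionField K x y) :
    (GeneralType ℂ K n ↔ X.SpSplit ≠ X.Pts) ∧ (GeneralType ℂ K n ↔ ¬ Reducible X.ℓ) := by
  have h := gen_tfae hn hB hF hU hK
  obtain ⟨h1, h2, h3⟩ := special hB hF
  rw [h1] at h
  exact ⟨h.out 0 2, h.out 0 1⟩

end Pool.Agent.TH152.BB
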