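import Pool.Agent.TH152.BB.InfV

/-!
Abelian covers of projective space: notions of hyperbolicity modulo a closed subset, and general type.
-/

set_option autoImplicit false

namespace Pool.Agent.TH152.BB

open FF Pool.Agent.W603.LV Pool.Agent.W603.PV Pool.Agent.W602.Cov Pool.Agent.W602.Cov.Cover
open Pool.Agent.TH152.CV Pool.Agent.TH152.HY Pool.Agent.W602.Cov.G Pool.Agent.W602.GT

variable {n q r : ℕ} {X : Cover n q r}

theorem nullst {K : Type} [Field K] [Algebra ℂ K] {x : Fin (n + 1) → K} {y : Fin r → K}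
    (hP : PtK X x y) {H : Poly n r}
    (h : ∀ v ∈ X.Pts, (∀ F : Poly n r, evK x y F = 0 → ev v F = 0) → ev v H = 0) :
    evK x y H = 0 := by
  have h1 := MvPolynomial.vanishingIdeal_zeroLocus_eq_radical (K := ℂ)
    (RingHom.ker (MvPolynomial.aeval (Sum.elim x y) : Poly n r →ₐ[ℂ] K))
  have hprime : (RingHom.ker (MvPolynomial.aeval (Sum.elim x y) :
      Poly n r →ₐ[ℂ] K)).IsPrime := RingHom.ker_isPrime _
  rw [hprime.radical] at h1
  have hmem : ∀ H : Poly n r, H ∈ RingHom.ker (MvPolynomial.aeval (Sum.elim x y) :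
      Poly n r →ₐ[ℂ] K) ↔ evK x y H = 0 := fun H => by
    rw [RingHom.mem_ker]
    rfl
  obtain ⟨j0, hj0⟩ := Function.ne_iff.1 hP.ne
  have h2 : lpoly n r (LinearMap.proj j0) * H ∈
      RingHom.ker (MvPolynomial.aeval (Sum.elim x y) : Poly n r →ₐ[ℂ] K) := by
    rw [← h1, MvPolynomial.mem_vanishingIdeal_iff]
    intro z hz
    rw [MvPolynomial.mem_zeroLocus_iff] at hz
    obtain ⟨v, rfl⟩ : ∃ v : (Fin (n + 1) → ℂ) × (Fin r → ℂ), z = Sum.elim v.1 v.2 :=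
      ⟨(fun j => z (Sum.inl j), fun k => z (Sum.inr k)), by
        funext i
        rcases i with j | k <;> rfl⟩
    have hev : ∀ H : Poly n r, MvPolynomial.aeval (Sum.elim v.1 v.2) H = ev v H := fun H => by
      unfold ev
      rw [MvPolynomial.aeval_eq_eval]
    rw [map_mul, hev, hev, ev_lpoly]
    by_cases ha : v.1 j0 = 0
    · change v.1 j0 * _ = 0
      rw [ha, zero_mul]
    have hvP : v ∈ X.Pts := by
      refine ⟨fun h0 => ha (by rw [h0]; rfl), fun k => ?_⟩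
      have h7 := hz (epoly X k) ((hmem _).2 (by rw [evK_epoly, hP.mem k, sub_self]))
      rw [hev, ev_epoly] at h7
      exact sub_eq_zero.1 h7
    rw [h v hvP fun F hF => by
      have h3 := hz F ((hmem _).2 hF)
      rwa [hev] at h3, mul_zero]
  rw [hmem, evK_mul, evK_lpoly] at h2
  rcases mul_eq_zero.1 h2 with h3 | h3
  · have h4 : lf (LinearMap.proj j0 : Form n) x = x j0 := by
      unfold lf
      rw [Finset.sum_eq_single j0]
      · simp
      · intro i _ hi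
        simp [Ne.symm hi]
      · intro h
        exact absurd (Finset.mem_univ j0) h
    rw [h4] at h3
    exact absurd h3 hj0
  · exact h3

theorem LinMod.mono' {R R' : ℕ} (h : R ≤ R') {Δ : Set ((Fin (n + 1) → ℂ) × (Fin r → ℂ))}
    (hL : LinMod X R Δ) : LinMod X R' Δ := by
  intro L _ _ _ x y hP hM
  refine (hL L x y hP hM).trans (mul_le_mul_of_nonneg_right ?_ (le_max_right _ _))
  exact_mod_cast h

/-- **Hyperbolicity modulo a closed subset.** -/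
theorem mod_tfae' (hCUR : S_CUR) (n q : ℕ) : ∃ R : ℕ, 0 < R ∧ ∀ R' ≥ R,
    ∀ {r : ℕ} {X : Cover n q r}, Big X → X.Free →
    ∀ Δ, ClosedIn X Δ → [∀ v, X.Split v → v ∈ Δ, BrodyMod X Δ, VarMod X Δ, PointedMod X Δ,
      PointedLine X Δ, BddMod X Δ, LinMod X R' Δ, SubMod X Δ, GmMod X Δ, RatMod X Δ].TFAE := by
  obtain ⟨R, hR, h⟩ := mod_tfae n q
  refine ⟨R, hR, fun R' hR' {r X} hB hF Δ hΔ => ?_⟩
  have ht := h hB hF Δ hΔ
  tfae_have 1 ↔ 2 := ht.out 0 1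
  tfae_have 1 ↔ 4 := ht.out 0 2
  tfae_have 1 ↔ 5 := ht.out 0 3
  tfae_have 1 ↔ 6 := ht.out 0 4
  tfae_have 1 ↔ 8 := ht.out 0 6
  tfae_have 1 ↔ 9 := ht.out 0 7
  tfae_have 1 ↔ 10 := ht.out 0 8
  tfae_have 1 → 7 := fun h1 => LinMod.mono' hR' ((ht.out 0 5).1 h1)
  tfae_have 7 → 6 := fun h L _ _ _ => ⟨_, fun x y hP hM => h L x y hP hM⟩
  tfae_have 7 → 3 := fun h => var_of_lin hCUR hF hΔ h
  tfae_have 3 → 1 := fun h v hv => split_of_var h hv
  tfae_finish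

theorem split_of_bdd {Δ : Set ((Fin (n + 1) → ℂ) × (Fin r → ℂ))} (hΔ : ClosedIn X Δ)
    (h : BddMod X Δ) {v : (Fin (n + 1) → ℂ) × (Fin r → ℂ)} (hv : X.Split v) : v ∈ Δ := by
  refine hΔ.sub hv.1 fun G hG hE => ?_
  by_contra hne
  obtain ⟨B, hB⟩ := h (RatFunc ℂ)
  obtain ⟨c, p, h1, h2, h3⟩ := split_curves hv
  have h4 := hB (p (B.toNat + 1)).1 (p (B.toNat + 1)).2 (h1 _) (fun hM => hne (by
    have h5 := HasVal.aeval (z := Sum.elim (p (B.toNat + 1)).1 (p (B.toNat + 1)).2)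
      (v := Sum.elim v.1 v.2) (fun i => by
        rcases i with j | k
        · exact (h2 _).1 j
        · exact (h2 _).2 k) G
    have h6 : MvPolynomial.aeval (Sum.elim (p (B.toNat + 1)).1 (p (B.toNat + 1)).2) G = 0 :=
      hM G hG hE
    rw [h6] at h5
    exact h5.zero_of))
  have h7 := h3 (B.toNat + 1)
  have h8 := Int.self_le_toNat B
  push_cast at h7
  linarith

theorem closed_spH : ClosedIn X X.SpH :=
  ⟨{G | X.Hom G ∧ ∀ x y, X.EntireCurve x y → ∀ z, ev (x z, y z) G = 0}, fun G hG => hG.1, by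
    ext v
    constructor
    · rintro ⟨h1, h2⟩
      exact ⟨h1, fun G hG => h2 G hG.1 hG.2⟩
    · rintro ⟨h1, h2⟩
      exact ⟨h1, fun G hG hE => h2 G ⟨hG, hE⟩⟩⟩

theorem closed_spAlg : ClosedIn X (SpAlg X) :=
  ⟨{G | X.Hom G ∧ ∀ (K : Type) [Field K] [Algebra ℂ K] (w : ℕ) (x : Fin (n + 1) → K)
    (y : Fin r → K), 1 ≤ w → SubVar X K w x y → ¬ GeneralType ℂ K w → evK x y G = 0},
    fun G hG => hG.1, by
    ext v
    constructor
    · rintro ⟨h1, h2⟩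
      exact ⟨h1, fun G hG => h2 G hG.1 hG.2⟩
    · rintro ⟨h1, h2⟩
      exact ⟨h1, fun G hG hE => h2 G ⟨hG, hE⟩⟩⟩

/-- every subvariety which is not of general type is contained in the special set -/
theorem sub_spAlg : SubMod X (SpAlg X) := by
  intro K _ _ w x y hw hV hM
  by_contra hgt
  apply hM
  intro G hG hE
  refine nullst hV.pt fun v hv hF => hE v ⟨hv, fun H hH hK => hF H ?_⟩
  exact hK K w x y hw hV hgt

/-- **General type and hyperbolicity modulo a closed subset.** -/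
theorem gen_tfae_mult (hCUR : S_CUR) (n q : ℕ) (hn : 1 ≤ n) : ∃ R : ℕ, 0 < R ∧ ∀ R' ≥ R,
    ∀ {r : ℕ} {X : Cover n q r} {m : ℕ}, n * (n + 1) * (n + 2) < 2 * m →
    Pool.Agent.TH152.AC.Mult X m → X.Free → ∀ {K : Type} [Field K] [Algebra ℂ K]
    {x : Fin (n + 1) → K} {y : Fin r → K}, X.FunctionField K x y →
    [GeneralType ℂ K n, Pseudo X (BrodyMod X), Pseudo X (VarMod X), Pseudo X (PointedMod X),
      Pseudo X (PointedLine X), Pseudo X (BddMod X), Pseudo X (LinMod X R'), Pseudo X (SubMod X),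
      Pseudo X (GmMod X), Pseudo X (RatMod X), ¬ Reducible X.ℓ].TFAE := by
  obtain ⟨R, hR, hlin⟩ := lin_mult n q hn
  refine ⟨R, hR, fun R' hR' {r X m} hm hM hF K _ _ x y hK => ?_⟩
  have ht := gen_tfae' hn hm hM hF hK
  -- split points
  have key : ∀ Q : Set ((Fin (n + 1) → ℂ) × (Fin r → ℂ)) → Prop,
      (∀ Δ, ClosedIn X Δ → Q Δ → ∀ v, X.Split v → v ∈ Δ) → Pseudo X Q → ¬ Reducible X.ℓ := by
    rintro Q hQ ⟨Δ, hΔ, h1, h2⟩ hred
    apply h1
    refine Set.Subset.antisymm ?_ ?_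
    · obtain ⟨A, -, rfl⟩ := hΔ
      exact fun v hv => hv.1
    · intro v hv
      rw [← split_dense hred hK] at hv
      exact hΔ.sub hv.1 fun G hG hE => hv.2 G hG fun u hu => hE u (hQ Δ hΔ h2 u hu)
  have hmono : ∀ Q Q' : Set ((Fin (n + 1) → ℂ) × (Fin r → ℂ)) → Prop,
      (∀ Δ, ClosedIn X Δ → Q Δ → Q' Δ) → Pseudo X Q → Pseudo X Q' := by
    rintro Q Q' h ⟨Δ, hΔ, h1, h2⟩
    exact ⟨Δ, hΔ, h1, h Δ hΔ h2⟩
  have hGm : ∀ Δ, ClosedIn X Δ → GmMod X Δ → ∀ v, X.Split v → v ∈ Δ := by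
    intro Δ hΔ h v hv
    have h1 : v ∈ X.SpGm := X.spSplit_sub ⟨hv.1, fun G _ hE => hE v hv⟩
    exact hΔ.sub h1.1 fun G hG hE => h1.2 G hG fun P Q hPQ t ht => hE _ (h P Q hPQ t ht)
  tfae_have 1 ↔ 11 := ht.out 0 1
  tfae_have 11 → 7 := fun h => hmono _ _ (fun Δ _ hL => hL.mono' hR') (hlin hm hM hF h)
  tfae_have 7 → 6 := hmono _ _ fun Δ _ h L _ _ _ => ⟨_, fun x y hP hM => h L x y hP hM⟩
  tfae_have 6 → 11 := key _ fun Δ hΔ h v hv => split_of_bdd hΔ h hv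
  tfae_have 7 → 3 := hmono _ _ fun Δ hΔ h => var_of_lin hCUR hF hΔ h
  tfae_have 3 → 11 := key _ fun Δ _ h v hv => split_of_var h hv
  tfae_have 7 → 4 := hmono _ _ fun Δ hΔ h => pointed_of_lin hF hΔ h
  tfae_have 4 → 5 := hmono _ _ fun Δ _ h c v hv hvΔ => h (RatFunc ℂ) c v hv hvΔ
  tfae_have 5 → 11 := key _ fun Δ _ h v hv => by
    by_contra hcon
    obtain ⟨c, hc⟩ := inf_pointed hv
    exact hc (h c v hv.1 hcon)
  tfae_have 11 → 8 := fun h => ⟨SpAlg X, closed_spAlg, (ht.out 1 2).1 h, sub_spAlg⟩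
  tfae_have 8 → 11 := key _ fun Δ hΔ h v hv => by
    have h1 : v ∈ SpAlg X := spSplit_sub_alg hF ⟨hv.1, fun G _ hE => hE v hv⟩
    refine hΔ.sub h1.1 fun G hG hE => h1.2 G hG fun K _ _ w x y hw hV hgt => ?_
    by_contra hne
    exact hgt (h K w x y hw hV fun hM => hne (hM G hG hE))
  tfae_have 11 → 2 := fun h => ⟨X.SpH, closed_spH, (ht.out 1 4).1 h,
    fun x y hxy z => ⟨hxy.mem z, fun G _ hE => hE x y hxy z⟩⟩
  tfae_have 2 → 9 := hmono _ _ fun Δ hΔ h P Q hPQ t ht => by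
    have h1 : at' P Q t ∈ X.SpH := X.spGm_sub ⟨hPQ.mem t ht, fun G _ hE => hE P Q hPQ t ht⟩
    exact hΔ.sub h1.1 fun G hG hE => h1.2 G hG fun x y hxy z => hE _ (h x y hxy z)
  tfae_have 9 → 11 := key _ hGm
  tfae_have 2 → 10 := hmono _ _ fun Δ _ h P Q hPQ t => h _ _
    (⟨fun j => (P j).differentiable, fun k => (Q k).differentiable, hPQ.mem, hPQ.nonconst⟩ :
      X.EntireCurve (fun z j => (P j).eval z) (fun z k => (Q k).eval z)) t
  tfae_have 10 → 11 := key _ fun Δ _ h v hv => by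
    obtain ⟨P, Q, hPQ, h1⟩ := rat_through hv
    rw [← h1]
    exact h P Q hPQ 1
  tfae_finish

/-- large exponents imply large multiplicities -/
theorem big_mult (hB : Big X) (hU : ∀ i, ∃ k, 0 < X.e k i) :
    ∃ m, n * (n + 1) * (n + 2) < 2 * m ∧ Pool.Agent.TH152.AC.Mult X m := by
  obtain ⟨N, hN⟩ : ∃ N, N = n * (n + 1) * (n + 2) := ⟨_, rfl⟩
  refine ⟨N / 2 + 1, by omega, fun v hv _ hdiv => ?_⟩
  obtain ⟨i0, hi0⟩ := Function.ne_iff.1 hv
  change v i0 ≠ 0 at hi0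
  obtain ⟨k, hk⟩ := hU i0
  by_contra hcon
  push Not at hcon
  have h1 : 0 < ∑ i, X.e k i * v i :=
    lt_of_lt_of_le (Nat.mul_pos hk (Nat.pos_of_ne_zero hi0))
      (Finset.single_le_sum (f := fun i => X.e k i * v i) (fun _ _ => Nat.zero_le _)
        (Finset.mem_univ i0))
  have h2 := Nat.le_of_dvd h1 (hdiv k)
  have h3 : ∑ i, X.e k i * v i ≤ (∑ i, X.e k i) * (N / 2) := by
    rw [Finset.sum_mul]
    exact Finset.sum_le_sum fun i _ => Nat.mul_le_mul_left _ (by have := hcon i; omega)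
  have h4 := hB k
  rw [← hN] at h4
  have h5 : 2 * ((∑ i, X.e k i) * (N / 2)) ≤ N * ∑ i, X.e k i := by
    calc 2 * ((∑ i, X.e k i) * (N / 2)) = (2 * (N / 2)) * ∑ i, X.e k i := by ring
      _ ≤ N * ∑ i, X.e k i := Nat.mul_le_mul_right _ (Nat.mul_div_le N 2)
  omega

end Pool.Agent.TH152.BB
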