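import Pool.Agent.TH152.BB.Mod
import Pool.Agent.TH152.CV.GenM

/-!
Abelian covers of projective space with large multiplicities: degrees of curves.
-/

set_option autoImplicit false

namespace Pool.Agent.TH152.BB

open FF Pool.Agent.W603.LV Pool.Agent.W603.PV Pool.Agent.W602.Cov Pool.Agent.W602.Cov.Cover
open Pool.Agent.TH152.CV Pool.Agent.TH152.HY Pool.Agent.W602.Cov.G Pool.Agent.W602.GT
open Pool.Agent.TH152.DS
open IntermediateField

variable {n q r : ℕ} {X : Cover n q r}

/-- subvarieties outside of the exceptional set -/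
theorem sub_eff (n q : ℕ) (hn : 1 ≤ n) : ∃ R : ℕ, 0 < R ∧ ∀ {r : ℕ} {X : Cover n q r} {m : ℕ},
    n * (n + 1) * (n + 2) < 2 * m → Pool.Agent.TH152.AC.Mult X m → X.Free → ¬ Reducible X.ℓ →
    ∀ {K : Type} [Field K] [Algebra ℂ K] {w : ℕ} {x : Fin (n + 1) → K} {y : Fin r → K}, 1 ≤ w →
    PtK X x y → Algebra.IsAlgebraic (Pool.Agent.W602.GT.coords ℂ x) K → Algebra.trdeg ℂ K = w →
    (∀ i, lf (X.ℓ i) x ≠ 0) → (∀ κ : Finset (Fin q), κ.Nonempty → κ ≠ Finset.univ →
      ∃ φ : Form n, Flat X.ℓ κ ⊔ Flat X.ℓ κᶜ ≤ LinearMap.ker φ ∧ lf φ x ≠ 0) →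
    Effective K R w (fun _ => False) x := by
  classical
  obtain ⟨R, hR0, hmain⟩ := sub_uniform' n q hn
  refine ⟨R, hR0, ?_⟩
  intro r X m hm hR hF hirr K _ _ w x y hw hV halg hdim hl hflat
  exact hmain hirr hm hw hV.ne hl hflat hdim halg (fun _ => False)
    (fun P _ _ a v hge hi hv hv0 => by
      obtain ⟨i0, hi0⟩ := hi
      let W : Submodule ℂ (Form n) :=
        { carrier := {φ | Ge P (a + 1) (lf φ x)}
          add_mem' := by
            intro φ ψ hφ hψ
            have e : lf (φ + ψ) x = lf φ x + lf ψ x := by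
              unfold lf
              rw [← Finset.sum_add_distrib]
              refine Finset.sum_congr rfl fun j _ => ?_
              rw [LinearMap.add_apply, map_add]
              ring
            change Ge P (a + 1) (lf (φ + ψ) x)
            rw [e]
            exact Ge.add hφ hψ
          zero_mem' := by
            change Ge P (a + 1) (lf (0 : Form n) x)
            have e : lf (0 : Form n) x = 0 := by simp [lf]
            rw [e]
            exact Or.inl rfl
          smul_mem' := by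
            intro c φ hφ
            have e : lf (c • φ) x = algebraMap ℂ K c * lf φ x := by
              unfold lf
              rw [Finset.mul_sum]
              refine Finset.sum_congr rfl fun j _ => ?_
              rw [LinearMap.smul_apply, smul_eq_mul, map_mul]
              ring
            change Ge P (a + 1) (lf (c • φ) x)
            rw [e]
            have h1 := (Ge.const (P := P) c).mul hφ
            rwa [zero_add] at h1 }
      have hsp : Submodule.span ℂ (X.ℓ '' {i | v i ≠ 0}) ≠ ⊤ := by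
        intro htop
        have h1 : Submodule.span ℂ (X.ℓ '' {i | v i ≠ 0}) ≤ W := by
          rw [Submodule.span_le]
          rintro _ ⟨i, hi, rfl⟩
          change Ge P (a + 1) (lf (X.ℓ i) x)
          right
          rw [hv i]
          have h2 : 1 ≤ v i := Nat.one_le_iff_ne_zero.2 hi
          have h3 : (1 : ℤ) ≤ v i := by exact_mod_cast h2
          linarith
        rw [htop] at h1
        have h2 : X.ℓ i0 ∈ W := h1 trivial
        have h3 : Ge P (a + 1) (lf (X.ℓ i0) x) := h2
        have h4 := h3.resolve_left (hl i0)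
        rw [hi0] at h4
        omega
      obtain ⟨u, hu0, hu⟩ := Pool.Agent.W33.CG.FRE.exists_common X.ℓ {i | v i ≠ 0} hsp
      refine hR v hv0 ⟨u, hu0, fun i hi => hu i hi⟩ fun k => ?_
      have hyk : y k ≠ 0 := by
        intro hyk
        have h2 := hV.mem k
        rw [hyk, zero_pow (X.hm k).ne'] at h2
        obtain ⟨i, -, hi⟩ := Finset.prod_eq_zero_iff.1 h2.symm
        have h3 : X.e k i ≠ 0 := by
          intro h3
          rw [h3, pow_zero] at hi
          exact one_ne_zero hi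
        exact hl i (pow_eq_zero_iff h3 |>.1 hi)
      exact compat hF hV P a v hu0 (fun i h => absurd h (hl i)) (fun i hi => hu i hi)
        (fun _ _ i _ => hv i) k hyk)

/-- degrees of curves outside of the exceptional set -/
theorem deg_mult (n q : ℕ) (hn : 1 ≤ n) : ∃ R : ℕ, 0 < R ∧ ∀ {r : ℕ} {X : Cover n q r} {m : ℕ},
    n * (n + 1) * (n + 2) < 2 * m → Pool.Agent.TH152.AC.Mult X m → X.Free → ¬ Reducible X.ℓ →
    ∀ {K : Type} [Field K] [Algebra ℂ K] [IsFF ℂ K] {x : Fin (n + 1) → K} {y : Fin r → K},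
    PtK X x y → (∀ i, lf (X.ℓ i) x ≠ 0) → (∀ κ : Finset (Fin q), κ.Nonempty → κ ≠ Finset.univ →
      ∃ φ : Form n, Flat X.ℓ κ ⊔ Flat X.ℓ κᶜ ≤ LinearMap.ker φ ∧ lf φ x ≠ 0) →
    pht ℂ x ≤ R * max (canDeg ℂ K) 0 := by
  obtain ⟨R, hR, hmain⟩ := sub_eff n q hn
  refine ⟨R, hR, ?_⟩
  intro r X m hm hM hF hirr K _ _ _ x y h hl hflat
  have h0 : (0 : ℤ) ≤ R * max (canDeg ℂ K) 0 := by positivity
  obtain ⟨j0, hj0⟩ := Function.ne_iff.1 h.ne
  by_cases hnc : ∃ i j, x j ≠ 0 ∧ x i / x j ∉ Set.range (algebraMap ℂ K)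
  · obtain ⟨i1, j1, hj1, hij1⟩ := hnc
    have htrans : Transcendental ℂ (x i1 / x j1) := fun h => hij1 (mem_range_of_alg h)
    have halg : Algebra.IsAlgebraic (Pool.Agent.W602.GT.coords ℂ x) K := by
      have h4 := (IsFF.basis (k := ℂ) htrans).isAlgebraic_field
      refine HY.alg_mono ?_ h4
      rw [IntermediateField.adjoin_le_iff]
      rintro _ ⟨u, rfl⟩
      exact IntermediateField.subset_adjoin ℂ _ ⟨i1, j1, hj1, rfl⟩
    have h1 := hmain hm hM hF hirr (w := 1) le_rfl h halg
      (by rw [IsFF.trdeg (k := ℂ) (K := K)]; norm_num) hl hflat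
    have h2 := deg_bound (b := x) ⟨j0, hj0⟩ h1 ∅ (fun P _ h => h)
    have h3 : pht ℂ x ≤ R * canDeg ℂ K := by simpa [euler] using h2
    exact h3.trans (mul_le_mul_of_nonneg_left (le_max_left _ _) (by positivity))
  · push Not at hnc
    exact (pht_const ⟨j0, hj0⟩ hnc).trans h0

/-- **Degrees modulo a proper closed subset.** -/
theorem lin_mult (n q : ℕ) (hn : 1 ≤ n) : ∃ R : ℕ, 0 < R ∧ ∀ {r : ℕ} {X : Cover n q r} {m : ℕ},
    n * (n + 1) * (n + 2) < 2 * m → Pool.Agent.TH152.AC.Mult X m → X.Free → ¬ Reducible X.ℓ →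
    Pseudo X (LinMod X R) := by
  obtain ⟨R, hR, hmain⟩ := deg_mult n q hn
  refine ⟨R, hR, ?_⟩
  intro r X m hm hM hF hirr
  classical
  have hlam : ∀ κ : Finset (Fin q), ∃ φ : Form n, φ ≠ 0 ∧
      (κ.Nonempty → κ ≠ Finset.univ → Flat X.ℓ κ ⊔ Flat X.ℓ κᶜ ≤ LinearMap.ker φ) := by
    intro κ
    by_cases hκ : κ.Nonempty ∧ κ ≠ Finset.univ
    · obtain ⟨φ, h1, h2⟩ := Submodule.exists_le_ker_of_lt_top _
        (lt_top_iff_ne_top.mpr (flat_ne_top X.hℓ hirr hκ.1 hκ.2))
      exact ⟨φ, h1, fun _ _ => h2⟩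
    · refine ⟨LinearMap.proj 0, ?_, fun h1 h2 => absurd ⟨h1, h2⟩ hκ⟩
      intro h0
      have := congrArg (fun f : Form n => f (Pi.single 0 1)) h0
      simp at this
  choose lam hlam0 hlam using hlam
  let G : Poly n r := lin r (LinearMap.proj 0) * ((∏ i, lin r (X.ℓ i)) *
    ∏ κ : Finset (Fin q), lin r (lam κ))
  have hp0 : (LinearMap.proj 0 : Form n) ≠ 0 := by
    intro h0
    have := congrArg (fun f : Form n => f (Pi.single 0 1)) h0
    simp at this
  have hG0 : G ≠ 0 := mul_ne_zero (lin_ne hp0) (mul_ne_zero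
    (Finset.prod_ne_zero_iff.mpr fun i _ => lin_ne (X.hℓ i))
    (Finset.prod_ne_zero_iff.mpr fun κ _ => lin_ne (hlam0 κ)))
  have hGev : ∀ v : (Fin (n + 1) → ℂ) × (Fin r → ℂ), ev v G
      = v.1 0 * ((∏ i, X.ℓ i v.1) * ∏ κ : Finset (Fin q), lam κ v.1) := by
    intro v
    simp only [G, ev_mul, ev_prod, ev_lin]
    rfl
  have hGhom : X.Hom G := ⟨_, (X.lin_hom _).mul
    ((MvPolynomial.IsWeightedHomogeneous.prod _ _ _ fun i _ => X.lin_hom _).mul
      (MvPolynomial.IsWeightedHomogeneous.prod _ _ _ fun κ _ => X.lin_hom _))⟩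
  obtain ⟨v, hv, hvG⟩ : ∃ v ∈ X.Pts, ev v G ≠ 0 := by
    have h1 : ∃ u : Fin (n + 1) ⊕ Fin r → ℂ, MvPolynomial.eval u G ≠ 0 := by
      by_contra hcon
      push Not at hcon
      exact hG0 (MvPolynomial.funext fun u => by rw [hcon u, map_zero])
    obtain ⟨u, hu⟩ := h1
    set x : Fin (n + 1) → ℂ := fun j => u (Sum.inl j) with hx
    have hu2 : ev (x, fun k => u (Sum.inr k)) G ≠ 0 := by
      unfold ev
      have : Sum.elim x (fun k => u (Sum.inr k)) = u := by
        funext j
        cases j <;> rfl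
      rw [this]
      exact hu
    rw [hGev] at hu2
    have hroot : ∀ k, ∃ t : ℂ, t ^ X.m k = ∏ i, X.ℓ i x ^ X.e k i := fun k =>
      IsAlgClosed.exists_pow_nat_eq _ (X.hm k)
    choose t ht using hroot
    refine ⟨(x, t), ⟨?_, ht⟩, by rw [hGev]; exact hu2⟩
    rintro h0
    apply hu2
    change x = 0 at h0
    rw [h0]
    simp
  refine ⟨{v | v ∈ X.Pts ∧ ∀ G' ∈ ({G} : Set (Poly n r)), ev v G' = 0}, ⟨{G}, ?_, rfl⟩, ?_, ?_⟩
  · rintro G' rfl
    exact hGhom
  · intro h
    rw [← h] at hv
    exact hvG (hv.2 G rfl)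
  · intro L _ _ _ x y hP hMI
    have hne : evK x y G ≠ 0 := by
      intro h0
      apply hMI
      intro H hH hE
      -- `H` vanishes at the zeros of `G` in `X`
      by_contra hne
      have h1 := MvPolynomial.vanishingIdeal_zeroLocus_eq_radical (K := ℂ)
        (RingHom.ker (MvPolynomial.aeval (Sum.elim x y) : Poly n r →ₐ[ℂ] L))
      have hprime : (RingHom.ker (MvPolynomial.aeval (Sum.elim x y) :
          Poly n r →ₐ[ℂ] L)).IsPrime := RingHom.ker_isPrime _
      rw [hprime.radical] at h1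
      have hmem : ∀ H : Poly n r, H ∈ RingHom.ker (MvPolynomial.aeval (Sum.elim x y) :
          Poly n r →ₐ[ℂ] L) ↔ evK x y H = 0 := fun H => by
        rw [RingHom.mem_ker]
        rfl
      obtain ⟨j0, hj0⟩ := Function.ne_iff.1 hP.ne
      have h2 : lpoly n r (LinearMap.proj j0) * H ∈
          RingHom.ker (MvPolynomial.aeval (Sum.elim x y) : Poly n r →ₐ[ℂ] L) := by
        rw [← h1, MvPolynomial.mem_vanishingIdeal_iff]
        intro z hz
        rw [MvPolynomial.mem_zeroLocus_iff] at hz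
        obtain ⟨v, rfl⟩ : ∃ v : (Fin (n + 1) → ℂ) × (Fin r → ℂ), z = Sum.elim v.1 v.2 :=
          ⟨(fun j => z (Sum.inl j), fun k => z (Sum.inr k)), by
            funext i
            rcases i with j | k <;> rfl⟩
        have hev : ∀ H : Poly n r, MvPolynomial.aeval (Sum.elim v.1 v.2) H = ev v H := fun H => by
          unfold ev
          rw [MvPolynomial.aeval_eq_eval]
        rw [map_mul, hev, hev, ev_lpoly]
        by_cases ha : v.1 j0 = 0
        · change v.1 j0 * _ = 0
          rw [ha, zero_mul]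
        have hvP : v ∈ X.Pts := by
          refine ⟨fun h0 => ha (by rw [h0]; rfl), fun k => ?_⟩
          have h7 := hz (epoly X k) ((hmem _).2 (by rw [evK_epoly, hP.mem k, sub_self]))
          rw [hev, ev_epoly] at h7
          exact sub_eq_zero.1 h7
        have h3 := hz G ((hmem _).2 h0)
        rw [hev] at h3
        rw [hE v ⟨hvP, fun G' hG' => by rw [hG']; exact h3⟩, mul_zero]
      rw [hmem, evK_mul, evK_lpoly] at h2
      rcases mul_eq_zero.1 h2 with h3 | h3
      · have h4 : lf (LinearMap.proj j0 : Form n) x = x j0 := by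
          unfold lf
          rw [Finset.sum_eq_single j0]
          · simp
          · intro i _ hi
            simp [Ne.symm hi]
          · intro h
            exact absurd (Finset.mem_univ j0) h
        rw [h4] at h3
        exact hj0 h3
      · exact hne h3
    have hlin : ∀ θ : Form n, evK x y (lin r θ) = lf θ x := fun θ => evK_lpoly θ x y
    have hGK : evK x y G = lf (LinearMap.proj 0) x * ((∏ i, lf (X.ℓ i) x) *
        ∏ κ : Finset (Fin q), lf (lam κ) x) := by
      have hprod : ∀ {ι : Type} (s : Finset ι) (F : ι → Poly n r),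
          evK x y (∏ i ∈ s, F i) = ∏ i ∈ s, evK x y (F i) := by
        intro ι s F
        unfold evK
        rw [map_prod]
      simp only [G, evK_mul, hprod, hlin]
    rw [hGK] at hne
    have h1 := right_ne_zero_of_mul hne
    have h2 := Finset.prod_ne_zero_iff.1 (left_ne_zero_of_mul h1)
    have h3 := Finset.prod_ne_zero_iff.1 (right_ne_zero_of_mul h1)
    exact hmain hm hM hF hirr hP (fun i => h2 i (Finset.mem_univ i))
      fun κ hκ1 hκ2 => ⟨lam κ, hlam κ hκ1 hκ2, h3 κ (Finset.mem_univ κ)⟩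

end Pool.Agent.TH152.BB
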