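import Pool.Agent.TH152.BB.Val

/-!
Pointed maps from curves to abelian covers of projective space: normalized coordinates.
-/

set_option autoImplicit false

namespace Pool.Agent.TH152.BB

open FF Pool.Agent.W603.LV Pool.Agent.W603.PV Pool.Agent.W602.Cov Pool.Agent.W602.Cov.Cover
open Pool.Agent.TH152.CV Pool.Agent.TH152.HY Pool.Agent.W602.Cov.G

theorem prod_zpow_sum {K : Type} [Field K] {ι : Type*} (s : Finset ι) {t : K} (ht : t ≠ 0)
    (f : ι → ℤ) : ∏ i ∈ s, t ^ f i = t ^ ∑ i ∈ s, f i := by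
  classical
  induction s using Finset.induction_on with
  | empty => simp
  | insert i s hi ih => rw [Finset.prod_insert hi, Finset.sum_insert hi, ih, zpow_add₀ ht]

theorem prod_zpow' {K : Type} [Field K] {ι : Type*} (s : Finset ι) (f : ι → K) (N : ℤ) :
    (∏ i ∈ s, f i) ^ N = ∏ i ∈ s, f i ^ N := by
  classical
  induction s using Finset.induction_on with
  | empty => simp
  | insert i s hi ih => rw [Finset.prod_insert hi, Finset.prod_insert hi, mul_zpow, ih]

section nrm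

variable {n q r : ℕ} (X : Cover n q r) (j0 : Fin (n + 1)) (a : ℤ) (b : Fin r → ℤ)
  {K : Type} [Field K]

/-- the monomial of weight one -/
noncomputable def mono (p : (Fin (n + 1) → K) × (Fin r → K)) : K := p.1 j0 ^ a * ∏ k, p.2 k ^ b k

/-- the action of the multiplicative group -/
def scl (t : K) (p : (Fin (n + 1) → K) × (Fin r → K)) : (Fin (n + 1) → K) × (Fin r → K) :=
  (fun j => t ^ X.d * p.1 j, fun k => t ^ X.w k * p.2 k)

/-- the normalized coordinates -/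
noncomputable def nz (p : (Fin (n + 1) → K) × (Fin r → K)) : (Fin (n + 1) → K) × (Fin r → K) :=
  scl X (mono j0 a b p)⁻¹ p

variable {X j0 a b}

theorem mono_scl (hab : a * X.d + ∑ k, b k * X.w k = 1) {t : K} (ht : t ≠ 0)
    (p : (Fin (n + 1) → K) × (Fin r → K)) :
    mono j0 a b (scl X t p) = t * mono j0 a b p := by
  unfold mono scl
  simp only [mul_zpow]
  rw [Finset.prod_mul_distrib]
  have h1 : ∀ k, (t ^ X.w k) ^ b k = t ^ (b k * X.w k) := by
    intro k
    rw [mul_comm, zpow_mul, zpow_natCast]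
  have h2 : (t ^ X.d) ^ a = t ^ (a * X.d) := by
    rw [mul_comm, zpow_mul, zpow_natCast]
  have h3 : t = t ^ (a * X.d) * ∏ k, t ^ (b k * X.w k) := by
    rw [prod_zpow_sum _ ht, ← zpow_add₀ ht, hab, zpow_one]
  rw [Finset.prod_congr rfl fun k _ => h1 k, h2]
  conv_rhs => rw [h3]
  ring

theorem scl_scl (s t : K) (p : (Fin (n + 1) → K) × (Fin r → K)) :
    scl X s (scl X t p) = scl X (s * t) p := by
  unfold scl
  refine Prod.ext ?_ ?_
  · funext j
    simp only [mul_pow]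
    ring
  · funext k
    simp only [mul_pow]
    ring

theorem nz_scl (hab : a * X.d + ∑ k, b k * X.w k = 1) {t : K} (ht : t ≠ 0)
    (p : (Fin (n + 1) → K) × (Fin r → K)) : nz X j0 a b (scl X t p) = nz X j0 a b p := by
  unfold nz
  rw [mono_scl hab ht, scl_scl, mul_inv, mul_comm t⁻¹, mul_assoc, inv_mul_cancel₀ ht, mul_one]

theorem mono_nz (hab : a * X.d + ∑ k, b k * X.w k = 1) {p : (Fin (n + 1) → K) × (Fin r → K)}
    (hp : mono j0 a b p ≠ 0) : mono j0 a b (nz X j0 a b p) = 1 := by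
  unfold nz
  rw [mono_scl hab (inv_ne_zero hp), inv_mul_cancel₀ hp]

theorem sameK_of_nz [Algebra ℂ K] {p p' : (Fin (n + 1) → K) × (Fin r → K)}
    (hp : mono j0 a b p ≠ 0) (hp' : mono j0 a b p' ≠ 0) (h : nz X j0 a b p = nz X j0 a b p') :
    SameK X p p' := by
  have h1 : p' = scl X (mono j0 a b p' * (mono j0 a b p)⁻¹) p := by
    rw [← scl_scl]
    change p' = scl X _ (nz X j0 a b p)
    rw [h]
    unfold nz
    rw [scl_scl, mul_inv_cancel₀ hp']
    unfold scl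
    simp
  refine ⟨mono j0 a b p' * (mono j0 a b p)⁻¹, mul_ne_zero hp' (inv_ne_zero hp), fun j => ?_,
    fun k => ?_⟩
  · exact congrFun (congrArg Prod.fst h1) j
  · exact congrFun (congrArg Prod.snd h1) k

variable [Algebra ℂ K]

theorem lf_smul' (φ : Form n) (t : K) (x : Fin (n + 1) → K) :
    lf φ (fun j => t * x j) = t * lf φ x := by
  unfold lf
  rw [Finset.mul_sum]
  refine Finset.sum_congr rfl fun j _ => ?_
  ring

theorem ptK_scl {t : K} (ht : t ≠ 0) {p : (Fin (n + 1) → K) × (Fin r → K)} (h : PtK X p.1 p.2) :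
    PtK X (scl X t p).1 (scl X t p).2 := by
  constructor
  · intro h0
    apply h.ne
    funext j
    have h1 := congrFun h0 j
    exact (mul_eq_zero.1 h1).resolve_left (pow_ne_zero _ ht)
  · intro k
    change (t ^ X.w k * p.2 k) ^ X.m k = ∏ i, lf (X.ℓ i) (fun j => t ^ X.d * p.1 j) ^ X.e k i
    simp only [lf_smul', mul_pow]
    rw [Finset.prod_mul_distrib, h.mem k, Finset.prod_pow_eq_pow_sum, ← pow_mul, ← pow_mul,
      mul_comm (X.w k), X.hom k]

/-- the exponent of the coordinate `x j0` in a power of the monomial -/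
def dlt (X : Cover n q r) (a : ℤ) (b : Fin r → ℤ) : ℤ :=
  a * (∏ k, X.m k : ℕ) + ∑ k, (∑ i, X.e k i : ℕ) * (b k * ((∏ k', X.m k') / X.m k : ℕ))

theorem dlt_ne (hab : a * X.d + ∑ k, b k * X.w k = 1) : dlt X a b ≠ 0 := by
  have h1 : (X.d : ℤ) * dlt X a b = (∏ k, X.m k : ℕ) := by
    unfold dlt
    rw [mul_add, Finset.mul_sum]
    have h2 : ∀ k, (X.d : ℤ) * (((∑ i, X.e k i : ℕ) : ℤ) *
        (b k * (((∏ k', X.m k') / X.m k : ℕ) : ℤ))) = (∏ k', X.m k' : ℕ) * (b k * X.w k) := by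
      intro k
      have h3 : X.m k * ((∏ k', X.m k') / X.m k) = ∏ k', X.m k' :=
        Nat.mul_div_cancel' (Finset.dvd_prod_of_mem _ (Finset.mem_univ k))
      have h4 : (X.m k : ℤ) * (X.w k : ℤ) = (X.d : ℤ) * ((∑ i, X.e k i : ℕ) : ℤ) := by
        exact_mod_cast X.hom k
      have h5 : (X.m k : ℤ) * (((∏ k', X.m k') / X.m k : ℕ) : ℤ) = ((∏ k', X.m k' : ℕ) : ℤ) := by
        exact_mod_cast h3
      rw [← h5]
      linear_combination (-(b k : ℤ) * (((∏ k', X.m k') / X.m k : ℕ) : ℤ)) * h4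
    rw [Finset.sum_congr rfl fun k _ => h2 k, ← Finset.mul_sum]
    linear_combination ((∏ k, X.m k : ℕ) : ℤ) * hab
  intro h0
  rw [h0, mul_zero] at h1
  have h2 : 0 < ∏ k, X.m k := Finset.prod_pos fun k _ => X.hm k
  have h3 : ((∏ k, X.m k : ℕ) : ℤ) ≠ 0 := by exact_mod_cast h2.ne'
  exact h3 h1.symm

/-- the relation between the coordinate `x j0` and the ratios of the coordinates -/
theorem nrm_rel {p : (Fin (n + 1) → K) × (Fin r → K)} (h : PtK X p.1 p.2) (hj : p.1 j0 ≠ 0)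
    (hm : mono j0 a b p = 1) : p.1 j0 ^ dlt X a b *
      ∏ k, (∏ i, (lf (X.ℓ i) p.1 / p.1 j0) ^ X.e k i) ^
        (b k * ((∏ k', X.m k') / X.m k : ℕ)) = 1 := by
  have h1 : mono j0 a b p ^ ((∏ k, X.m k : ℕ) : ℤ) = 1 := by rw [hm, one_zpow]
  unfold mono at h1
  rw [mul_zpow, ← zpow_mul, prod_zpow'] at h1
  have h2 : ∀ k, (p.2 k ^ b k) ^ ((∏ k', X.m k' : ℕ) : ℤ) =
      p.1 j0 ^ ((∑ i, X.e k i : ℕ) * (b k * ((∏ k', X.m k') / X.m k : ℕ)) : ℤ) *
      (∏ i, (lf (X.ℓ i) p.1 / p.1 j0) ^ X.e k i) ^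
        (b k * ((∏ k', X.m k') / X.m k : ℕ) : ℤ) := by
    intro k
    have h3 : X.m k * ((∏ k', X.m k') / X.m k) = ∏ k', X.m k' :=
      Nat.mul_div_cancel' (Finset.dvd_prod_of_mem _ (Finset.mem_univ k))
    have h5 : ((∏ k', X.m k' : ℕ) : ℤ) = (X.m k : ℤ) * (((∏ k', X.m k') / X.m k : ℕ) : ℤ) := by
      exact_mod_cast h3.symm
    have h6 : (p.2 k ^ b k) ^ ((∏ k', X.m k' : ℕ) : ℤ) =
        (p.2 k ^ X.m k) ^ (b k * ((∏ k', X.m k') / X.m k : ℕ) : ℤ) := by
      rw [← zpow_mul, h5, ← zpow_natCast, ← zpow_mul]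
      congr 1
      ring
    have h7 : p.2 k ^ X.m k = p.1 j0 ^ ((∑ i, X.e k i : ℕ) : ℤ) *
        ∏ i, (lf (X.ℓ i) p.1 / p.1 j0) ^ X.e k i := by
      rw [h.mem k, zpow_natCast, ← Finset.prod_pow_eq_pow_sum, ← Finset.prod_mul_distrib]
      refine Finset.prod_congr rfl fun i _ => ?_
      rw [← mul_pow, mul_div_cancel₀ _ hj]
    rw [h6, h7, mul_zpow, ← zpow_mul]
  rw [Finset.prod_congr rfl fun k _ => h2 k, Finset.prod_mul_distrib, prod_zpow_sum _ hj] at h1
  rw [← mul_assoc, ← zpow_add₀ hj] at h1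
  exact h1

end nrm

end Pool.Agent.TH152.BB
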