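import Pool.Agent.TH952.HahnClosed
import Pool.Agent.W603.PV.Ext

/-!
Bend and break: infinitely many pointed maps of bounded degree from a curve give a rational curve
through the point. Definitions and statements of the parts.
-/

set_option autoImplicit false

open FF

namespace Pool.Agent.TH152.BB

open Pool.Agent.TH952 (Hah)
open Pool.Agent.W603.LV Pool.Agent.W603.PV

/-- power series in `t` with coefficients in the power series in `s` -/
abbrev O2 (k : Type) [Field k] : Type := PowerSeries (PowerSeries k)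

section defs

variable {k K : Type} [Field k] [Field K]

/-- a homomorphism applied to the coefficients of a Hahn series -/
noncomputable def mp (j : k →+* K) : Hah k →+* Hah K where
  toFun x := x.map j
  map_one' := by
    ext γ
    simp only [HahnSeries.map_coeff, HahnSeries.coeff_one]
    split_ifs <;> simp
  map_mul' x y := HahnSeries.map_mul (j : k →ₙ+* K)
  map_zero' := by
    ext γ
    simp
  map_add' x y := by
    ext γ
    simp

theorem mp_coeff (j : k →+* K) (x : Hah k) (γ : ℚ) : (mp j x).coeff γ = j (x.coeff γ) := rfl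

/-- the evaluation of a power series in `s` at `s = x`, with a homomorphism applied to the
coefficients -/
noncomputable def io (j : k →+* K) : PowerSeries k →+* Hah K :=
  (mp j).comp (HahnSeries.ofPowerSeries ℚ k)

/-- The ring homomorphism `E` is the evaluation of the power series in `s`, `t` at `s = x` (the
uniformizer of the Hahn series) and `t = τ`. -/
structure IsEv (j : k →+* K) (τ : Hah K) (E : O2 k →+* Hah K) : Prop where
  C : ∀ g : PowerSeries k, E (PowerSeries.C g) = io j g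
  X : E PowerSeries.X = τ
  cont : ∀ (f : O2 k) (γ : ℚ) (N : ℕ), γ < N * τ.order →
    (E f).coeff γ = (E (PowerSeries.trunc N f : Polynomial (PowerSeries k))).coeff γ

/-- the coefficient of `y ^ i` in `f (t + y)` -/
noncomputable def hs (i : ℕ) (f : O2 k) : O2 k :=
  PowerSeries.mk fun m => ((m + i).choose i : PowerSeries k) * PowerSeries.coeff (m + i) f

/-- the generic element of the disc with centre `β` and radius `q` -/
noncomputable def dsc (β : Hah k) (q : ℚ) : Hah (RatFunc k) :=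
  mp (RatFunc.C : k →+* RatFunc k) β + HahnSeries.single q RatFunc.X

/-- the homogenization of degree `D` of the polynomial `F`, evaluated at `f0`, `f` -/
noncomputable def hm {R : Type} [CommRing R] [Algebra k R] {N : ℕ} (F : MvPolynomial (Fin N) k)
    (D : ℕ) (f0 : R) (f : Fin N → R) : R :=
  ∑ α ∈ F.support, algebraMap k R (F.coeff α) * (∏ j, f j ^ α j) * f0 ^ (D - ∑ j, α j)

end defs

/-- EV: evaluation. -/
def S_EV : Prop := ∀ (k K : Type) [Field k] [Field K] (j : k →+* K) (τ : Hah K),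
    (∀ γ ≤ 0, τ.coeff γ = 0) → τ ≠ 0 → ∃ E : O2 k →+* Hah K, IsEv j τ E

/-- TAY: the Taylor expansion at the point `β`. -/
def S_TAY : Prop := ∀ (k : Type) [Field k] [CharZero k] (β : Hah k) (q : ℚ),
    (∀ γ ≤ 0, β.coeff γ = 0) → β ≠ 0 → 0 < q → ∀ (E : O2 k →+* Hah k)
    (E' : O2 k →+* Hah (RatFunc k)), IsEv (RingHom.id k) β E → IsEv RatFunc.C (dsc β q) E' →
    ∀ (f : O2 k) (γ : ℚ) (N : ℕ), γ < N * q → (E' f).coeff γ =
      ∑ i ∈ Finset.range N, RatFunc.C ((E (hs i f)).coeff (γ - i * q)) * RatFunc.X ^ i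

/-- LEAD: leading coefficients. -/
def S_LEAD : Prop := ∀ (k K : Type) [Field k] [Field K] (j : k →+* K) (τ : Hah K) (q : ℚ),
    0 < q → (∀ γ < q, τ.coeff γ = 0) → τ ≠ 0 → ∀ E : O2 k →+* Hah K, IsEv j τ E →
    ∀ (f : O2 k) (μ : ℚ), (∀ (i a : ℕ), PowerSeries.coeff a (PowerSeries.coeff i f) ≠ 0 →
      μ ≤ a + i * q) → (∀ γ < μ, (E f).coeff γ = 0) ∧
      ∀ N : ℕ, μ < N * q → (E f).coeff μ = ∑ i ∈ Finset.range N,
        j ((HahnSeries.ofPowerSeries ℚ k (PowerSeries.coeff i f)).coeff (μ - i * q)) *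
          τ.coeff q ^ i

/-- ASC: a critical radius, ascending. -/
def S_ASC : Prop := ∀ (k : Type) [Field k] (N : ℕ) (c0 : ℕ → Hah k) (c : Fin N → ℕ → Hah k)
    (q0 q1 : ℚ), 0 < q0 → q0 < q1 → (∀ l, ∀ γ < 0, (c0 l).coeff γ = 0) →
    (∀ j i, ∀ γ < 0, (c j i).coeff γ = 0) →
    (∀ j i, c j i ≠ 0 → ∃ l, c0 l ≠ 0 ∧ (c0 l).order + l * q0 < (c j i).order + i * q0) →
    (∃ j i, c j i ≠ 0 ∧ ∀ l, c0 l ≠ 0 → (c j i).order + i * q1 ≤ (c0 l).order + l * q1) →
    ∃ q μ : ℚ, q0 < q ∧ q ≤ q1 ∧ (∀ l, c0 l ≠ 0 → μ ≤ (c0 l).order + l * q) ∧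
      (∀ j i, c j i ≠ 0 → μ ≤ (c j i).order + i * q) ∧
      (∃ j i, c j i ≠ 0 ∧ (c j i).order + i * q = μ) ∧
      ∀ j i, c j i ≠ 0 → (c j i).order + i * q = μ →
        ∃ l, c0 l ≠ 0 ∧ (c0 l).order + l * q = μ ∧ i < l

/-- DESC: a critical radius, descending. -/
def S_DESC : Prop := ∀ (k : Type) [Field k] (N : ℕ) (c0 : ℕ → Hah k) (c : Fin N → ℕ → Hah k)
    (q0 q1 : ℚ), 0 < q0 → q0 < q1 → (∀ l, ∀ γ < 0, (c0 l).coeff γ = 0) →
    (∀ j i, ∀ γ < 0, (c j i).coeff γ = 0) →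
    (∀ j i, c j i ≠ 0 → ∃ l, c0 l ≠ 0 ∧ (c0 l).order + l * q1 < (c j i).order + i * q1) →
    (∃ j i, c j i ≠ 0 ∧ ∀ l, c0 l ≠ 0 → (c j i).order + i * q0 ≤ (c0 l).order + l * q0) →
    ∃ q μ : ℚ, q0 ≤ q ∧ q < q1 ∧ (∀ l, c0 l ≠ 0 → μ ≤ (c0 l).order + l * q) ∧
      (∀ j i, c j i ≠ 0 → μ ≤ (c j i).order + i * q) ∧
      (∃ j i, c j i ≠ 0 ∧ (c j i).order + i * q = μ) ∧
      ∀ j i, c j i ≠ 0 → (c j i).order + i * q = μ →
        ∃ l, c0 l ≠ 0 ∧ (c0 l).order + l * q = μ ∧ l < i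

/-- CLM: if some `f j` is not divisible by `f0`, then it is at least as large as `f0` on some
disc. -/
def S_CLM : Prop := ∀ (k : Type) [Field k] [IsAlgClosed k] [CharZero k] (N : ℕ) (f0 : O2 k)
    (f : Fin N → O2 k), f0 ≠ 0 → (∃ j, ¬ f0 ∣ f j) →
    ∃ (β : Hah k) (q : ℚ), (∀ γ ≤ 0, β.coeff γ = 0) ∧ 0 < q ∧
      ∀ E : O2 k →+* Hah (RatFunc k), IsEv RatFunc.C (dsc β q) E →
        ∃ j, E (f j) ≠ 0 ∧ (E f0 = 0 ∨ (E (f j)).order ≤ (E f0).order)

/-- REL: homogeneous relations between the leading coefficients. -/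
def S_REL : Prop := ∀ (k : Type) [Field k] (N : ℕ) (G0 : Hah (RatFunc k))
    (G : Fin N → Hah (RatFunc k)) (μ : ℚ) (P0 : Polynomial k) (P : Fin N → Polynomial k),
    (∀ γ < μ, G0.coeff γ = 0) → (∀ j, ∀ γ < μ, (G j).coeff γ = 0) →
    G0.coeff μ = algebraMap (Polynomial k) (RatFunc k) P0 →
    (∀ j, (G j).coeff μ = algebraMap (Polynomial k) (RatFunc k) (P j)) →
    ∀ (F : MvPolynomial (Fin N) k) (D : ℕ), (∀ α ∈ F.support, ∑ j, α j ≤ D) →
      hm F D G0 G = 0 → hm F D P0 P = 0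

/-- TWO: families of power series. -/
def S_TWO : Prop := ∀ (k : Type) [Field k] [IsAlgClosed k] [CharZero k] (N : ℕ) (f0 : O2 k)
    (f : Fin N → O2 k) (r : ℕ), (∀ i < r, PowerSeries.coeff i f0 = 0) →
    PowerSeries.coeff r f0 ≠ 0 → (∀ j, ∀ i ≤ r, PowerSeries.coeff i (f j) = 0) →
    (∃ j, ¬ f0 ∣ f j) → ∃ (P0 : Polynomial k) (P : Fin N → Polynomial k), P0 ≠ 0 ∧
      (∃ j, P j ≠ 0) ∧ ((∀ j, P j ≠ 0 → (P j).natDegree < P0.natDegree) ∨
        ∀ j, P j ≠ 0 → P0.natTrailingDegree < (P j).natTrailingDegree) ∧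
      ∀ (F : MvPolynomial (Fin N) k) (D : ℕ), (∀ α ∈ F.support, ∑ j, α j ≤ D) →
        hm F D f0 f = 0 → hm F D P0 P = 0

/-- COMP: the expansion of the functions at a place. -/
def S_COMP : Prop := ∀ (k K : Type) [Field k] [IsAlgClosed k] [CharZero k] [Field K] [Algebra k K]
    [IsFF k K] (P : Place k K), ∃ φ : K →+* LaurentSeries k,
      (∀ a, φ (algebraMap k K a) = HahnSeries.C a) ∧ ∀ f, f ≠ 0 → (φ f).order = P.ord f

/-- SPEC: specialization of an infinite family to a function field. -/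
def S_SPEC : Prop := ∀ (k : Type) [Field k] [IsAlgClosed k] [CharZero k] (A : Subalgebra k (ℕ → k)),
    A.FG → ∀ θ : A, (Set.range (θ : ℕ → k)).Infinite →
    ∃ (K : Type) (_ : Field K) (_ : Algebra k K) (_ : IsFF k K) (χ : A →ₐ[k] K),
      Transcendental k (χ θ)

/-- BDD: an infinite family of bounded height has a coefficient that takes infinitely many
values. -/
def S_BDD : Prop := ∀ (k L : Type) [Field k] [IsAlgClosed k] [CharZero k] [Field L] [Algebra k L]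
    [IsFF k L] (c : Place k L) (φ : L →+* LaurentSeries k),
    (∀ a, φ (algebraMap k L a) = HahnSeries.C a) → (∀ f, f ≠ 0 → (φ f).order = c.ord f) →
    ∀ (N : ℕ) (h : ℕ → Fin N → L) (B : ℤ), Function.Injective h →
    (∀ m j, h m j = 0 ∨ 0 < c.ord (h m j)) → (∀ m j, hgt k (h m j) ≤ B) →
    ∃ (j : Fin N) (i : ℤ), (Set.range fun m => (φ (h m j)).coeff i).Infinite

/-- ONE: from families of maps to families of power series. -/
def S_ONE : Prop := ∀ (k L : Type) [Field k] [IsAlgClosed k] [CharZero k] [Field L] [Algebra k L]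
    [IsFF k L] (c : Place k L) (N : ℕ) (h : ℕ → Fin N → L) (B : ℤ), Function.Injective h →
    (∀ m j, h m j = 0 ∨ 0 < c.ord (h m j)) → (∀ m j, hgt k (h m j) ≤ B) →
    ∃ (f0 : O2 k) (f : Fin N → O2 k) (r : ℕ), (∀ i < r, PowerSeries.coeff i f0 = 0) ∧
      PowerSeries.coeff r f0 ≠ 0 ∧ (∀ j, ∀ i ≤ r, PowerSeries.coeff i (f j) = 0) ∧
      (∃ j, ¬ f0 ∣ f j) ∧ ∀ F : MvPolynomial (Fin N) k, (∀ m, MvPolynomial.aeval (h m) F = 0) →
        ∀ D : ℕ, (∀ α ∈ F.support, ∑ j, α j ≤ D) → hm F D f0 f = 0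

/-- **Bend and break.** -/
def S_BB : Prop := ∀ (k L : Type) [Field k] [IsAlgClosed k] [CharZero k] [Field L] [Algebra k L]
    [IsFF k L] (c : Place k L) (N : ℕ) (h : ℕ → Fin N → L) (B : ℤ), Function.Injective h →
    (∀ m j, h m j = 0 ∨ 0 < c.ord (h m j)) → (∀ m j, hgt k (h m j) ≤ B) →
    ∃ (P0 : Polynomial k) (P : Fin N → Polynomial k), P0 ≠ 0 ∧ (∃ j, P j ≠ 0) ∧
      ((∀ j, P j ≠ 0 → (P j).natDegree < P0.natDegree) ∨
        ∀ j, P j ≠ 0 → P0.natTrailingDegree < (P j).natTrailingDegree) ∧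
      ∀ F : MvPolynomial (Fin N) k, (∀ m, MvPolynomial.aeval (h m) F = 0) →
        ∀ D : ℕ, (∀ α ∈ F.support, ∑ j, α j ≤ D) → hm F D P0 P = 0

theorem bb (h1 : S_ONE) (h2 : S_TWO) : S_BB := by
  intro k L _ _ _ _ _ _ c N h B hinj hreg hB
  obtain ⟨f0, f, r, ha, hb, hc, hd, he⟩ := h1 k L c N h B hinj hreg hB
  obtain ⟨P0, P, h3, h4, h5, h6⟩ := h2 k N f0 f r ha hb hc hd
  exact ⟨P0, P, h3, h4, h5, fun F hF D hD => h6 F D hD (he F hF D hD)⟩

end Pool.Agent.TH152.BB
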