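import Pool.Agent.TH152.BB.CDefs
import Pool.Agent.TH152.CV.Hyp
import Pool.Agent.W603.CX.Basic

/-!
Pointed maps from curves to abelian covers of projective space: values, normalized coordinates.
-/

set_option autoImplicit false

namespace Pool.Agent.TH152.BB

open FF Pool.Agent.W603.LV Pool.Agent.W603.PV Pool.Agent.W602.Cov Pool.Agent.W602.Cov.Cover
open Pool.Agent.TH152.CV Pool.Agent.TH152.HY
open IntermediateField

/-- the rational function field has no regular differentials -/
theorem canDeg_ratFunc : canDeg ℂ (RatFunc ℂ) ≤ 0 := by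
  classical
  obtain ⟨t, htd⟩ : ∃ t : RatFunc ℂ, t = RatFunc.X := ⟨_, rfl⟩
  have ht : Transcendental ℂ t := htd ▸ RatFunc.transcendental_X
  have hgt1 : hgt ℂ t = 1 := by
    rw [hgt_eq_finrank ht, htd, RatFunc.adjoin_X]
    simp
  obtain ⟨D0, hD0⟩ := exists_der (k := ℂ) (K := RatFunc ℂ)
  have h0 := der_ne_zero hD0 ht
  obtain ⟨D, hDd⟩ : ∃ D : Derivation ℂ (RatFunc ℂ) (RatFunc ℂ), D = (D0 t)⁻¹ • D0 := ⟨_, rfl⟩
  have hDt : D t = 1 := by
    rw [hDd, Derivation.coe_smul, Pi.smul_apply, smul_eq_mul, inv_mul_cancel₀ h0]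
  have hD : D ≠ 0 := by
    rintro h
    rw [h] at hDt
    simp at hDt
  rw [canDeg_eq hD, neg_nonpos]
  apply finsum_nonneg
  intro P
  by_cases hP : P.ord t < 0
  · have h5 := (ord_der P hD hP.ne).2
    rw [hDt, P.ord_one] at h5
    omega
  · push Not at hP
    obtain ⟨c, hc⟩ := exists_const P (Or.inr hP : Ge P 0 t)
    have h6 : t - algebraMap ℂ (RatFunc ℂ) c ≠ 0 := by
      intro h
      rw [sub_eq_zero] at h
      exact ht (h ▸ isAlgebraic_algebraMap c)
    have h7 := hc.resolve_left h6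
    have h8 := (ord_der P hD (f := t - algebraMap ℂ (RatFunc ℂ) c) (by omega)).2
    rw [map_sub, hDt, Derivation.map_algebraMap, sub_zero, P.ord_one] at h8
    -- the zero is simple
    have h9 : P.ord (t - algebraMap ℂ (RatFunc ℂ) c) ≤ hgt ℂ (t - algebraMap ℂ (RatFunc ℂ) c)⁻¹ := by
      obtain ⟨T, hT⟩ := exists_supp (k := ℂ) (Finset.univ : Finset (Fin 1))
        ![(t - algebraMap ℂ (RatFunc ℂ) c)⁻¹]
      have h1 : ∀ P : Place ℂ (RatFunc ℂ), P.ord (t - algebraMap ℂ (RatFunc ℂ) c)⁻¹ ≠ 0 → P ∈ T :=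
        fun P => hT 0 (Finset.mem_univ _) P
      rw [hgt_finset _ T h1]
      have h2 : P ∈ T := h1 P (by rw [P.ord_inv]; omega)
      have h3 := Finset.single_le_sum (f := fun P : Place ℂ (RatFunc ℂ) =>
        max (-P.ord (t - algebraMap ℂ (RatFunc ℂ) c)⁻¹) 0) (fun _ _ => le_max_right _ _) h2
      refine le_trans ?_ h3
      simp only [P.ord_inv, neg_neg]
      exact le_max_left _ _
    have h10 : hgt ℂ (t - algebraMap ℂ (RatFunc ℂ) c) = 1 := by
      have h11 : Transcendental ℂ (t - algebraMap ℂ (RatFunc ℂ) c) := by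
        intro h
        apply ht
        have := h.add (isAlgebraic_algebraMap c)
        rwa [sub_add_cancel] at this
      rw [hgt_eq_finrank h11]
      have h12 : ℂ⟮t - algebraMap ℂ (RatFunc ℂ) c⟯ = ⊤ := by
        rw [eq_top_iff, ← RatFunc.adjoin_X, ← htd, adjoin_simple_le_iff]
        have h13 := add_mem (mem_adjoin_simple_self ℂ (t - algebraMap ℂ (RatFunc ℂ) c))
          (ℂ⟮t - algebraMap ℂ (RatFunc ℂ) c⟯.algebraMap_mem c)
        rwa [sub_add_cancel] at h13
      rw [h12]
      simp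
    rw [hgt_inv, h10] at h9
    omega

section val

variable {L : Type} [Field L] [Algebra ℂ L] {c : Place ℂ L} {f g : L} {a b : ℂ}

theorem hasVal_iff : HasVal c f a ↔ Ge c 1 (f - algebraMap ℂ L a) := by
  unfold HasVal Ge
  rw [sub_eq_zero]
  constructor
  · rintro (h | h)
    · exact Or.inl h
    · exact Or.inr (by omega)
  · rintro (h | h)
    · exact Or.inl h
    · exact Or.inr (by omega)

theorem HasVal.const (a : ℂ) : HasVal c (algebraMap ℂ L a) a := Or.inl rfl

theorem HasVal.one : HasVal c (1 : L) 1 := Or.inl (map_one _).symm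

theorem HasVal.ge (h : HasVal c f a) : Ge c 0 f := by
  have h1 := (hasVal_iff.1 h).mono (show (0 : ℤ) ≤ 1 by norm_num)
  have h2 := h1.add (Ge.const (P := c) a)
  rwa [sub_add_cancel] at h2

theorem HasVal.mul (hf : HasVal c f a) (hg : HasVal c g b) : HasVal c (f * g) (a * b) := by
  rw [hasVal_iff] at *
  have e : f * g - algebraMap ℂ L (a * b) = (f - algebraMap ℂ L a) * g +
      algebraMap ℂ L a * (g - algebraMap ℂ L b) := by
    rw [map_mul]
    ring
  rw [e]
  have h1 := hf.mul (HasVal.ge (hasVal_iff.2 hg))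
  have h2 := (Ge.const (P := c) a).mul hg
  rw [add_zero] at h1
  rw [zero_add] at h2
  exact h1.add h2

theorem HasVal.add (hf : HasVal c f a) (hg : HasVal c g b) : HasVal c (f + g) (a + b) := by
  rw [hasVal_iff] at *
  have e : f + g - algebraMap ℂ L (a + b) = (f - algebraMap ℂ L a) + (g - algebraMap ℂ L b) := by
    rw [map_add]
    ring
  rw [e]
  exact hf.add hg

theorem HasVal.zero_of (hf : HasVal c (0 : L) a) : a = 0 := by
  by_contra ha
  rcases hf with h | h
  · exact ha ((map_eq_zero _).1 h.symm)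
  · rw [zero_sub, c.ord_neg, c.ord_const ha] at h
    exact lt_irrefl _ h

theorem HasVal.ne (hf : HasVal c f a) (ha : a ≠ 0) : f ≠ 0 := by
  rintro rfl
  exact ha hf.zero_of

theorem HasVal.ord (hf : HasVal c f a) (ha : a ≠ 0) : c.ord f = 0 := by
  have h1 := (hf.ge).resolve_left (hf.ne ha)
  by_contra hne
  have h2 : Ge c 1 f := Or.inr (by omega)
  have h3 := h2.sub (hasVal_iff.1 hf)
  rw [sub_sub_cancel] at h3
  have h4 := h3.resolve_left ((map_ne_zero _).2 ha)
  rw [c.ord_const ha] at h4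
  omega

theorem HasVal.inv (hf : HasVal c f a) (ha : a ≠ 0) : HasVal c f⁻¹ a⁻¹ := by
  have h0 := hf.ne ha
  have ha' : algebraMap ℂ L a ≠ 0 := (map_ne_zero _).2 ha
  rw [hasVal_iff] at *
  have e : f⁻¹ - algebraMap ℂ L a⁻¹ = (f⁻¹ * (algebraMap ℂ L (-a⁻¹))) *
      (f - algebraMap ℂ L a) := by
    rw [map_neg, map_inv₀]
    field_simp
    ring
  rw [e]
  have h1 : Ge c 0 (f⁻¹ * (algebraMap ℂ L (-a⁻¹))) := by
    have h2 : Ge c 0 f⁻¹ := Or.inr (by rw [c.ord_inv, HasVal.ord (hasVal_iff.2 hf) ha, neg_zero])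
    have h3 := h2.mul (Ge.const (P := c) (-a⁻¹))
    rwa [zero_add] at h3
  have h4 := h1.mul hf
  rwa [zero_add] at h4

theorem HasVal.pow (hf : HasVal c f a) (N : ℕ) : HasVal c (f ^ N) (a ^ N) := by
  induction N with
  | zero => rw [pow_zero, pow_zero]; exact HasVal.one
  | succ N ih => rw [pow_succ, pow_succ]; exact ih.mul hf

theorem HasVal.zpow (hf : HasVal c f a) (ha : a ≠ 0) (N : ℤ) : HasVal c (f ^ N) (a ^ N) := by
  cases N with
  | ofNat N =>
    rw [Int.ofNat_eq_natCast, zpow_natCast, zpow_natCast]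
    exact hf.pow N
  | negSucc N =>
    rw [zpow_negSucc, zpow_negSucc]
    exact (hf.pow _).inv (pow_ne_zero _ ha)

theorem HasVal.prod {ι : Type*} (s : Finset ι) {F : ι → L} {A : ι → ℂ}
    (h : ∀ i ∈ s, HasVal c (F i) (A i)) : HasVal c (∏ i ∈ s, F i) (∏ i ∈ s, A i) := by
  classical
  induction s using Finset.induction_on with
  | empty => exact HasVal.one
  | insert i s hi ih =>
    rw [Finset.prod_insert hi, Finset.prod_insert hi]
    exact (h i (Finset.mem_insert_self _ _)).mul
      (ih fun j hj => h j (Finset.mem_insert_of_mem hj))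

theorem HasVal.aeval {σ : Type} {z : σ → L} {v : σ → ℂ} (h : ∀ i, HasVal c (z i) (v i))
    (F : MvPolynomial σ ℂ) : HasVal c (MvPolynomial.aeval z F) (MvPolynomial.eval v F) := by
  induction F using MvPolynomial.induction_on with
  | C a => rw [MvPolynomial.aeval_C, MvPolynomial.eval_C]; exact HasVal.const a
  | add p q hp hq => rw [map_add, map_add]; exact hp.add hq
  | mul_X p i hp =>
    rw [map_mul, map_mul, MvPolynomial.aeval_X, MvPolynomial.eval_X]
    exact hp.mul (h i)

end val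

section bezout

variable {n q r : ℕ} {X : Cover n q r}

/-- the weights of the nonzero coordinates of a point have no common divisor -/
theorem exists_bezout (hF : X.Free) {v : (Fin (n + 1) → ℂ) × (Fin r → ℂ)} (hv : v ∈ X.Pts) :
    ∃ (a : ℤ) (b : Fin r → ℤ), (∀ k, v.2 k = 0 → b k = 0) ∧
      a * X.d + ∑ k, b k * X.w k = 1 := by
  classical
  let u : Option (Fin r) → ℤ := fun o => match o with
    | none => (X.d : ℤ)
    | some k => if v.2 k = 0 then 0 else (X.w k : ℤ)
  obtain ⟨g, hg⟩ : ∃ g : ℤ, Ideal.span (Set.range u) = Ideal.span {g} :=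
    IsPrincipalIdealRing.principal (Ideal.span (Set.range u)) |>.1
  have hdvd : ∀ o, g ∣ u o := fun o => by
    rw [← Ideal.mem_span_singleton, ← hg]
    exact Ideal.subset_span ⟨o, rfl⟩
  have hg0 : g ≠ 0 := by
    rintro rfl
    have h1 : (0 : ℤ) ∣ X.d := hdvd none
    rw [zero_dvd_iff] at h1
    exact absurd h1 (by exact_mod_cast X.hd.ne')
  have hunit : g.natAbs = 1 := by
    by_contra hne
    have hN0 : g.natAbs ≠ 0 := Int.natAbs_ne_zero.2 hg0
    have hprim := Complex.isPrimitiveRoot_exp g.natAbs hN0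
    have hpow : ∀ m : ℕ, g ∣ (m : ℤ) → Complex.exp (2 * Real.pi * Complex.I / g.natAbs) ^ m = 1 := by
      intro m hm
      rw [hprim.pow_eq_one_iff_dvd]
      exact Int.natAbs_dvd_natAbs.2 hm |>.trans (by simp)
    have h1 := hF v hv _ (hpow X.d (hdvd none)) (fun k => by
      by_cases hk : v.2 k = 0
      · rw [hk, mul_zero]
      · have h2 := hdvd (some k)
        simp only [u, hk, if_false] at h2
        rw [hpow _ h2, one_mul])
    exact hne (by
      have h2 := hprim.pow_eq_one_iff_dvd 1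
      rw [pow_one] at h2
      exact Nat.dvd_one.1 (h2.1 h1))
  have hone : (1 : ℤ) ∈ Ideal.span (Set.range u) := by
    rw [hg, Ideal.mem_span_singleton]
    exact Int.natAbs_dvd.1 (by rw [hunit]; exact one_dvd _)
  obtain ⟨C, hC⟩ := Ideal.mem_span_range_iff_exists_fun.1 hone
  refine ⟨C none, fun k => if v.2 k = 0 then 0 else C (some k), fun k hk => if_pos hk, ?_⟩
  rw [← hC, Fintype.sum_option]
  congr 1
  refine Finset.sum_congr rfl fun k _ => ?_
  by_cases hk : v.2 k = 0
  · simp [u, hk]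
  · simp [u, hk]

end bezout

end Pool.Agent.TH152.BB
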