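import Pool.Agent.TH152.BB.Core
import Pool.Agent.TH152.BB.CutStm

/-!
Pointed maps from varieties to abelian covers of projective space.
-/

set_option autoImplicit false

namespace Pool.Agent.TH152.BB

open FF Pool.Agent.W603.LV Pool.Agent.W603.PV Pool.Agent.W602.Cov Pool.Agent.W602.Cov.Cover
open Pool.Agent.TH152.CV Pool.Agent.TH152.HY Pool.Agent.W602.Cov.G

section defs

variable {A K : Type} [CommRing A] [Algebra ℂ A] [Field K] [Algebra A K]

/-- The element `f` of the function field `K` of the affine variety with the coordinate ring `A` is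
regular at the point `η` of this variety, and has the value `a` there. -/
def HasValA (η : A →ₐ[ℂ] ℂ) (f : K) (a : ℂ) : Prop :=
  ∃ g s : A, η s ≠ 0 ∧ f * algebraMap A K s = algebraMap A K g ∧ η g = a * η s

variable {n q r : ℕ}

/-- The rational map with the weighted homogeneous coordinates `p` from the affine variety with the
coordinate ring `A` to `X` is regular at the point `η`, and maps it to the point `v`. -/
def ValAtA (X : Cover n q r) (η : A →ₐ[ℂ] ℂ) (p : (Fin (n + 1) → K) × (Fin r → K))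
    (v : (Fin (n + 1) → ℂ) × (Fin r → ℂ)) : Prop :=
  ∃ t : K, t ≠ 0 ∧ (∀ j, HasValA η (t ^ X.d * p.1 j) (v.1 j)) ∧
    ∀ k, HasValA η (t ^ X.w k * p.2 k) (v.2 k)

variable (K) in
/-- There are only finitely many rational maps from the affine variety with the coordinate ring `A`
to `X` which are regular at the point `η` and map it to the point `v`. -/
def FinPointedA [Algebra ℂ K] (X : Cover n q r) (η : A →ₐ[ℂ] ℂ)
    (v : (Fin (n + 1) → ℂ) × (Fin r → ℂ)) : Prop :=
  ∃ T : Finset ((Fin (n + 1) → K) × (Fin r → K)), ∀ p : (Fin (n + 1) → K) × (Fin r → K),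
    PtK X p.1 p.2 → ValAtA X η p v → ∃ p' ∈ T, SameK X p' p

/-- For every variety `Y`, every point `y` of `Y` and every point `v` of `X` which is not in `Δ`,
there are only finitely many rational maps from `Y` to `X` which are regular at `y` and map it to
`v`. -/
def VarMod (X : Cover n q r) (Δ : Set ((Fin (n + 1) → ℂ) × (Fin r → ℂ))) : Prop :=
  ∀ (A : Type) [CommRing A] [IsDomain A] [Algebra ℂ A] [Algebra.FiniteType ℂ A]
    (K : Type) [Field K] [Algebra ℂ K] [Algebra A K] [IsScalarTower ℂ A K] [IsFractionRing A K]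
    (η : A →ₐ[ℂ] ℂ), ∀ v ∈ X.Pts, v ∉ Δ → FinPointedA K X η v

end defs

section val

variable {A K : Type} [CommRing A] [Algebra ℂ A] [Field K] [Algebra A K]
  {η : A →ₐ[ℂ] ℂ} {f g : K} {a b : ℂ}

theorem HasValA.one : HasValA η (1 : K) 1 := ⟨1, 1, by simp, by simp, by simp⟩

theorem HasValA.mul (hf : HasValA η f a) (hg : HasValA η g b) : HasValA η (f * g) (a * b) := by
  obtain ⟨g1, s1, h1, h2, h3⟩ := hf
  obtain ⟨g2, s2, h4, h5, h6⟩ := hg
  refine ⟨g1 * g2, s1 * s2, by rw [map_mul]; exact mul_ne_zero h1 h4, ?_, ?_⟩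
  · rw [map_mul, map_mul, ← h2, ← h5]
    ring
  · rw [map_mul, map_mul, h3, h6]
    ring

theorem HasValA.pow (hf : HasValA η f a) (N : ℕ) : HasValA η (f ^ N) (a ^ N) := by
  induction N with
  | zero => rw [pow_zero, pow_zero]; exact HasValA.one
  | succ N ih => rw [pow_succ, pow_succ]; exact ih.mul hf

theorem HasValA.prod {ι : Type*} (s : Finset ι) {F : ι → K} {B : ι → ℂ}
    (h : ∀ i ∈ s, HasValA η (F i) (B i)) : HasValA η (∏ i ∈ s, F i) (∏ i ∈ s, B i) := by
  classical
  induction s using Finset.induction_on with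
  | empty => exact HasValA.one
  | insert i s hi ih =>
    rw [Finset.prod_insert hi, Finset.prod_insert hi]
    exact (h i (Finset.mem_insert_self _ _)).mul
      (ih fun j hj => h j (Finset.mem_insert_of_mem hj))

variable [IsFractionRing A K]

theorem map_ne {x : A} (h : η x ≠ 0) : algebraMap A K x ≠ 0 := by
  intro h0
  have h1 : x = 0 := (IsFractionRing.injective A K) (by rw [h0, map_zero])
  rw [h1, map_zero] at h
  exact h rfl

theorem HasValA.ne (hf : HasValA η f a) (ha : a ≠ 0) : f ≠ 0 := by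
  rintro rfl
  obtain ⟨g, s, h1, h2, h3⟩ := hf
  have h4 : η g ≠ 0 := by rw [h3]; exact mul_ne_zero ha h1
  have h5 := map_ne (K := K) h4
  rw [← h2, zero_mul] at h5
  exact h5 rfl

theorem HasValA.inv (hf : HasValA η f a) (ha : a ≠ 0) : HasValA η f⁻¹ a⁻¹ := by
  have h0 := hf.ne ha
  obtain ⟨g, s, h1, h2, h3⟩ := hf
  have h4 : η g ≠ 0 := by rw [h3]; exact mul_ne_zero ha h1
  refine ⟨s, g, h4, ?_, ?_⟩
  · rw [← h2, inv_mul_cancel_left₀ h0]
  · rw [h3, inv_mul_cancel_left₀ ha]

theorem HasValA.zpow (hf : HasValA η f a) (ha : a ≠ 0) (N : ℤ) : HasValA η (f ^ N) (a ^ N) := by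
  cases N with
  | ofNat N =>
    rw [Int.ofNat_eq_natCast, zpow_natCast, zpow_natCast]
    exact hf.pow N
  | negSucc N =>
    rw [zpow_negSucc, zpow_negSucc]
    exact (hf.pow _).inv (pow_ne_zero _ ha)

variable {n q r : ℕ} {X : Cover n q r} {j0 : Fin (n + 1)} {e : ℤ} {d : Fin r → ℤ}

/-- the coordinates of `q` are regular at `c`, with the values `v` -/
def HasValsA (η : A →ₐ[ℂ] ℂ) (p : (Fin (n + 1) → K) × (Fin r → K))
    (v : (Fin (n + 1) → ℂ) × (Fin r → ℂ)) : Prop :=
  (∀ j, HasValA η (p.1 j) (v.1 j)) ∧ ∀ k, HasValA η (p.2 k) (v.2 k)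

theorem HasValsA.mono {p : (Fin (n + 1) → K) × (Fin r → K)}
    {v : (Fin (n + 1) → ℂ) × (Fin r → ℂ)} (h : HasValsA η p v) (hj : v.1 j0 ≠ 0)
    (hb : ∀ k, v.2 k = 0 → d k = 0) : HasValA η (BB.mono j0 e d p) (BB.mono j0 e d v) := by
  refine ((h.1 j0).zpow hj e).mul (HasValA.prod _ fun k _ => ?_)
  by_cases hk : v.2 k = 0
  · rw [hb k hk, zpow_zero, zpow_zero]
    exact HasValA.one
  · exact (h.2 k).zpow hk (d k)

theorem HasValsA.nz {p : (Fin (n + 1) → K) × (Fin r → K)}
    {v : (Fin (n + 1) → ℂ) × (Fin r → ℂ)} (h : HasValsA η p v) (hj : v.1 j0 ≠ 0)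
    (hb : ∀ k, v.2 k = 0 → d k = 0) :
    HasValsA η (BB.nz X j0 e d p) (BB.nz X j0 e d v) := by
  have ht := (h.mono (e := e) hj hb).inv (mono_ne hj hb)
  exact ⟨fun j => (ht.pow _).mul (h.1 j), fun k => (ht.pow _).mul (h.2 k)⟩

end val

/-- restriction to a curve -/
theorem restrict {A K L : Type} [CommRing A] [IsDomain A] [Algebra ℂ A] [Field K] [Algebra ℂ K]
    [Algebra A K] [IsScalarTower ℂ A K] [IsFractionRing A K] [Field L] [Algebra ℂ L]
    (ρ : A →ₐ[ℂ] L) {σ : Type} (z : σ → K) (g s : σ → A) (hs : ∀ i, ρ (s i) ≠ 0)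
    (hz : ∀ i, z i * algebraMap A K (s i) = algebraMap A K (g i)) (F : MvPolynomial σ ℂ)
    (hF : MvPolynomial.aeval z F = 0) :
    MvPolynomial.aeval (fun i => ρ (g i) * (ρ (s i))⁻¹) F = 0 := by
  classical
  let P : Ideal A := RingHom.ker ρ
  have hP : P.IsPrime := RingHom.ker_isPrime ρ
  have hmem : ∀ x : A, x ∈ P ↔ ρ x = 0 := fun x => RingHom.mem_ker
  -- the two homomorphisms
  have hu1 : ∀ y : P.primeCompl, IsUnit (algebraMap A K y) := by
    intro y
    rw [isUnit_iff_ne_zero]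
    intro h0
    have h1 : (y : A) = 0 := (IsFractionRing.injective A K) (by rw [h0, map_zero])
    exact y.2 (by rw [SetLike.mem_coe, h1]; exact P.zero_mem)
  have hu2 : ∀ y : P.primeCompl, IsUnit (ρ y) := by
    intro y
    rw [isUnit_iff_ne_zero]
    exact fun h0 => y.2 ((hmem _).2 h0)
  let ι : Localization.AtPrime P →+* K := IsLocalization.lift (M := P.primeCompl) hu1
  let ρ' : Localization.AtPrime P →+* L :=
    IsLocalization.lift (M := P.primeCompl) (g := (ρ : A →+* L)) hu2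
  have hι : ∀ x : A, ι (algebraMap A _ x) = algebraMap A K x := fun x => IsLocalization.lift_eq _ _
  have hρ' : ∀ x : A, ρ' (algebraMap A _ x) = ρ x := fun x => IsLocalization.lift_eq _ _
  have hinj : Function.Injective ι := by
    rw [injective_iff_map_eq_zero]
    intro x hx
    obtain ⟨⟨a, y⟩, hy⟩ := IsLocalization.surj P.primeCompl x
    have h1 : ι (x * algebraMap A _ (y : A)) = ι (algebraMap A _ a) := by rw [hy]
    rw [map_mul, hx, zero_mul, hι] at h1
    have h2 : a = 0 := (IsFractionRing.injective A K) (by rw [← h1, map_zero])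
    rw [h2, map_zero] at hy
    exact (IsUnit.mul_left_eq_zero (IsLocalization.map_units _ y)).1 hy
  have hsP : ∀ i, s i ∈ P.primeCompl := fun i h => hs i ((hmem _).1 h)
  let w : σ → Localization.AtPrime P := fun i => IsLocalization.mk' _ (g i) ⟨s i, hsP i⟩
  have hw : ∀ i, w i * algebraMap A _ (s i) = algebraMap A _ (g i) := fun i =>
    IsLocalization.mk'_spec _ (g i) ⟨s i, hsP i⟩
  have hwz : ∀ i, ι (w i) = z i := by
    intro i
    have h1 : algebraMap A K (s i) ≠ 0 := (hu1 ⟨s i, hsP i⟩).ne_zero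
    apply mul_right_cancel₀ h1
    rw [hz, ← hι, ← map_mul, hw, hι]
  have hwρ : ∀ i, ρ' (w i) = ρ (g i) * (ρ (s i))⁻¹ := by
    intro i
    rw [eq_mul_inv_iff_mul_eq₀ (hs i), ← hρ', ← map_mul, hw, hρ']
  have hιC : ∀ a : ℂ, ι (algebraMap ℂ _ a) = algebraMap ℂ K a := by
    intro a
    rw [IsScalarTower.algebraMap_apply ℂ A (Localization.AtPrime P), hι,
      ← IsScalarTower.algebraMap_apply]
  have hρC : ∀ a : ℂ, ρ' (algebraMap ℂ _ a) = algebraMap ℂ L a := by
    intro a
    rw [IsScalarTower.algebraMap_apply ℂ A (Localization.AtPrime P), hρ', AlgHom.commutes]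
  let ιA : Localization.AtPrime P →ₐ[ℂ] K := { ι with commutes' := hιC }
  let ρA : Localization.AtPrime P →ₐ[ℂ] L := { ρ' with commutes' := hρC }
  have h1 : ιA (MvPolynomial.aeval w F) = 0 := by
    rw [MvPolynomial.comp_aeval_apply]
    have h2 : (fun i => ιA (w i)) = z := funext hwz
    rw [h2]
    exact hF
  have h2 : MvPolynomial.aeval w F = 0 := by
    apply hinj
    rw [map_zero]
    exact h1
  have h3 : ρA (MvPolynomial.aeval w F) = 0 := by rw [h2, map_zero]
  rw [MvPolynomial.comp_aeval_apply] at h3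
  have h4 : (fun i => ρA (w i)) = fun i => ρ (g i) * (ρ (s i))⁻¹ := funext hwρ
  rw [h4] at h3
  exact h3

variable {n q r : ℕ} {X : Cover n q r}

/-- **Finiteness of pointed maps from varieties.** -/
theorem var_of_lin (hCUR : S_CUR) (hF : X.Free) {R : ℕ}
    {Δ : Set ((Fin (n + 1) → ℂ) × (Fin r → ℂ))} (hΔ : ClosedIn X Δ) (hL : LinMod X R Δ) :
    VarMod X Δ := by
  classical
  intro A _ _ _ _ K _ _ _ _ _ η v hv hvΔ
  by_contra hcon
  unfold FinPointedA at hcon
  push Not at hcon
  obtain ⟨p, hp, hinj⟩ := exists_seq_of_forall_finset_exists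
    (fun p : (Fin (n + 1) → K) × (Fin r → K) => PtK X p.1 p.2 ∧ ValAtA X η p v)
    (fun p' p => ¬ SameK X p' p) (fun T _ => by
      obtain ⟨p, h1, h2, h3⟩ := hcon T
      exact ⟨p, ⟨h1, h2⟩, h3⟩)
  obtain ⟨a, b, hb, hab⟩ := exists_bezout hF hv
  obtain ⟨j0, hj0⟩ := Function.ne_iff.1 hv.1
  change v.1 j0 ≠ 0 at hj0
  have hμ : mono j0 a b v ≠ 0 := mono_ne hj0 hb
  obtain ⟨v', hv'⟩ : ∃ v', v' = nz X j0 a b v := ⟨_, rfl⟩
  have hmono : ∀ m, mono j0 a b (p m) ≠ 0 ∧ HasValsA η (nz X j0 a b (p m)) v' := by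
    intro m
    obtain ⟨-, t, ht, h1, h2⟩ := hp m
    have h3 : HasValsA η (scl X t (p m)) v := ⟨h1, h2⟩
    have h4 := (h3.mono (e := a) hj0 hb).ne hμ
    rw [mono_scl hab ht] at h4
    refine ⟨right_ne_zero_of_mul h4, ?_⟩
    have h5 := h3.nz (X := X) (e := a) hj0 hb
    rw [nz_scl hab ht] at h5
    rw [hv']
    exact h5
  have hvj : v'.1 j0 ≠ 0 := by
    rw [hv']
    exact mul_ne_zero (pow_ne_zero _ (inv_ne_zero hμ)) hj0
  have hvb : ∀ k, v'.2 k = 0 → b k = 0 := fun k hk => by
    rw [hv'] at hk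
    exact hb k ((mul_eq_zero.1 hk).resolve_left (pow_ne_zero _ (inv_ne_zero hμ)))
  obtain ⟨P, hPd⟩ : ∃ P : ℕ → (Fin (n + 1) → K) × (Fin r → K),
      P = fun m => nz X j0 a b (p m) := ⟨_, rfl⟩
  have hPval : ∀ m, HasValsA η (P m) v' := fun m => by rw [hPd]; exact (hmono m).2
  have hPpt : ∀ m, PtK X (P m).1 (P m).2 := fun m => by
    rw [hPd]
    exact ptK_scl (inv_ne_zero (hmono m).1) (hp m).1
  have hPm : ∀ m, mono j0 a b (P m) = 1 := fun m => by
    rw [hPd]
    exact mono_nz hab (hmono m).1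
  have hPinj : Function.Injective P := by
    intro m m' h1
    rw [hPd] at h1
    by_contra hne
    rcases lt_or_gt_of_ne hne with h | h
    · exact hinj m m' h (sameK_of_nz (hmono m).1 (hmono m').1 h1)
    · exact hinj m' m h (sameK_of_nz (hmono m').1 (hmono m).1 h1.symm)
  -- numerators and denominators
  obtain ⟨z, hz⟩ : ∃ z : ℕ → Fin (n + 1) ⊕ Fin r → K, z = fun m => Sum.elim (P m).1 (P m).2 :=
    ⟨_, rfl⟩
  obtain ⟨u, hu⟩ : ∃ u : Fin (n + 1) ⊕ Fin r → ℂ, u = Sum.elim v'.1 v'.2 := ⟨_, rfl⟩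
  have hzu : ∀ m i, HasValA η (z m i) (u i) := by
    intro m i
    rw [hz, hu]
    rcases i with j | k
    · exact (hPval m).1 j
    · exact (hPval m).2 k
  have hzinj : ∀ m m', m ≠ m' → ∃ i, z m i ≠ z m' i := by
    intro m m' hne
    by_contra hcon
    push Not at hcon
    apply hne
    apply hPinj
    refine Prod.ext ?_ ?_
    · funext j
      have := hcon (Sum.inl j)
      rw [hz] at this
      exact this
    · funext k
      have := hcon (Sum.inr k)
      rw [hz] at this
      exact this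
  choose g s hs hgs hgv using hzu
  have hsK : ∀ m i, algebraMap A K (s m i) ≠ 0 := fun m i => map_ne (hs m i)
  have hne : ∀ m m', m ≠ m' → ∃ i, g m i * s m' i - g m' i * s m i ≠ 0 := by
    intro m m' hne
    obtain ⟨i, hi⟩ := hzinj m m' hne
    refine ⟨i, fun h0 => hi ?_⟩
    have h1 : algebraMap A K (g m i) * algebraMap A K (s m' i) =
        algebraMap A K (g m' i) * algebraMap A K (s m i) := by
      rw [← map_mul, ← map_mul, sub_eq_zero.1 h0]
    rw [← hgs, ← hgs] at h1
    have h2 : (z m i - z m' i) * (algebraMap A K (s m i) * algebraMap A K (s m' i)) = 0 := by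
      linear_combination h1
    rcases mul_eq_zero.1 h2 with h3 | h3
    · exact sub_eq_zero.1 h3
    · exact absurd h3 (mul_ne_zero (hsK m i) (hsK m' i))
  choose i0 hi0 using fun (x : {x : ℕ × ℕ // x.1 ≠ x.2}) => hne x.1.1 x.1.2 x.2
  by_cases hA : ∃ x : A, ∀ w : ℂ, x ≠ algebraMap ℂ A w
  · obtain ⟨e⟩ : Nonempty (ℕ ≃ ℕ × ℕ) := ⟨Nat.pairEquiv.symm⟩
    let al : ℕ → A := fun N => if h : (e N).1 ≠ (e N).2 then
      g (e N).1 (i0 ⟨e N, h⟩) * s (e N).2 (i0 ⟨e N, h⟩) -
        g (e N).2 (i0 ⟨e N, h⟩) * s (e N).1 (i0 ⟨e N, h⟩) else 1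
    obtain ⟨L, _, _, _, c, ρ, hρ1, hρ2⟩ := hCUR A η al (fun N => by
      by_cases h : (e N).1 ≠ (e N).2
      · simp only [al, dif_pos h]
        exact hi0 ⟨e N, h⟩
      · simp only [al, dif_neg h]
        exact one_ne_zero) hA
    have hsρ : ∀ m i, ρ (s m i) ≠ 0 := fun m i => (hρ2 (s m i)).ne (hs m i)
    obtain ⟨w, hw⟩ : ∃ w : ℕ → Fin (n + 1) ⊕ Fin r → L,
        w = fun m i => ρ (g m i) * (ρ (s m i))⁻¹ := ⟨_, rfl⟩
    have hwF : ∀ m (F : Poly n r), evK (P m).1 (P m).2 F = 0 →
        MvPolynomial.aeval (w m) F = 0 := by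
      intro m F hF
      rw [hw]
      refine restrict (K := K) ρ (z m) (g m) (s m) (hsρ m) (hgs m) F ?_
      rw [hz]
      exact hF
    have hwv : ∀ m i, HasVal c (w m i) (u i) := by
      intro m i
      have h1 := (hρ2 (g m i)).mul ((hρ2 (s m i)).inv (hs m i))
      rw [hgv m i, mul_inv_cancel_right₀ (hs m i)] at h1
      rw [hw]
      exact h1
    let Q : ℕ → (Fin (n + 1) → L) × (Fin r → L) := fun m =>
      (fun j => w m (Sum.inl j), fun k => w m (Sum.inr k))
    have hQw : ∀ m, (Sum.elim (Q m).1 (Q m).2 : Fin (n + 1) ⊕ Fin r → L) = w m := by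
      intro m
      funext i
      rcases i with j | k <;> rfl
    have hQF : ∀ m (F : Poly n r), evK (P m).1 (P m).2 F = 0 → evK (Q m).1 (Q m).2 F = 0 := by
      intro m F hF
      unfold evK
      rw [hQw]
      exact hwF m F hF
    have hQval : ∀ m, HasVals c (Q m) v' := by
      intro m
      refine ⟨fun j => ?_, fun k => ?_⟩
      · have := hwv m (Sum.inl j)
        rw [hu] at this
        exact this
      · have := hwv m (Sum.inr k)
        rw [hu] at this
        exact this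
    have hQj : ∀ m, (Q m).1 j0 ≠ 0 := fun m => ((hQval m).1 j0).ne hvj
    have hQb : ∀ m k, (Q m).2 k = 0 → b k = 0 := fun m k hk => hvb k (by
      have h3 := (hQval m).2 k
      rw [hk] at h3
      exact h3.zero_of)
    refine no_seq hL hab (v := v') ?_ hvj hvb c Q ?_ (fun m => ?_) (fun m => ?_) hQval
    · rw [hv']
      exact hΔ.sep hv hvΔ (inv_ne_zero hμ)
    · intro m m' hmm
      by_contra hne'
      have h1 := hρ1 (e.symm (m, m'))
      have h2 : (e (e.symm (m, m'))).1 ≠ (e (e.symm (m, m'))).2 := by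
        rw [e.apply_symm_apply]
        exact hne'
      obtain ⟨i, hi⟩ : ∃ i, ρ (g m i * s m' i - g m' i * s m i) ≠ 0 := by
        simp only [al, dif_pos h2] at h1
        refine ⟨i0 ⟨e (e.symm (m, m')), h2⟩, ?_⟩
        have h3 : e (e.symm (m, m')) = (m, m') := e.apply_symm_apply _
        have h4 : (e (e.symm (m, m'))).1 = m := by rw [h3]
        have h5 : (e (e.symm (m, m'))).2 = m' := by rw [h3]
        rw [h4, h5] at h1
        exact h1
      apply hi
      have h6 : w m i = w m' i := by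
        have h7 : (Sum.elim (Q m).1 (Q m).2 : Fin (n + 1) ⊕ Fin r → L) i =
            (Sum.elim (Q m').1 (Q m').2 : Fin (n + 1) ⊕ Fin r → L) i := by rw [hmm]
        rwa [hQw, hQw] at h7
      rw [hw] at h6
      simp only at h6
      rw [map_sub, map_mul, map_mul]
      have h8 := hsρ m i
      have h9 := hsρ m' i
      field_simp at h6
      linear_combination h6
    · refine ⟨fun h0 => hQj m (by rw [h0]; rfl), fun k => ?_⟩
      have h1 := hQF m (epoly X k) (by rw [evK_epoly, (hPpt m).mem k, sub_self])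
      rw [evK_epoly] at h1
      exact sub_eq_zero.1 h1
    · rw [mono_iff (hQj m) (hQb m)]
      refine hQF m _ ?_
      refine (mono_iff ?_ fun k hk => ?_).1 (hPm m)
      · exact ((hPval m).1 j0).ne hvj
      · by_contra hbk
        exact ((hPval m).2 k).ne (fun h => hbk (hvb k h)) hk
  · push Not at hA
    obtain ⟨i, hi⟩ := hzinj 0 1 (by norm_num)
    apply hi
    have hconst : ∀ m, z m i = algebraMap ℂ K (u i) := by
      intro m
      obtain ⟨g', hg'⟩ := hA (g m i)
      obtain ⟨s', hs'⟩ := hA (s m i)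
      have h1 := hgs m i
      have h2 := hgv m i
      have h3 := hsK m i
      rw [hg', hs'] at h1 h2
      rw [hs'] at h3
      rw [AlgHom.commutes, AlgHom.commutes] at h2
      simp only [Algebra.algebraMap_self, RingHom.id_apply] at h2
      rw [h2] at h1
      rw [← IsScalarTower.algebraMap_apply, ← IsScalarTower.algebraMap_apply, map_mul] at h1
      rw [← IsScalarTower.algebraMap_apply] at h3
      exact mul_right_cancel₀ h3 h1
    rw [hconst, hconst]

end Pool.Agent.TH152.BB
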